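import Mathlib

/-! Definitions for the uniform value of strongly acyclic gambling games (MP_555e58_an). -/

open MeasureTheory ProbabilityTheory Set Filter Topology

namespace Pool.Agent.R86.GG

section House

variable {X : Type} [MetricSpace X] [MeasurableSpace X] [BorelSpace X]

/-- `r = a p + (1 - a) q`. -/
def IsMix (a : ℝ) (p q r : ProbabilityMeasure X) : Prop :=
  (r : Measure X) = ENNReal.ofReal a • (p : Measure X) + ENNReal.ofReal (1 - a) • (q : Measure X)

/-- `Γ` has nonempty convex compact values, is leavable and non-expansive for the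
Kantorovich-Rubinstein distance `sup {|∫ f dp - ∫ f dp'| : f is 1-Lipschitz}`. -/
structure IsHouse (Γ : X → Set (ProbabilityMeasure X)) : Prop where
  compact : ∀ x, IsCompact (Γ x)
  convex : ∀ x, ∀ p ∈ Γ x, ∀ q ∈ Γ x, ∀ a ∈ Icc (0 : ℝ) 1, ∀ r, IsMix a p q r → r ∈ Γ x
  leavable : ∀ x, diracProba x ∈ Γ x
  nonexpansive : ∀ x x', ∀ p ∈ Γ x, ∃ p' ∈ Γ x', ∀ f : X → ℝ, LipschitzWith 1 f →
    |∫ z, f z ∂(p : Measure X) - ∫ z, f z ∂(p' : Measure X)| ≤ dist x x'

/-- Finite convex combinations of the points `(δ_x, p)`, `p ∈ Γ x`. -/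
def combos (Γ : X → Set (ProbabilityMeasure X)) :
    Set (ProbabilityMeasure X × ProbabilityMeasure X) :=
  {m | ∃ (n : ℕ) (a : Fin n → ℝ) (x : Fin n → X) (p : Fin n → ProbabilityMeasure X),
    (∀ i, 0 ≤ a i) ∧ ∑ i, a i = 1 ∧ (∀ i, p i ∈ Γ (x i)) ∧
    (m.1 : Measure X) = ∑ i, ENNReal.ofReal (a i) • Measure.dirac (x i) ∧
    (m.2 : Measure X) = ∑ i, ENNReal.ofReal (a i) • (p i : Measure X)}

/-- The graph of the extension of `Γ` to probability measures. -/
def ext (Γ : X → Set (ProbabilityMeasure X)) :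
    Set (ProbabilityMeasure X × ProbabilityMeasure X) := closure (combos Γ)

/-- The iterates of the extension. -/
def iter (Γ : X → Set (ProbabilityMeasure X)) :
    ℕ → ProbabilityMeasure X → Set (ProbabilityMeasure X)
  | 0, p => {p}
  | n + 1, p => {r | ∃ q, (p, q) ∈ ext Γ ∧ r ∈ iter Γ n q}

/-- `Γ^∞ (x)`. -/
def reach (Γ : X → Set (ProbabilityMeasure X)) (x : X) : Set (ProbabilityMeasure X) :=
  closure (⋃ n, iter Γ n (diracProba x))

/-- Strong acyclicity of the house of Player 1 (the maximiser). -/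
def StronglyAcyclic (Γ : X → Set (ProbabilityMeasure X)) : Prop :=
  ∃ φ : X → ℝ, LowerSemicontinuous φ ∧ (∃ C, ∀ x, |φ x| ≤ C) ∧
    ∀ x, {p | p ∈ reach Γ x ∧ ∀ q ∈ reach Γ x,
      ∫ z, φ z ∂(q : Measure X) ≤ ∫ z, φ z ∂(p : Measure X)} = {diracProba x}

/-- Strong acyclicity of the house of Player 2 (the minimiser). -/
def StronglyAcyclic' (Λ : X → Set (ProbabilityMeasure X)) : Prop :=
  ∃ ψ : X → ℝ, UpperSemicontinuous ψ ∧ (∃ C, ∀ x, |ψ x| ≤ C) ∧
    ∀ x, {p | p ∈ reach Λ x ∧ ∀ q ∈ reach Λ x,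
      ∫ z, ψ z ∂(p : Measure X) ≤ ∫ z, ψ z ∂(q : Measure X)} = {diracProba x}

end House

section Game

variable {X Y : Type} [MetricSpace X] [MeasurableSpace X] [BorelSpace X]
  [MetricSpace Y] [MeasurableSpace Y] [BorelSpace Y]

/-- Strategies of a player: `g` extracts the own state of the player from the pair of states
(`Prod.fst` for Player 1, `Prod.snd` for Player 2). After the history
`h = ((x_0, y_0), ..., (x_t, y_t))` the player picks the law `k t h` of his next state in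
`Γ (g (x_t, y_t))`. -/
structure Strat (X Y : Type) [MeasurableSpace X] [MeasurableSpace Y] {Z : Type}
    [MeasurableSpace Z] (g : X × Y → Z) (Γ : Z → Set (ProbabilityMeasure Z)) where
  k : (t : ℕ) → Kernel (Fin (t + 1) → X × Y) Z
  markov : ∀ t, IsMarkovKernel (k t)
  mem : ∀ t h, ∃ p ∈ Γ (g (h (Fin.last t))), (p : Measure Z) = k t h

/-- The law of the history `((x_0, y_0), ..., (x_t, y_t))`. -/
noncomputable def law {Γ : X → Set (ProbabilityMeasure X)} {Λ : Y → Set (ProbabilityMeasure Y)}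
    (σ : Strat X Y Prod.fst Γ) (τ : Strat X Y Prod.snd Λ) (z : X × Y) :
    (t : ℕ) → Measure (Fin (t + 1) → X × Y)
  | 0 => Measure.dirac (fun _ => z)
  | t + 1 => ((law σ τ z t) ⊗ₘ (σ.k t ×ₖ τ.k t)).map
      (fun p => (Fin.snoc p.1 p.2 : Fin (t + 1 + 1) → X × Y))

/-- Expected average payoff of the first `n` stages. -/
noncomputable def payoff (u : X × Y → ℝ) {Γ : X → Set (ProbabilityMeasure X)}
    {Λ : Y → Set (ProbabilityMeasure Y)}
    (σ : Strat X Y Prod.fst Γ) (τ : Strat X Y Prod.snd Λ) (z : X × Y) (n : ℕ) : ℝ :=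
  (∑ t ∈ Finset.range n, ∫ h, u (h (Fin.last t)) ∂(law σ τ z t)) / n

/-- `v` is the uniform value at `z`. -/
def IsUniformValue (u : X × Y → ℝ) (Γ : X → Set (ProbabilityMeasure X))
    (Λ : Y → Set (ProbabilityMeasure Y)) (z : X × Y) (v : ℝ) : Prop :=
  ∀ ε > 0, ∃ (σ' : Strat X Y Prod.fst Γ) (τ' : Strat X Y Prod.snd Λ) (N : ℕ), ∀ n ≥ N,
    (∀ τ : Strat X Y Prod.snd Λ, v - ε ≤ payoff u σ' τ z n) ∧
    (∀ σ : Strat X Y Prod.fst Γ, payoff u σ τ' z n ≤ v + ε)

end Game

section Aux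

variable {X : Type} [MetricSpace X] [MeasurableSpace X] [BorelSpace X]

/-- Lipschitz excessive functions. -/
def Exc (Γ : X → Set (ProbabilityMeasure X)) (f : X → ℝ) : Prop :=
  (∃ K, LipschitzWith K f) ∧ ∀ x, ∀ p ∈ Γ x, ∫ z, f z ∂(p : Measure X) ≤ f x

/-- The measures which no Lipschitz excessive function distinguishes from being reachable. -/
def Rset (Γ : X → Set (ProbabilityMeasure X)) (x : X) : Set (ProbabilityMeasure X) :=
  {p | ∀ f, Exc Γ f → ∫ z, f z ∂(p : Measure X) ≤ f x}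

/-- The one step operator. -/
noncomputable def Lop (Γ : X → Set (ProbabilityMeasure X)) (g : X → ℝ) (x : X) : ℝ :=
  sSup ((fun p : ProbabilityMeasure X => ∫ z, g z ∂(p : Measure X)) '' Γ x)

/-- The least excessive majorant. -/
noncomputable def hull (Γ : X → Set (ProbabilityMeasure X)) (g : X → ℝ) (x : X) : ℝ :=
  ⨆ N : ℕ, (Lop Γ)^[N] g x

end Aux

end Pool.Agent.R86.GG
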