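import Pool.Agent.R86.GG.PartP0

/-! Assembly of the parts. -/

open MeasureTheory ProbabilityTheory Set Filter Topology
open scoped NNReal ENNReal

namespace Pool.Agent.R86.GG

variable {X Y : Type} [MetricSpace X] [CompactSpace X] [MeasurableSpace X] [BorelSpace X]
  [MetricSpace Y] [CompactSpace Y] [MeasurableSpace Y] [BorelSpace Y]

omit [CompactSpace X] in
theorem acyclic_swap {Λ : X → Set (ProbabilityMeasure X)} (h : StronglyAcyclic' Λ) :
    StronglyAcyclic Λ := by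
  obtain ⟨ψ, h1, ⟨C, hC⟩, h2⟩ := h
  refine ⟨fun x => -ψ x, ?_, ⟨C, fun x => by rw [abs_neg]; exact hC x⟩, fun x => ?_⟩
  · exact continuous_neg.comp_upperSemicontinuous_antitone h1 fun a b hab => neg_le_neg hab
  · rw [← h2 x]
    ext p
    simp only [mem_ofPred_eq, integral_neg, neg_le_neg_iff]

theorem limSol_swap {Γ : X → Set (ProbabilityMeasure X)} {Λ : Y → Set (ProbabilityMeasure Y)}
    {u w : X × Y → ℝ} (h : LimSol Γ Λ u w) :
    LimSol Λ Γ (fun z => -u (z.2, z.1)) (fun z => -w (z.2, z.1)) := by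
  obtain ⟨⟨K, hK⟩, h1, h2, h3⟩ := h
  have hwc : Continuous w := hK.continuous
  have hfub : ∀ (p : ProbabilityMeasure X) (q : ProbabilityMeasure Y),
      ∫ b, (∫ a, -w (a, b) ∂(p : Measure X)) ∂(q : Measure Y) =
        -∫ a, (∫ b, w (a, b) ∂(q : Measure Y)) ∂(p : Measure X) := by
    intro p q
    simp_rw [integral_neg]
    rw [integral_integral_swap]
    exact integrable_prod (w := fun z : Y × X => w (z.2, z.1)) (by fun_prop) q p
  refine ⟨⟨K, ?_⟩, fun y x q hq => ?_, fun y x p hp => ?_, fun ε hε => ?_⟩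
  · refine LipschitzWith.of_dist_le_mul fun a b => ?_
    have := hK.dist_le_mul (a.2, a.1) (b.2, b.1)
    rw [dist_neg_neg]
    refine this.trans (le_of_eq ?_)
    rw [Prod.dist_eq, Prod.dist_eq, max_comm]
  · obtain ⟨p, hp, hle⟩ := h2 x y q hq
    refine ⟨p, hp, ?_⟩
    simp only
    rw [hfub p q]
    linarith
  · obtain ⟨q, hq, hle⟩ := h1 x y p hp
    refine ⟨q, hq, ?_⟩
    simp only
    rw [hfub p q]
    linarith
  · obtain ⟨f, hf, hfw, lam, h0, h1, h4, h5⟩ := h3 ε hε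
    refine ⟨fun z => -f (z.2, z.1), by fun_prop, fun z => ?_, lam, h0, h1, fun y x => ?_,
      fun y x => ?_⟩
    · have := hfw (z.2, z.1)
      rw [abs_le] at *
      constructor <;> linarith [this.1, this.2]
    · obtain ⟨q, hq, hle⟩ := h5 x y
      refine ⟨q, hq, ?_⟩
      simp only [integral_neg]
      linarith
    · obtain ⟨p, hp, hle⟩ := h4 x y
      refine ⟨p, hp, ?_⟩
      simp only [integral_neg]
      linarith

/-- Uniform approximation by Lipschitz functions. -/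
theorem exists_lip_approx {Z : Type} [MetricSpace Z] [CompactSpace Z] {u : Z → ℝ}
    (hu : Continuous u) {ε : ℝ} (hε : 0 < ε) :
    ∃ (K : ℝ≥0) (f : Z → ℝ), LipschitzWith K f ∧ ∀ z, |u z - f z| ≤ ε := by
  obtain ⟨C, hC0, hC⟩ : ∃ C, 0 ≤ C ∧ ∀ z, |u z| ≤ C := by
    obtain ⟨C, hC⟩ := (isCompact_range hu).isBounded.exists_norm_le
    refine ⟨max C 0, le_max_right _ _, fun x => ?_⟩
    have := hC (u x) (mem_range_self x)
    rw [Real.norm_eq_abs] at this
    exact this.trans (le_max_left _ _)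
  have huc := CompactSpace.uniformContinuous_of_continuous hu
  obtain ⟨δ, hδ, h⟩ := Metric.uniformContinuous_iff.1 huc ε hε
  have hLpos : 0 ≤ 2 * C / δ := by positivity
  let L : ℝ≥0 := ⟨2 * C / δ, hLpos⟩
  have hLval : (L : ℝ) = 2 * C / δ := rfl
  have hbdd : ∀ x, BddBelow (range fun y => u y + L * dist x y) := by
    intro x
    refine ⟨-C, ?_⟩
    rintro _ ⟨y, rfl⟩
    have h1 := (abs_le.1 (hC y)).1
    have h2 : 0 ≤ (L : ℝ) * dist x y := mul_nonneg L.2 dist_nonneg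
    simp only
    linarith
  refine ⟨L, fun x => ⨅ y, (u y + L * dist x y), ?_, fun x => ?_⟩
  · have key : ∀ a b, (⨅ y, (u y + L * dist a y)) ≤ (⨅ y, (u y + L * dist b y)) + L * dist a b := by
      intro a b
      have : Nonempty Z := ⟨a⟩
      rw [← sub_le_iff_le_add]
      refine le_ciInf fun y => ?_
      rw [sub_le_iff_le_add]
      refine (ciInf_le (hbdd a) y).trans ?_
      have e : (L : ℝ) * (dist a b + dist b y) = L * dist a b + L * dist b y := by ring
      have : (L : ℝ) * dist a y ≤ L * (dist a b + dist b y) :=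
        mul_le_mul_of_nonneg_left (dist_triangle a b y) L.2
      linarith
    refine LipschitzWith.of_dist_le_mul fun a b => ?_
    rw [Real.dist_eq, abs_le]
    constructor
    · have := key b a
      rw [dist_comm b a] at this
      linarith
    · have := key a b
      linarith
  · have : Nonempty Z := ⟨x⟩
    have h1 : (⨅ y, (u y + L * dist x y)) ≤ u x := by
      have := ciInf_le (hbdd x) x
      simpa using this
    have h2 : u x - ε ≤ ⨅ y, (u y + L * dist x y) := by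
      refine le_ciInf fun y => ?_
      have h3 : 0 ≤ (L : ℝ) * dist x y := mul_nonneg L.2 dist_nonneg
      by_cases hd : dist x y < δ
      · have := h hd
        rw [Real.dist_eq] at this
        have := (abs_lt.1 this).2
        linarith
      · push Not at hd
        have h4 : 2 * C ≤ L * dist x y := by
          rw [hLval, div_mul_eq_mul_div, le_div_iff₀ hδ]
          exact mul_le_mul_of_nonneg_left hd (by positivity)
        have h5 := (abs_le.1 (hC y)).1
        have h6 := (abs_le.1 (hC x)).2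
        linarith
    rw [abs_le]
    constructor <;> linarith

omit [CompactSpace X] [BorelSpace X] [CompactSpace Y] [BorelSpace Y] in
theorem measurable_snoc' (t : ℕ) : Measurable
    (fun p : (Fin (t + 1) → X × Y) × (X × Y) => (Fin.snoc p.1 p.2 : Fin (t + 1 + 1) → X × Y)) := by
  refine measurable_pi_lambda _ fun i => ?_
  refine Fin.lastCases ?_ (fun j => ?_) i
  · simp only [Fin.snoc_last]
    exact measurable_snd
  · simp only [Fin.snoc_castSucc]
    exact (measurable_pi_apply j).comp measurable_fst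

theorem law_prob {Γ : X → Set (ProbabilityMeasure X)} {Λ : Y → Set (ProbabilityMeasure Y)}
    (σ : Strat X Y Prod.fst Γ) (τ : Strat X Y Prod.snd Λ) (z : X × Y) (t : ℕ) :
    IsProbabilityMeasure (law σ τ z t) := by
  induction t with
  | zero => exact Measure.dirac.isProbabilityMeasure
  | succ t ih =>
    have := σ.markov t
    have := τ.markov t
    exact Measure.isProbabilityMeasure_map (measurable_snoc' t).aemeasurable

theorem payoff_close {Γ : X → Set (ProbabilityMeasure X)} {Λ : Y → Set (ProbabilityMeasure Y)}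
    (σ : Strat X Y Prod.fst Γ) (τ : Strat X Y Prod.snd Λ) (z : X × Y) {u f : X × Y → ℝ}
    (hu : Continuous u) (hf : Continuous f) {ε : ℝ} (h : ∀ z, |u z - f z| ≤ ε) {n : ℕ}
    (hn : 0 < n) : |payoff u σ τ z n - payoff f σ τ z n| ≤ ε := by
  have hn' : (0 : ℝ) < n := by exact_mod_cast hn
  unfold payoff
  rw [← sub_div, ← Finset.sum_sub_distrib, abs_div, abs_of_pos hn', div_le_iff₀ hn']
  refine (Finset.abs_sum_le_sum_abs _ _).trans ?_
  have h1 : ∀ t ∈ Finset.range n, |∫ h, u (h (Fin.last t)) ∂(law σ τ z t) -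
      ∫ h, f (h (Fin.last t)) ∂(law σ τ z t)| ≤ ε := by
    intro t _
    have := law_prob σ τ z t
    have hint : ∀ g : X × Y → ℝ, Continuous g → Integrable
        (fun h : Fin (t + 1) → X × Y => g (h (Fin.last t))) (law σ τ z t) := by
      intro g hg
      obtain ⟨C, _, hC⟩ := exists_bound hg
      refine Integrable.of_bound ((hg.measurable.comp
        (measurable_pi_apply (Fin.last t))).aestronglyMeasurable) C
        (Eventually.of_forall fun h => ?_)
      rw [Real.norm_eq_abs]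
      exact hC _
    rw [← integral_sub (hint u hu) (hint f hf)]
    have h2 := norm_integral_le_of_norm_le_const (μ := law σ τ z t)
      (f := fun h : Fin (t + 1) → X × Y => u (h (Fin.last t)) - f (h (Fin.last t))) (C := ε)
      (Eventually.of_forall fun a => by rw [Real.norm_eq_abs]; exact h _)
    simpa using h2
  refine (Finset.sum_le_sum h1).trans (le_of_eq ?_)
  simp [mul_comm]

theorem uniform_of_approx {Γ : X → Set (ProbabilityMeasure X)}
    {Λ : Y → Set (ProbabilityMeasure Y)} {u : X × Y → ℝ} {z : X × Y}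
    (h : ∀ ε > 0, ∃ a b : ℝ, b ≤ a + ε ∧
      (∃ (σ : Strat X Y Prod.fst Γ) (N : ℕ), ∀ n ≥ N, ∀ τ : Strat X Y Prod.snd Λ,
        a ≤ payoff u σ τ z n) ∧
      (∃ (τ : Strat X Y Prod.snd Λ) (N : ℕ), ∀ n ≥ N, ∀ σ : Strat X Y Prod.fst Γ,
        payoff u σ τ z n ≤ b)) : ∃ v, IsUniformValue u Γ Λ z v := by
  have hle : ∀ a b : ℝ, (∃ (σ : Strat X Y Prod.fst Γ) (N : ℕ), ∀ n ≥ N,
      ∀ τ : Strat X Y Prod.snd Λ, a ≤ payoff u σ τ z n) →
      (∃ (τ : Strat X Y Prod.snd Λ) (N : ℕ), ∀ n ≥ N, ∀ σ : Strat X Y Prod.fst Γ,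
        payoff u σ τ z n ≤ b) → a ≤ b := by
    rintro a b ⟨σ, N, h1⟩ ⟨τ, N', h2⟩
    exact (h1 (max N N') (le_max_left _ _) τ).trans (h2 (max N N') (le_max_right _ _) σ)
  let S : Set ℝ := {a | ∃ (σ : Strat X Y Prod.fst Γ) (N : ℕ), ∀ n ≥ N,
      ∀ τ : Strat X Y Prod.snd Λ, a ≤ payoff u σ τ z n}
  refine ⟨sSup S, fun ε hε => ?_⟩
  obtain ⟨a, b, hab, ha, hb⟩ := h ε hε
  have hSb : ∀ s ∈ S, s ≤ b := fun s hs => hle s b hs hb
  have hbdd : BddAbove S := ⟨b, hSb⟩
  have h1 : a ≤ sSup S := le_csSup hbdd ha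
  have h2 : sSup S ≤ b := csSup_le ⟨a, ha⟩ hSb
  obtain ⟨σ, N, hσ⟩ := ha
  obtain ⟨τ, N', hτ⟩ := hb
  refine ⟨σ, τ, max N N', fun n hn => ⟨fun τ' => ?_, fun σ' => ?_⟩⟩
  · have := hσ n ((le_max_left _ _).trans hn) τ'
    linarith
  · have := hτ n ((le_max_right _ _).trans hn) σ'
    linarith

theorem lip_value (hC : PartC) (hD : PartD) (hE : PartE) (hP : PartP) (hI : PartI)
    {Γ : X → Set (ProbabilityMeasure X)} {Λ : Y → Set (ProbabilityMeasure Y)}
    (hΓ : IsHouse Γ) (hΛ : IsHouse Λ) (haΓ : StronglyAcyclic Γ) (haΛ : StronglyAcyclic Λ)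
    {K : ℝ≥0} {u : X × Y → ℝ} (hu : LipschitzWith K u) :
    ∃ w : X × Y → ℝ, ∀ ε > 0, (∃ (σ : Strat X Y Prod.fst Γ) (N : ℕ), ∀ n ≥ N,
        ∀ (τ : Strat X Y Prod.snd Λ) (z : X × Y), w z - ε ≤ payoff u σ τ z n) ∧
      (∃ (τ : Strat X Y Prod.snd Λ) (N : ℕ), ∀ n ≥ N,
        ∀ (σ : Strat X Y Prod.fst Γ) (z : X × Y), payoff u σ τ z n ≤ w z + ε) := by
  obtain ⟨w, hw⟩ := hC X Y Γ Λ hΓ hΛ K u hu
  have hw' := limSol_swap hw
  obtain ⟨Kw, hKw⟩ := hw.lip
  obtain ⟨Kw', hKw'⟩ := hw'.lip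
  have hu' : LipschitzWith K (fun z : Y × X => -u (z.2, z.1)) := by
    refine LipschitzWith.of_dist_le_mul fun a b => ?_
    have := hu.dist_le_mul (a.2, a.1) (b.2, b.1)
    rw [dist_neg_neg]
    refine this.trans (le_of_eq ?_)
    rw [Prod.dist_eq, Prod.dist_eq, max_comm]
  obtain ⟨hex, hde⟩ := hD X Y Γ Λ hΓ hΛ haΓ haΛ u w hw
  obtain ⟨hex', hde'⟩ := hD Y X Λ Γ hΛ hΓ haΛ haΓ _ _ hw'
  refine ⟨w, fun ε hε => ⟨?_, ?_⟩⟩
  · obtain ⟨σ, N, h⟩ := hP X Y Γ Λ hΓ hΛ haΓ (max K Kw) u w (hu.weaken (le_max_left _ _))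
      (hKw.weaken (le_max_right _ _)) hex hde
      (fun y θ h0 h1 h hh hle x => hE X Y Γ Λ hΓ hΛ K u w hu hw y θ h0 h1 h hh hle x) ε hε
    exact ⟨σ, N, h⟩
  · obtain ⟨σ, N, h⟩ := hP Y X Λ Γ hΛ hΓ haΛ (max K Kw') _ _ (hu'.weaken (le_max_left _ _))
      (hKw'.weaken (le_max_right _ _)) hex' hde'
      (fun y θ h0 h1 h hh hle x => hE Y X Λ Γ hΛ hΓ K _ _ hu' hw' y θ h0 h1 h hh hle x) ε hε
    obtain ⟨τ', hτ'⟩ := hI X Y Γ Λ u hu.continuous σ
    refine ⟨τ', N, fun n hn σ₁ z => ?_⟩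
    obtain ⟨σ', hσ'⟩ := hτ' σ₁
    rw [hσ' z n]
    have := h n hn σ' (z.2, z.1)
    simp only at this
    linarith

theorem main_of (hC : PartC) (hD : PartD) (hE : PartE) (hP : PartP) (hI : PartI) : Main := by
  intro X Y _ _ _ _ _ _ _ _ Γ Λ hΓ hΛ haΓ haΛ u hu z
  have haΛ' := acyclic_swap haΛ
  refine uniform_of_approx fun ε hε => ?_
  obtain ⟨K, f, hf, hfu⟩ := exists_lip_approx hu (show 0 < ε / 4 by positivity)
  obtain ⟨w, hw⟩ := lip_value hC hD hE hP hI hΓ hΛ haΓ haΛ' hf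
  obtain ⟨⟨σ, N, h1⟩, ⟨τ, N', h2⟩⟩ := hw (ε / 4) (by positivity)
  refine ⟨w z - ε / 2, w z + ε / 2, by linarith, ⟨σ, N + 1, fun n hn τ' => ?_⟩,
    ⟨τ, N' + 1, fun n hn σ' => ?_⟩⟩
  · have h3 := h1 n (by omega) τ' z
    have h4 := payoff_close σ τ' z hu hf.continuous hfu (show 0 < n by omega)
    have := (abs_le.1 h4).1
    linarith
  · have h3 := h2 n (by omega) σ' z
    have h4 := payoff_close σ' τ z hu hf.continuous hfu (show 0 < n by omega)
    have := (abs_le.1 h4).2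
    linarith

end Pool.Agent.R86.GG
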