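import Pool.Agent.R86.GG.OpA

/-! Lipschitz functions determine measures; houses have a closed graph. -/

open MeasureTheory ProbabilityTheory Set Filter Topology
open scoped NNReal ENNReal

namespace Pool.Agent.R86.GG

variable {X : Type} [MetricSpace X] [CompactSpace X] [MeasurableSpace X] [BorelSpace X]

/-- Lipschitz functions determine a probability measure. -/
theorem ext_lip {p q : ProbabilityMeasure X}
    (h : ∀ (K : ℝ≥0) (f : X → ℝ), LipschitzWith K f →
      ∫ z, f z ∂(p : Measure X) = ∫ z, f z ∂(q : Measure X)) : p = q := by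
  have h1 : Tendsto (fun _ : Unit => p) ⊤ (𝓝 q) := by
    rw [tendsto_iff_forall_lipschitz_integral_tendsto]
    rintro f - ⟨L, hL⟩
    rw [h L f hL]
    exact tendsto_const_nhds
  exact tendsto_nhds_unique tendsto_const_nhds h1

/-- Along an ultrafilter, if `q i` converges to `q0` and the Lipschitz integrals of `q i` and
`p i` are asymptotically equal, then `p i` converges to `q0`. -/
theorem tendsto_of_lip {ι : Type*} {U : Ultrafilter ι} {p q : ι → ProbabilityMeasure X}
    {q0 : ProbabilityMeasure X} (hq : Tendsto q U (𝓝 q0))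
    (h : ∀ (K : ℝ≥0) (f : X → ℝ), LipschitzWith K f →
      Tendsto (fun i => ∫ z, f z ∂(p i : Measure X) - ∫ z, f z ∂(q i : Measure X)) U (𝓝 0)) :
    Tendsto p U (𝓝 q0) := by
  obtain ⟨p0, -, hp0⟩ := isCompact_univ.ultrafilter_le_nhds' (U.map p) Filter.univ_mem
  have hp : Tendsto p U (𝓝 p0) := hp0
  have : p0 = q0 := by
    refine ext_lip fun K f hf => ?_
    have h1 := ((cont_int hf.continuous).tendsto p0).comp hp
    have h2 := ((cont_int hf.continuous).tendsto q0).comp hq
    have h3 := h1.sub h2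
    have h4 := tendsto_nhds_unique h3 (h K f hf)
    linarith
  rwa [this] at hp

/-- The graph of a house is closed. -/
theorem isClosed_graph {Γ : X → Set (ProbabilityMeasure X)} (hΓ : IsHouse Γ) :
    IsClosed {z : X × ProbabilityMeasure X | z.2 ∈ Γ z.1} := by
  rw [isClosed_iff_ultrafilter]
  rintro ⟨x, p⟩ U hU hmem
  have hx : Tendsto (fun z : X × ProbabilityMeasure X => z.1) U (𝓝 x) :=
    (continuous_fst.tendsto (x, p)).mono_left hU
  have hp : Tendsto (fun z : X × ProbabilityMeasure X => z.2) U (𝓝 p) :=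
    (continuous_snd.tendsto (x, p)).mono_left hU
  have hex : ∀ z : X × ProbabilityMeasure X, ∃ p' ∈ Γ x, z.2 ∈ Γ z.1 →
      ∀ (K : ℝ≥0) (f : X → ℝ), LipschitzWith K f →
      |∫ a, f a ∂(z.2 : Measure X) - ∫ a, f a ∂(p' : Measure X)| ≤ K * dist z.1 x := by
    intro z
    by_cases hz : z.2 ∈ Γ z.1
    · obtain ⟨p', hp', h⟩ := hΓ.nonexp (x' := x) hz
      exact ⟨p', hp', fun _ => h⟩
    · exact ⟨_, hΓ.leavable x, fun h => absurd h hz⟩
  choose s hs hs' using hex
  have hlim : Tendsto s U (𝓝 p) := by
    refine tendsto_of_lip hp fun K f hf => ?_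
    have h0 : Tendsto (fun z : X × ProbabilityMeasure X => (K : ℝ) * dist z.1 x) U (𝓝 0) := by
      have := (tendsto_iff_dist_tendsto_zero.1 hx).const_mul (K : ℝ)
      simpa using this
    refine squeeze_zero_norm' ?_ h0
    filter_upwards [hmem] with z hz
    rw [Real.norm_eq_abs, abs_sub_comm]
    exact hs' z hz K f hf
  exact (hΓ.compact x).isClosed.mem_of_tendsto hlim (Eventually.of_forall hs)

end Pool.Agent.R86.GG
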