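import Pool.Agent.R86.GG.OpA

/-! Measurability of measure valued maps, multi-step continuous strategies. -/

open MeasureTheory ProbabilityTheory Set Filter Topology
open scoped NNReal ENNReal

namespace Pool.Agent.R86.GG

variable {X : Type} [MetricSpace X] [CompactSpace X] [MeasurableSpace X] [BorelSpace X]

/-- A map into probability measures is measurable when the integrals of continuous functions
are. -/
theorem measurable_of_forall_cont {Z : Type} [MeasurableSpace Z] {κ : Z → ProbabilityMeasure X}
    (h : ∀ f : X → ℝ, Continuous f → Measurable fun z => ∫ a, f a ∂(κ z : Measure X)) :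
    Measurable fun z => (κ z : Measure X) := by
  refine Measurable.measure_of_isPiSystem_of_isProbabilityMeasure (S := {s | IsClosed s})
    (by rw [BorelSpace.measurable_eq (α := X), borel_eq_generateFrom_isClosed])
    isPiSystem_isClosed ?_
  intro F hF
  have hpos : ∀ n : ℕ, (0:ℝ) < 1 / ((n : ℝ) + 1) := fun n => Nat.one_div_pos_of_nat
  have hlim : Tendsto (fun n : ℕ => 1 / ((n : ℝ) + 1)) atTop (𝓝 0) :=
    tendsto_one_div_add_atTop_nhds_zero_nat
  refine measurable_of_tendsto_metrizable
    (f := fun (n : ℕ) z => ∫⁻ a, (thickenedIndicator (hpos n) F a : ℝ≥0∞) ∂(κ z : Measure X))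
    (fun n => ?_)
    (tendsto_pi_nhds.2 fun z => tendsto_lintegral_thickenedIndicator_of_isClosed _ hF hpos hlim)
  have hc : Continuous fun a => ((thickenedIndicator (hpos n) F a : ℝ≥0) : ℝ) :=
    NNReal.continuous_coe.comp (thickenedIndicator (hpos n) F).continuous
  have h1 : (fun z => ∫⁻ a, (thickenedIndicator (hpos n) F a : ℝ≥0∞) ∂(κ z : Measure X)) =
      fun z => ENNReal.ofReal (∫ a, ((thickenedIndicator (hpos n) F a : ℝ≥0) : ℝ)
        ∂(κ z : Measure X)) := by
    funext z
    rw [ofReal_integral_eq_lintegral_ofReal (integrable_of_cont hc (κ z))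
      (Eventually.of_forall fun a => NNReal.coe_nonneg _)]
    simp only [ENNReal.ofReal_coe_nnreal]
  rw [h1]
  exact (h _ hc).ennreal_ofReal

theorem measurable_of_cont_kern {κ : X → ProbabilityMeasure X} (hκ : Continuous κ) :
    Measurable fun z => (κ z : Measure X) :=
  measurable_of_forall_cont fun _ hf => ((cont_int hf).comp hκ).measurable

/-- The value after `j` steps of the strategies `κ (j-1), ..., κ 0`. -/
noncomputable def V (κ : ℕ → X → ProbabilityMeasure X) : ℕ → (X → ℝ) → X → ℝ
  | 0, f, x => f x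
  | j + 1, f, x => ∫ a, V κ j f a ∂(κ j x : Measure X)

variable {Γ : X → Set (ProbabilityMeasure X)} {κ : ℕ → X → ProbabilityMeasure X}

theorem V_cont (hκ : ∀ j, Continuous (κ j)) {f : X → ℝ} (hf : Continuous f) (j : ℕ) :
    Continuous (V κ j f) := by
  induction j with
  | zero => exact hf
  | succ j ih => exact (cont_int ih).comp (hκ j)

/-- The law after `j` steps. -/
theorem V_law (hκ : ∀ j, Continuous (κ j)) (j : ℕ) :
    ∃ P : X → ProbabilityMeasure X, Continuous P ∧
      ∀ f : X → ℝ, Continuous f → ∀ x, ∫ a, f a ∂(P x : Measure X) = V κ j f x := by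
  induction j with
  | zero =>
    refine ⟨diracProba, continuous_diracProba, fun f _ x => int_dirac x⟩
  | succ j ih =>
    obtain ⟨P, hPc, hP⟩ := ih
    let η : Kernel X X := ⟨fun z => (P z : Measure X), measurable_of_cont_kern hPc⟩
    have : IsMarkovKernel η := ⟨fun z => (P z).2⟩
    let ζ : Kernel X X := ⟨fun z => (κ j z : Measure X), measurable_of_cont_kern (hκ j)⟩
    have : IsMarkovKernel ζ := ⟨fun z => (κ j z).2⟩
    have hint : ∀ f : X → ℝ, Continuous f → ∀ x, ∫ a, f a ∂((η ∘ₖ ζ) x) = V κ (j + 1) f x := by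
      intro f hf x
      rw [Kernel.integral_comp]
      · exact integral_congr_ae (Eventually.of_forall fun a => hP f hf a)
      · exact hf.integrable_of_hasCompactSupport (HasCompactSupport.of_compactSpace f)
    let P' : X → ProbabilityMeasure X := fun x => ⟨(η ∘ₖ ζ) x, inferInstance⟩
    refine ⟨P', ?_, ?_⟩
    · refine ProbabilityMeasure.continuous_iff_forall_continuous_integral.2 fun f => ?_
      have := V_cont hκ (map_continuous f) (j + 1)
      refine this.congr fun x => ?_
      exact (hint f (map_continuous f) x).symm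
    · intro f hf x
      exact hint f hf x

theorem V_mono (hκ : ∀ j, Continuous (κ j)) {f g : X → ℝ} (hf : Continuous f) (hg : Continuous g)
    (h : ∀ x, f x ≤ g x) (j : ℕ) (x : X) : V κ j f x ≤ V κ j g x := by
  obtain ⟨P, _, hP⟩ := V_law hκ j
  rw [← hP f hf x, ← hP g hg x]
  exact int_mono hf hg h _

theorem V_const (c : ℝ) (j : ℕ) (x : X) : V κ j (fun _ => c) x = c := by
  induction j generalizing x with
  | zero => rfl
  | succ j ih =>
    show ∫ a, V κ j (fun _ => c) a ∂(κ j x : Measure X) = c
    simp [ih]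

theorem V_lin (hκ : ∀ j, Continuous (κ j)) {f g : X → ℝ} (hf : Continuous f) (hg : Continuous g)
    (a b : ℝ) (j : ℕ) (x : X) :
    V κ j (fun x => a * f x + b * g x) x = a * V κ j f x + b * V κ j g x := by
  obtain ⟨P, _, hP⟩ := V_law hκ j
  have hc : Continuous fun x => a * f x + b * g x := by fun_prop
  rw [← hP _ hc x, ← hP f hf x, ← hP g hg x,
    integral_add ((integrable_of_cont hf _).const_mul a) ((integrable_of_cont hg _).const_mul b),
    integral_const_mul, integral_const_mul]

theorem V_le_of_exc (hκ : ∀ j, Continuous (κ j)) (hmem : ∀ j x, κ j x ∈ Γ x) {f : X → ℝ}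
    (hf : Exc Γ f) (j : ℕ) (x : X) : V κ j f x ≤ f x := by
  obtain ⟨⟨K, hK⟩, h2⟩ := hf
  induction j generalizing x with
  | zero => exact le_refl _
  | succ j ih =>
    show ∫ a, V κ j f a ∂(κ j x : Measure X) ≤ f x
    exact (int_mono (V_cont hκ hK.continuous j) hK.continuous ih _).trans (h2 x _ (hmem j x))

theorem V_approx (hΓ : IsHouse Γ) (hκ : ∀ j, Continuous (κ j)) {K : ℝ≥0} {g : X → ℝ}
    (hg : LipschitzWith K g) {δ : ℝ}
    (h : ∀ j x, (Lop Γ)^[j + 1] g x - δ ≤ ∫ a, (Lop Γ)^[j] g a ∂(κ j x : Measure X))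
    (j : ℕ) (x : X) : (Lop Γ)^[j] g x - j * δ ≤ V κ j g x := by
  induction j generalizing x with
  | zero => simp [V]
  | succ j ih =>
    show _ ≤ ∫ a, V κ j g a ∂(κ j x : Measure X)
    have hc := (iter_lip hΓ hg j).continuous
    have hc' : Continuous fun a => (Lop Γ)^[j] g a - j * δ := by fun_prop
    have h1 := int_mono hc' (V_cont hκ hg.continuous j) ih (κ j x)
    have h2 : ∫ a, ((Lop Γ)^[j] g a - j * δ) ∂(κ j x : Measure X) =
        ∫ a, (Lop Γ)^[j] g a ∂(κ j x : Measure X) - j * δ := by
      rw [integral_sub (integrable_of_cont hc _) (integrable_const _)]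
      simp
    have h3 := h j x
    push_cast
    linarith

end Pool.Agent.R86.GG
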