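import Pool.Agent.R86.GG.Defs

/-! Facts on the one step operator `Lop` and the least excessive majorant `hull`. -/

open MeasureTheory ProbabilityTheory Set Filter Topology
open scoped NNReal

namespace Pool.Agent.R86.GG

variable {X : Type} [MetricSpace X] [CompactSpace X] [MeasurableSpace X] [BorelSpace X]

/-- Evaluation at a continuous function is continuous. -/
theorem cont_int {g : X → ℝ} (hg : Continuous g) :
    Continuous (fun p : ProbabilityMeasure X => ∫ z, g z ∂(p : Measure X)) :=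
  ProbabilityMeasure.continuous_integral_continuousMap (⟨g, hg⟩ : C(X, ℝ))

/-- Continuous functions are integrable. -/
theorem integrable_of_cont {g : X → ℝ} (hg : Continuous g) (p : ProbabilityMeasure X) :
    Integrable g (p : Measure X) :=
  hg.integrable_of_hasCompactSupport (HasCompactSupport.of_compactSpace g)

theorem exists_bound {g : X → ℝ} (hg : Continuous g) : ∃ C, 0 ≤ C ∧ ∀ x, |g x| ≤ C := by
  obtain ⟨C, hC⟩ := (isCompact_range hg).isBounded.exists_norm_le
  refine ⟨max C 0, le_max_right _ _, fun x => ?_⟩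
  have := hC (g x) (mem_range_self x)
  rw [Real.norm_eq_abs] at this
  exact this.trans (le_max_left _ _)

theorem int_le_of_le {g : X → ℝ} (hg : Continuous g) {C : ℝ} (h : ∀ x, g x ≤ C)
    (p : ProbabilityMeasure X) : ∫ z, g z ∂(p : Measure X) ≤ C := by
  have := integral_mono (integrable_of_cont hg p) (integrable_const C) h
  simpa using this

theorem le_int_of_le {g : X → ℝ} (hg : Continuous g) {C : ℝ} (h : ∀ x, C ≤ g x)
    (p : ProbabilityMeasure X) : C ≤ ∫ z, g z ∂(p : Measure X) := by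
  have := integral_mono (integrable_const C) (integrable_of_cont hg p) h
  simpa using this

theorem int_mono {g g' : X → ℝ} (hg : Continuous g) (hg' : Continuous g') (h : ∀ x, g x ≤ g' x)
    (p : ProbabilityMeasure X) : ∫ z, g z ∂(p : Measure X) ≤ ∫ z, g' z ∂(p : Measure X) :=
  integral_mono (integrable_of_cont hg p) (integrable_of_cont hg' p) h

theorem int_dirac {g : X → ℝ} (x : X) :
    ∫ z, g z ∂(diracProba x : Measure X) = g x := by
  show ∫ z, g z ∂(Measure.dirac x) = g x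
  exact integral_dirac g x

/-- Non-expansiveness for `K`-Lipschitz functions. -/
theorem IsHouse.nonexp {Γ : X → Set (ProbabilityMeasure X)} (hΓ : IsHouse Γ) {x x' : X}
    {p : ProbabilityMeasure X} (hp : p ∈ Γ x) :
    ∃ p' ∈ Γ x', ∀ (K : ℝ≥0) (f : X → ℝ), LipschitzWith K f →
      |∫ z, f z ∂(p : Measure X) - ∫ z, f z ∂(p' : Measure X)| ≤ K * dist x x' := by
  obtain ⟨p', hp', h⟩ := hΓ.nonexpansive x x' p hp
  refine ⟨p', hp', fun K f hf => ?_⟩
  rcases eq_or_ne K 0 with hK | hK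
  · -- `f` is constant
    subst hK
    have hc : ∀ z, f z = f x := by
      intro z
      have := hf.dist_le_mul z x
      simp only [NNReal.coe_zero, zero_mul] at this
      exact dist_le_zero.1 this
    have h1 : ∀ q : ProbabilityMeasure X, ∫ z, f z ∂(q : Measure X) = f x := by
      intro q
      rw [show f = fun _ => f x from funext hc]
      simp
    rw [h1, h1]
    simp
  · have hKr : (0 : ℝ) < K := by
      have := pos_iff_ne_zero.2 hK
      exact_mod_cast this
    have h1 : LipschitzWith 1 (fun z => (K : ℝ)⁻¹ * f z) := by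
      refine LipschitzWith.of_dist_le_mul fun a b => ?_
      have := hf.dist_le_mul a b
      rw [Real.dist_eq] at this ⊢
      rw [← mul_sub, abs_mul, abs_of_pos (inv_pos.2 hKr)]
      rw [inv_mul_le_iff₀ hKr]
      simpa using this
    have h2 := h _ h1
    rw [integral_const_mul, integral_const_mul, ← mul_sub, abs_mul, abs_of_pos (inv_pos.2 hKr),
      inv_mul_le_iff₀ hKr] at h2
    exact h2

variable {Γ : X → Set (ProbabilityMeasure X)}

theorem Lop_bddAbove {g : X → ℝ} (hg : Continuous g) (x : X) :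
    BddAbove ((fun p : ProbabilityMeasure X => ∫ z, g z ∂(p : Measure X)) '' Γ x) := by
  obtain ⟨C, _, hC⟩ := exists_bound hg
  refine ⟨C, ?_⟩
  rintro _ ⟨p, _, rfl⟩
  exact int_le_of_le hg (fun z => (abs_le.1 (hC z)).2) p

theorem int_le_Lop {g : X → ℝ} (hg : Continuous g) {x : X} {p : ProbabilityMeasure X}
    (hp : p ∈ Γ x) : ∫ z, g z ∂(p : Measure X) ≤ Lop Γ g x :=
  le_csSup (Lop_bddAbove hg x) ⟨p, hp, rfl⟩

theorem Lop_attained (hΓ : IsHouse Γ) {g : X → ℝ} (hg : Continuous g) (x : X) :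
    ∃ p ∈ Γ x, ∫ z, g z ∂(p : Measure X) = Lop Γ g x := by
  have hne : (Γ x).Nonempty := ⟨_, hΓ.leavable x⟩
  obtain ⟨p, hp, hmax⟩ := (hΓ.compact x).exists_isMaxOn hne (cont_int hg).continuousOn
  refine ⟨p, hp, le_antisymm (int_le_Lop hg hp) ?_⟩
  refine csSup_le (hne.image _) ?_
  rintro _ ⟨q, hq, rfl⟩
  exact hmax hq

theorem Lop_le_of {g : X → ℝ} (hΓ : IsHouse Γ) {x : X} {c : ℝ}
    (h : ∀ p ∈ Γ x, ∫ z, g z ∂(p : Measure X) ≤ c) : Lop Γ g x ≤ c := by
  have hne : (Γ x).Nonempty := ⟨_, hΓ.leavable x⟩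
  refine csSup_le (hne.image _) ?_
  rintro _ ⟨q, hq, rfl⟩
  exact h q hq

theorem le_Lop (hΓ : IsHouse Γ) {g : X → ℝ} (hg : Continuous g) (x : X) : g x ≤ Lop Γ g x := by
  have := int_le_Lop (Γ := Γ) hg (hΓ.leavable x)
  rwa [int_dirac] at this

theorem Lop_mono (hΓ : IsHouse Γ) {g g' : X → ℝ} (hg : Continuous g) (hg' : Continuous g')
    (h : ∀ x, g x ≤ g' x) (x : X) : Lop Γ g x ≤ Lop Γ g' x :=
  Lop_le_of hΓ fun p hp => (int_mono hg hg' h p).trans (int_le_Lop hg' hp)

theorem Lop_lip (hΓ : IsHouse Γ) {K : ℝ≥0} {g : X → ℝ} (hg : LipschitzWith K g) :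
    LipschitzWith K (Lop Γ g) := by
  have key : ∀ x x', Lop Γ g x ≤ Lop Γ g x' + K * dist x x' := by
    intro x x'
    refine Lop_le_of hΓ fun p hp => ?_
    obtain ⟨p', hp', h⟩ := hΓ.nonexp (x' := x') hp
    have h1 := h K g hg
    have h2 := int_le_Lop hg.continuous hp'
    have h3 := (abs_le.1 h1).2
    linarith
  refine LipschitzWith.of_dist_le_mul fun x x' => ?_
  rw [Real.dist_eq, abs_le]
  constructor
  · have := key x' x
    rw [dist_comm x' x] at this
    linarith
  · have := key x x'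
    linarith

theorem Lop_bound (hΓ : IsHouse Γ) {g : X → ℝ} (hg : Continuous g) {C : ℝ}
    (h : ∀ x, |g x| ≤ C) (x : X) : |Lop Γ g x| ≤ C := by
  rw [abs_le]
  constructor
  · exact (abs_le.1 (h x)).1.trans (le_Lop hΓ hg x)
  · exact Lop_le_of hΓ fun p _ => int_le_of_le hg (fun z => (abs_le.1 (h z)).2) p

theorem iter_lip (hΓ : IsHouse Γ) {K : ℝ≥0} {g : X → ℝ} (hg : LipschitzWith K g) (N : ℕ) :
    LipschitzWith K ((Lop Γ)^[N] g) := by
  induction N with
  | zero => simpa using hg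
  | succ N ih =>
    rw [Function.iterate_succ_apply']
    exact Lop_lip hΓ ih

theorem iter_bound (hΓ : IsHouse Γ) {K : ℝ≥0} {g : X → ℝ} (hg : LipschitzWith K g) {C : ℝ}
    (h : ∀ x, |g x| ≤ C) (N : ℕ) (x : X) : |(Lop Γ)^[N] g x| ≤ C := by
  induction N generalizing x with
  | zero => simpa using h x
  | succ N ih =>
    rw [Function.iterate_succ_apply']
    exact Lop_bound hΓ (iter_lip hΓ hg N).continuous ih x

theorem iter_succ_le (hΓ : IsHouse Γ) {K : ℝ≥0} {g : X → ℝ} (hg : LipschitzWith K g) (N : ℕ)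
    (x : X) : (Lop Γ)^[N] g x ≤ (Lop Γ)^[N + 1] g x := by
  rw [Function.iterate_succ_apply']
  exact le_Lop hΓ (iter_lip hΓ hg N).continuous x

theorem iter_mono (hΓ : IsHouse Γ) {K : ℝ≥0} {g : X → ℝ} (hg : LipschitzWith K g) (x : X) :
    Monotone (fun N => (Lop Γ)^[N] g x) :=
  monotone_nat_of_le_succ fun N => iter_succ_le hΓ hg N x

theorem iter_bddAbove (hΓ : IsHouse Γ) {K : ℝ≥0} {g : X → ℝ} (hg : LipschitzWith K g) (x : X) :
    BddAbove (range fun N => (Lop Γ)^[N] g x) := by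
  obtain ⟨C, _, hC⟩ := exists_bound hg.continuous
  refine ⟨C, ?_⟩
  rintro _ ⟨N, rfl⟩
  exact (abs_le.1 (iter_bound hΓ hg hC N x)).2

theorem iter_le_hull (hΓ : IsHouse Γ) {K : ℝ≥0} {g : X → ℝ} (hg : LipschitzWith K g) (N : ℕ)
    (x : X) : (Lop Γ)^[N] g x ≤ hull Γ g x :=
  le_ciSup (iter_bddAbove hΓ hg x) N

theorem le_hull (hΓ : IsHouse Γ) {K : ℝ≥0} {g : X → ℝ} (hg : LipschitzWith K g)
    (x : X) : g x ≤ hull Γ g x := iter_le_hull hΓ hg 0 x

theorem tendsto_hull (hΓ : IsHouse Γ) {K : ℝ≥0} {g : X → ℝ} (hg : LipschitzWith K g) (x : X) :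
    Tendsto (fun N => (Lop Γ)^[N] g x) atTop (𝓝 (hull Γ g x)) :=
  tendsto_atTop_ciSup (iter_mono hΓ hg x) (iter_bddAbove hΓ hg x)

theorem hull_lip (hΓ : IsHouse Γ) {K : ℝ≥0} {g : X → ℝ} (hg : LipschitzWith K g) :
    LipschitzWith K (hull Γ g) := by
  refine LipschitzWith.of_dist_le_mul fun x x' => ?_
  have h1 := (tendsto_hull hΓ hg x).dist (tendsto_hull hΓ hg x')
  exact le_of_tendsto h1 (Eventually.of_forall fun N => (iter_lip hΓ hg N).dist_le_mul x x')

theorem hull_exc (hΓ : IsHouse Γ) {K : ℝ≥0} {g : X → ℝ} (hg : LipschitzWith K g) :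
    Exc Γ (hull Γ g) := by
  refine ⟨⟨K, hull_lip hΓ hg⟩, fun x p hp => ?_⟩
  obtain ⟨C, _, hC⟩ := exists_bound hg.continuous
  have h1 : Tendsto (fun N => ∫ z, (Lop Γ)^[N] g z ∂(p : Measure X)) atTop
      (𝓝 (∫ z, hull Γ g z ∂(p : Measure X))) := by
    refine tendsto_integral_of_dominated_convergence (fun _ => C)
      (fun N => (iter_lip hΓ hg N).continuous.aestronglyMeasurable) (integrable_const C)
      (fun N => Eventually.of_forall fun z => ?_) (Eventually.of_forall fun z => tendsto_hull hΓ hg z)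
    rw [Real.norm_eq_abs]
    exact iter_bound hΓ hg hC N z
  refine le_of_tendsto h1 (Eventually.of_forall fun N => ?_)
  have h2 := int_le_Lop (Γ := Γ) (iter_lip hΓ hg N).continuous hp
  rw [← Function.iterate_succ_apply' (Lop Γ) N g] at h2
  exact h2.trans (iter_le_hull hΓ hg (N + 1) x)

/-- `hull Γ g` is the least excessive majorant, also among bounded measurable functions. -/
theorem hull_le_of (hΓ : IsHouse Γ) {K : ℝ≥0} {g : X → ℝ} (hg : LipschitzWith K g) {f : X → ℝ}
    (hfm : Measurable f) {C : ℝ} (hfb : ∀ x, |f x| ≤ C)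
    (hf : ∀ x, ∀ p ∈ Γ x, ∫ z, f z ∂(p : Measure X) ≤ f x) (hgf : ∀ x, g x ≤ f x) (x : X) :
    hull Γ g x ≤ f x := by
  have hint : ∀ p : ProbabilityMeasure X, Integrable f (p : Measure X) := fun p =>
    Integrable.of_bound hfm.aestronglyMeasurable C
      (Eventually.of_forall fun z => by rw [Real.norm_eq_abs]; exact hfb z)
  have h1 : ∀ N x, (Lop Γ)^[N] g x ≤ f x := by
    intro N
    induction N with
    | zero => exact fun x => by simpa using hgf x
    | succ N ih =>
      intro x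
      rw [Function.iterate_succ_apply']
      refine Lop_le_of hΓ fun p hp => ?_
      exact (integral_mono (integrable_of_cont (iter_lip hΓ hg N).continuous p) (hint p) ih).trans
        (hf x p hp)
  exact ciSup_le fun N => h1 N x

/-- Dini: uniform approximation. -/
theorem hull_dini (hΓ : IsHouse Γ) {K : ℝ≥0} {g : X → ℝ} (hg : LipschitzWith K g) {δ : ℝ}
    (hδ : 0 < δ) : ∃ N, ∀ x, hull Γ g x - δ ≤ (Lop Γ)^[N] g x := by
  have h1 : TendstoUniformly (fun N x => (Lop Γ)^[N] g x) (hull Γ g) atTop := by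
    have := Monotone.tendstoUniformly_of_forall_tendsto (F := fun N x => (Lop Γ)^[N] g x)
      (f := hull Γ g) (fun N => (iter_lip hΓ hg N).continuous) ?_ (hull_lip hΓ hg).continuous
      (fun x => tendsto_hull hΓ hg x)
    · exact this
    · intro n m h x
      exact iter_mono hΓ hg x h
  rw [Metric.tendstoUniformly_iff] at h1
  obtain ⟨N, hN⟩ := (h1 δ hδ).exists
  refine ⟨N, fun x => ?_⟩
  have := hN x
  rw [Real.dist_eq] at this
  have := (abs_lt.1 this).2
  linarith

theorem hull_dini' (hΓ : IsHouse Γ) {K : ℝ≥0} {g : X → ℝ} (hg : LipschitzWith K g) {δ : ℝ}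
    (hδ : 0 < δ) : ∃ N0, ∀ N ≥ N0, ∀ x, hull Γ g x - δ ≤ (Lop Γ)^[N] g x := by
  obtain ⟨N0, h⟩ := hull_dini hΓ hg hδ
  exact ⟨N0, fun N hN x => (h x).trans (iter_mono hΓ hg x hN)⟩

theorem Exc.add {f g : X → ℝ} (hf : Exc Γ f) (hg : Exc Γ g) : Exc Γ (fun x => f x + g x) := by
  obtain ⟨⟨K, hK⟩, h1⟩ := hf
  obtain ⟨⟨K', hK'⟩, h2⟩ := hg
  refine ⟨⟨K + K', hK.add hK'⟩, fun x p hp => ?_⟩
  rw [integral_add (integrable_of_cont hK.continuous p) (integrable_of_cont hK'.continuous p)]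
  exact add_le_add (h1 x p hp) (h2 x p hp)

theorem Exc.const (c : ℝ) : Exc Γ (fun _ => c) :=
  ⟨⟨0, LipschitzWith.const c⟩, fun x p _ => by simp⟩

theorem mem_Rset_of_mem {x : X} {p : ProbabilityMeasure X} (hp : p ∈ Γ x) : p ∈ Rset Γ x :=
  fun f hf => hf.2 x p hp

end Pool.Agent.R86.GG
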