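import Pool.Agent.R86.GG.Stmts
import Pool.Agent.R86.GG.OpA

/-! Part S: separation of a point from a closed convex set of measures by a Lipschitz
function. -/

open MeasureTheory ProbabilityTheory Set Filter Topology
open scoped NNReal ENNReal

namespace Pool.Agent.R86.GG

/-- Lipschitz functions determine probability measures. -/
theorem pm_ext_lip {X : Type} [MetricSpace X] [CompactSpace X] [MeasurableSpace X] [BorelSpace X]
    {p q : ProbabilityMeasure X}
    (h : ∀ (K : ℝ≥0) (f : X → ℝ), LipschitzWith K f →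
      ∫ z, f z ∂(p : Measure X) = ∫ z, f z ∂(q : Measure X)) : p = q := by
  have hcl : ∀ F : Set X, IsClosed F → (p : Measure X) F = (q : Measure X) F := by
    intro F hF
    have hpos : ∀ n : ℕ, (0:ℝ) < 1 / ((n : ℝ) + 1) := fun n => Nat.one_div_pos_of_nat
    have hlim : Tendsto (fun n : ℕ => 1 / ((n : ℝ) + 1)) atTop (𝓝 0) :=
      tendsto_one_div_add_atTop_nhds_zero_nat
    have hl : ∀ r : ProbabilityMeasure X, Tendsto
        (fun n => ∫⁻ a, (thickenedIndicator (hpos n) F a : ℝ≥0∞) ∂(r : Measure X)) atTop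
        (𝓝 ((r : Measure X) F)) :=
      fun r => tendsto_lintegral_thickenedIndicator_of_isClosed _ hF hpos hlim
    have heq : ∀ n, ∫⁻ a, (thickenedIndicator (hpos n) F a : ℝ≥0∞) ∂(p : Measure X) =
        ∫⁻ a, (thickenedIndicator (hpos n) F a : ℝ≥0∞) ∂(q : Measure X) := by
      intro n
      have hc : LipschitzWith (Real.toNNReal (1 / ((n : ℝ) + 1)))⁻¹
          (fun a => ((thickenedIndicator (hpos n) F a : ℝ≥0) : ℝ)) := by
        exact lipschitzWith_thickenedIndicator (hpos n) F
      have h1 : ∀ r : ProbabilityMeasure X,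
          ∫⁻ a, (thickenedIndicator (hpos n) F a : ℝ≥0∞) ∂(r : Measure X) =
          ENNReal.ofReal (∫ a, ((thickenedIndicator (hpos n) F a : ℝ≥0) : ℝ)
            ∂(r : Measure X)) := by
        intro r
        rw [ofReal_integral_eq_lintegral_ofReal (integrable_of_cont hc.continuous r)
          (Eventually.of_forall fun a => NNReal.coe_nonneg _)]
        simp only [ENNReal.ofReal_coe_nnreal]
      rw [h1, h1, h _ _ hc]
    exact tendsto_nhds_unique ((hl p).congr heq) (hl q)
  apply Subtype.ext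
  show (p : Measure X) = (q : Measure X)
  refine ext_of_generate_finite {s | IsClosed s}
    (by rw [BorelSpace.measurable_eq (α := X), borel_eq_generateFrom_isClosed])
    isPiSystem_isClosed (fun s hs => hcl s hs) (hcl _ isClosed_univ)

/-- The mixture of two probability measures. -/
noncomputable def mix {X : Type} [MeasurableSpace X] (a : ℝ) (ha : a ∈ Icc (0 : ℝ) 1)
    (p q : ProbabilityMeasure X) : ProbabilityMeasure X :=
  ⟨ENNReal.ofReal a • (p : Measure X) + ENNReal.ofReal (1 - a) • (q : Measure X), by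
    constructor
    simp only [Measure.coe_add, Measure.coe_smul, Pi.add_apply, Pi.smul_apply, measure_univ,
      smul_eq_mul, mul_one]
    rw [← ENNReal.ofReal_add ha.1 (by linarith [ha.2])]
    simp⟩

theorem isMix_mix {X : Type} [MetricSpace X] [MeasurableSpace X] [BorelSpace X] (a : ℝ)
    (ha : a ∈ Icc (0 : ℝ) 1) (p q : ProbabilityMeasure X) : IsMix a p q (mix a ha p q) := rfl

theorem int_mix {X : Type} [MetricSpace X] [CompactSpace X] [MeasurableSpace X] [BorelSpace X]
    {a : ℝ} (ha : a ∈ Icc (0 : ℝ) 1) {p q r : ProbabilityMeasure X} (hr : IsMix a p q r)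
    {f : X → ℝ} (hf : Continuous f) :
    ∫ z, f z ∂(r : Measure X) =
      a * ∫ z, f z ∂(p : Measure X) + (1 - a) * ∫ z, f z ∂(q : Measure X) := by
  have h1 : (0 : ℝ) ≤ 1 - a := by linarith [ha.2]
  unfold IsMix at hr
  rw [hr, integral_add_measure ((integrable_of_cont hf p).smul_measure ENNReal.ofReal_ne_top)
    ((integrable_of_cont hf q).smul_measure ENNReal.ofReal_ne_top),
    integral_smul_measure, integral_smul_measure, ENNReal.toReal_ofReal ha.1,
    ENNReal.toReal_ofReal h1]
  simp

theorem partS : PartS := by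
  intro X _ _ _ _ S hS hconv p hp
  classical
  -- the family of Lipschitz functions
  let ι := {f : X → ℝ // ∃ K, LipschitzWith K f}
  have hcont : ∀ f : ι, Continuous f.1 := fun f => by
    obtain ⟨K, hK⟩ := f.2
    exact hK.continuous
  have hopen : ∀ f : ι, IsOpen {r : ProbabilityMeasure X |
      ∫ z, f.1 z ∂(r : Measure X) ≠ ∫ z, f.1 z ∂(p : Measure X)} := fun f =>
    isOpen_ne_fun (cont_int (hcont f)) continuous_const
  have hcov : S ⊆ ⋃ f : ι, {r : ProbabilityMeasure X |
      ∫ z, f.1 z ∂(r : Measure X) ≠ ∫ z, f.1 z ∂(p : Measure X)} := by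
    intro q hq
    by_contra hcon
    have : q = p := by
      refine pm_ext_lip fun K f hf => ?_
      by_contra h2
      exact hcon (mem_iUnion.2 ⟨⟨f, K, hf⟩, h2⟩)
    exact hp (this ▸ hq)
  obtain ⟨t, ht⟩ := hS.isCompact.elim_finite_subcover _ hopen hcov
  let Φ : ProbabilityMeasure X → (t → ℝ) := fun r f => ∫ z, f.1.1 z ∂(r : Measure X)
  have hΦ : Continuous Φ := continuous_pi fun f => cont_int (hcont f.1)
  have hcomp : IsCompact (Φ '' S) := hS.isCompact.image hΦ
  have hcv : Convex ℝ (Φ '' S) := by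
    rintro _ ⟨q1, hq1, rfl⟩ _ ⟨q2, hq2, rfl⟩ a b ha hb hab
    have ha' : a ∈ Icc (0 : ℝ) 1 := ⟨ha, by linarith⟩
    refine ⟨mix a ha' q1 q2, hconv q1 hq1 q2 hq2 a ha' _ (isMix_mix a ha' q1 q2), ?_⟩
    funext f
    show ∫ z, f.1.1 z ∂(mix a ha' q1 q2 : Measure X) = _
    rw [int_mix ha' (isMix_mix a ha' q1 q2) (hcont f.1)]
    have : b = 1 - a := by linarith
    subst this
    rfl
  have hnot : Φ p ∉ Φ '' S := by
    rintro ⟨q, hq, he⟩
    obtain ⟨f, hft, hf⟩ := mem_iUnion₂.1 (ht hq)
    exact hf (congrFun he ⟨f, hft⟩)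
  obtain ⟨L, c, hL1, hL2⟩ := geometric_hahn_banach_closed_point hcv hcomp.isClosed hnot
  let g : X → ℝ := fun z => ∑ f : t, L (Pi.single f 1) * f.1.1 z
  have hgint : ∀ r : ProbabilityMeasure X, ∫ z, g z ∂(r : Measure X) = L (Φ r) := by
    intro r
    show ∫ z, ∑ f : t, L (Pi.single f 1) * f.1.1 z ∂(r : Measure X) = _
    rw [integral_finsetSum _ fun f _ => (integrable_of_cont (hcont f.1) r).const_mul _]
    have h1 : Φ r = ∑ f : t, Φ r f • (Pi.single f (1:ℝ) : t → ℝ) := by
      rw [← pi_eq_sum_univ' (Φ r)]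
    rw [h1, map_sum]
    refine Finset.sum_congr rfl fun f _ => ?_
    rw [integral_const_mul, map_smul, smul_eq_mul, mul_comm]
  have hglip : ∃ K, LipschitzWith K g := by
    have : ∀ s : Finset t, ∃ K, LipschitzWith K fun z => ∑ f ∈ s, L (Pi.single f 1) * f.1.1 z := by
      intro s
      induction s using Finset.induction_on with
      | empty => exact ⟨0, by simp⟩
      | insert f s hfs ih =>
        obtain ⟨K, hK⟩ := ih
        obtain ⟨K', hK'⟩ := f.1.2
        have h2 : LipschitzWith (‖L (Pi.single f 1)‖₊ * K') fun z =>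
            L (Pi.single f 1) * f.1.1 z := by
          refine LipschitzWith.of_dist_le_mul fun a b => ?_
          rw [Real.dist_eq, ← mul_sub, abs_mul]
          have h3 := hK'.dist_le_mul a b
          rw [Real.dist_eq] at h3
          have h4 : (‖L (Pi.single f 1)‖₊ : ℝ) = |L (Pi.single f 1)| := by
            simp
          rw [NNReal.coe_mul, h4, mul_assoc]
          exact mul_le_mul_of_nonneg_left h3 (abs_nonneg _)
        refine ⟨‖L (Pi.single f 1)‖₊ * K' + K, ?_⟩
        simp only [Finset.sum_insert hfs]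
        exact h2.add hK
    exact this Finset.univ
  obtain ⟨K, hK⟩ := hglip
  refine ⟨K, g, c, hK, fun q hq => ?_, ?_⟩
  · rw [hgint]
    exact (hL1 _ ⟨q, hq, rfl⟩).le
  · rw [hgint]
    exact hL2

end Pool.Agent.R86.GG
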