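import Pool.Agent.R86.GG.Stmts
import Pool.Agent.R86.GG.OpA
import Pool.Agent.R86.GG.PartS

/-! Part B: uniform strict decrease of an excessive function on a closed set of reachable
non-trivial pairs. -/

open MeasureTheory ProbabilityTheory Set Filter Topology
open scoped NNReal ENNReal

namespace Pool.Agent.R86.GG

variable {X : Type} [MetricSpace X] [CompactSpace X] [MeasurableSpace X] [BorelSpace X]
  {Γ : X → Set (ProbabilityMeasure X)}

/-! ### B1 : convexity -/

theorem continuous_mix (a : ℝ) (ha : a ∈ Icc (0 : ℝ) 1) :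
    Continuous fun m : ProbabilityMeasure X × ProbabilityMeasure X => mix a ha m.1 m.2 := by
  refine ProbabilityMeasure.continuous_iff_forall_continuous_integral.2 fun f => ?_
  have hf : Continuous f := map_continuous f
  have h1 : Continuous fun m : ProbabilityMeasure X × ProbabilityMeasure X =>
      a * ∫ z, f z ∂(m.1 : Measure X) + (1 - a) * ∫ z, f z ∂(m.2 : Measure X) :=
    (((cont_int hf).comp continuous_fst).const_mul a |>.add
      (((cont_int hf).comp continuous_snd).const_mul (1 - a)))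
  refine h1.congr fun m => ?_
  exact (int_mix ha (isMix_mix a ha m.1 m.2) hf).symm

/-- Convex combinations indexed by a finite type. -/
theorem mem_combos {ι : Type} [Fintype ι] (a : ι → ℝ) (x : ι → X)
    (p : ι → ProbabilityMeasure X) (ha : ∀ i, 0 ≤ a i) (hs : ∑ i, a i = 1)
    (hp : ∀ i, p i ∈ Γ (x i)) (m : ProbabilityMeasure X × ProbabilityMeasure X)
    (h1 : (m.1 : Measure X) = ∑ i, ENNReal.ofReal (a i) • Measure.dirac (x i))
    (h2 : (m.2 : Measure X) = ∑ i, ENNReal.ofReal (a i) • (p i : Measure X)) :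
    m ∈ combos Γ := by
  classical
  let e := (Fintype.equivFin ι).symm
  refine ⟨Fintype.card ι, a ∘ e, x ∘ e, p ∘ e, fun i => ha _, ?_, fun i => hp _, ?_, ?_⟩
  · rw [← hs]
    exact Equiv.sum_comp e a
  · rw [h1]
    exact (Equiv.sum_comp e fun i => ENNReal.ofReal (a i) • Measure.dirac (x i)).symm
  · rw [h2]
    exact (Equiv.sum_comp e fun i => ENNReal.ofReal (a i) • (p i : Measure X)).symm

theorem dirac_mem_combos {x : X} {p : ProbabilityMeasure X} (hp : p ∈ Γ x) :
    (diracProba x, p) ∈ combos Γ := by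
  refine mem_combos (ι := Unit) (fun _ => 1) (fun _ => x) (fun _ => p) (fun _ => zero_le_one)
    (by simp) (fun _ => hp) _ ?_ ?_
  · simp
    rfl
  · simp

theorem combos_convex {a : ℝ} (ha : a ∈ Icc (0 : ℝ) 1)
    {m m' : ProbabilityMeasure X × ProbabilityMeasure X} (hm : m ∈ combos Γ)
    (hm' : m' ∈ combos Γ) : (mix a ha m.1 m'.1, mix a ha m.2 m'.2) ∈ combos Γ := by
  obtain ⟨n, b, x, p, hb, hs, hp, h1, h2⟩ := hm
  obtain ⟨n', b', x', p', hb', hs', hp', h1', h2'⟩ := hm'
  have ha1 : (0 : ℝ) ≤ 1 - a := by linarith [ha.2]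
  refine mem_combos (ι := Fin n ⊕ Fin n') (Sum.elim (fun i => a * b i) fun i => (1 - a) * b' i)
    (Sum.elim x x') (Sum.elim p p') ?_ ?_ ?_ _ ?_ ?_
  · rintro (i | i)
    · exact mul_nonneg ha.1 (hb i)
    · exact mul_nonneg ha1 (hb' i)
  · simp only [Fintype.sum_sum_type, Sum.elim_inl, Sum.elim_inr, ← Finset.mul_sum, hs, hs']
    ring
  · rintro (i | i)
    · exact hp i
    · exact hp' i
  · show ENNReal.ofReal a • (m.1 : Measure X) + ENNReal.ofReal (1 - a) • (m'.1 : Measure X) = _
    rw [h1, h1']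
    simp only [Fintype.sum_sum_type, Sum.elim_inl, Sum.elim_inr, Finset.smul_sum, smul_smul,
      ENNReal.ofReal_mul ha.1, ENNReal.ofReal_mul ha1]
  · show ENNReal.ofReal a • (m.2 : Measure X) + ENNReal.ofReal (1 - a) • (m'.2 : Measure X) = _
    rw [h2, h2']
    simp only [Fintype.sum_sum_type, Sum.elim_inl, Sum.elim_inr, Finset.smul_sum, smul_smul,
      ENNReal.ofReal_mul ha.1, ENNReal.ofReal_mul ha1]

theorem ext_convex {a : ℝ} (ha : a ∈ Icc (0 : ℝ) 1)
    {m m' : ProbabilityMeasure X × ProbabilityMeasure X} (hm : m ∈ ext Γ)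
    (hm' : m' ∈ ext Γ) : (mix a ha m.1 m'.1, mix a ha m.2 m'.2) ∈ ext Γ := by
  have hc : Continuous (Function.uncurry fun (m m' : ProbabilityMeasure X × ProbabilityMeasure X) =>
      (mix a ha m.1 m'.1, mix a ha m.2 m'.2)) := by
    have h1 : Continuous fun z : (ProbabilityMeasure X × ProbabilityMeasure X) ×
        (ProbabilityMeasure X × ProbabilityMeasure X) => (z.1.1, z.2.1) := by fun_prop
    have h2 : Continuous fun z : (ProbabilityMeasure X × ProbabilityMeasure X) ×
        (ProbabilityMeasure X × ProbabilityMeasure X) => (z.1.2, z.2.2) := by fun_prop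
    exact ((continuous_mix a ha).comp h1).prodMk ((continuous_mix a ha).comp h2)
  exact map_mem_closure₂ (f := fun (m m' : ProbabilityMeasure X × ProbabilityMeasure X) =>
      (mix a ha m.1 m'.1, mix a ha m.2 m'.2)) hc hm hm'
    fun m hm m' hm' => combos_convex ha hm hm'

theorem iter_convex {a : ℝ} (ha : a ∈ Icc (0 : ℝ) 1) (n : ℕ) :
    ∀ {p p' r r' : ProbabilityMeasure X}, r ∈ iter Γ n p → r' ∈ iter Γ n p' →
      mix a ha r r' ∈ iter Γ n (mix a ha p p') := by
  induction n with
  | zero =>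
    intro p p' r r' h h'
    have h1 : r = p := h
    have h2 : r' = p' := h'
    rw [h1, h2]
    exact rfl
  | succ n ih =>
    rintro p p' r r' ⟨q, hq, hr⟩ ⟨q', hq', hr'⟩
    exact ⟨mix a ha q q', ext_convex ha hq hq', ih hr hr'⟩

theorem mix_self (a : ℝ) (ha : a ∈ Icc (0 : ℝ) 1) (p : ProbabilityMeasure X) :
    mix a ha p p = p := by
  apply Subtype.ext
  show ENNReal.ofReal a • (p : Measure X) + ENNReal.ofReal (1 - a) • (p : Measure X) =
    (p : Measure X)
  rw [← add_smul, ← ENNReal.ofReal_add ha.1 (by linarith [ha.2])]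
  simp

theorem iter_dirac_succ (x : X) (hx : diracProba x ∈ Γ x) (n : ℕ) :
    iter Γ n (diracProba x) ⊆ iter Γ (n + 1) (diracProba x) := fun _ hr =>
  ⟨diracProba x, subset_closure (dirac_mem_combos hx), hr⟩

theorem iter_dirac_mono (hΓ : IsHouse Γ) (x : X) :
    Monotone fun n => iter Γ n (diracProba x) :=
  monotone_nat_of_le_succ fun n => iter_dirac_succ x (hΓ.leavable x) n

theorem reach_convex (hΓ : IsHouse Γ) {a : ℝ} (ha : a ∈ Icc (0 : ℝ) 1) (x : X)
    {p q : ProbabilityMeasure X} (hp : p ∈ reach Γ x) (hq : q ∈ reach Γ x) :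
    mix a ha p q ∈ reach Γ x := by
  have hc : Continuous (Function.uncurry fun (p q : ProbabilityMeasure X) => mix a ha p q) :=
    continuous_mix a ha
  refine map_mem_closure₂ hc hp hq fun p hp q hq => ?_
  obtain ⟨n, hn⟩ := mem_iUnion.1 hp
  obtain ⟨m, hm⟩ := mem_iUnion.1 hq
  refine mem_iUnion.2 ⟨max n m, ?_⟩
  have := iter_convex (Γ := Γ) ha (max n m) (iter_dirac_mono hΓ x (le_max_left n m) hn)
    (iter_dirac_mono hΓ x (le_max_right n m) hm)
  rwa [mix_self] at this

/-! ### B2 : the one step operator is realised -/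

/-- Finitely supported measures are dense, and the one step operator is realised. -/
theorem ext_realise (hΓ : IsHouse Γ) {K : ℝ≥0} {g : X → ℝ} (hg : LipschitzWith K g)
    (μ : ProbabilityMeasure X) :
    ∃ ν, (μ, ν) ∈ ext Γ ∧ ∫ z, Lop Γ g z ∂(μ : Measure X) ≤ ∫ z, g z ∂(ν : Measure X) := by
  classical
  have hL := (Lop_lip hΓ hg).continuous
  let T : Set (ProbabilityMeasure X × ProbabilityMeasure X) :=
    ext Γ ∩ {m | ∫ z, Lop Γ g z ∂(m.1 : Measure X) ≤ ∫ z, g z ∂(m.2 : Measure X)}
  have hT : IsClosed T := by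
    refine isClosed_closure.inter ?_
    exact isClosed_le ((cont_int hL).comp continuous_fst)
      ((cont_int hg.continuous).comp continuous_snd)
  have hT' : IsClosed (Prod.fst '' T) := (hT.isCompact.image continuous_fst).isClosed
  suffices h : μ ∈ Prod.fst '' T by
    obtain ⟨⟨m, ν⟩, hm, rfl⟩ := h
    exact ⟨ν, hm.1, hm.2⟩
  -- X is nonempty
  have hne : Nonempty X := by
    by_contra hcon
    rw [not_nonempty_iff] at hcon
    have h1 : (μ : Measure X) univ = 1 := measure_univ
    rw [univ_eq_empty_iff.2 hcon] at h1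
    simp at h1
  obtain ⟨x0⟩ := hne
  let s : ℕ → SimpleFunc X X := fun n => SimpleFunc.approxOn id measurable_id univ x0 (mem_univ _) n
  have hs : ∀ x, Tendsto (fun n => s n x) atTop (𝓝 x) := fun x =>
    SimpleFunc.tendsto_approxOn measurable_id (mem_univ _) (by simp)
  let μn : ℕ → ProbabilityMeasure X := fun n => μ.map (s n).measurable.aemeasurable
  have hlim : Tendsto μn atTop (𝓝 μ) := by
    refine ProbabilityMeasure.tendsto_iff_forall_integral_tendsto.2 fun f => ?_
    have h1 : ∀ n, ∫ z, f z ∂(μn n : Measure X) = ∫ z, f (s n z) ∂(μ : Measure X) := by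
      intro n
      show ∫ z, f z ∂((μ : Measure X).map (s n)) = _
      rw [integral_map (s n).measurable.aemeasurable
        (map_continuous f).aestronglyMeasurable]
    simp only [h1]
    refine tendsto_integral_of_dominated_convergence (fun _ => ‖f‖) (fun n => ?_)
      (integrable_const _) (fun n => Eventually.of_forall fun z => f.norm_coe_le_norm _)
      (Eventually.of_forall fun z => ((map_continuous f).tendsto _).comp (hs z))
    exact ((map_continuous f).measurable.comp (s n).measurable).aestronglyMeasurable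
  refine hT'.mem_of_tendsto hlim (Eventually.of_forall fun n => ?_)
  -- finitely supported measures
  choose P hP hPmax using fun x => Lop_attained hΓ hg.continuous x
  let a : (s n).range → ℝ := fun y => ((μ : Measure X) (s n ⁻¹' {y.1})).toReal
  have hofa : ∀ y, ENNReal.ofReal (a y) = (μ : Measure X) (s n ⁻¹' {y.1}) := fun y =>
    ENNReal.ofReal_toReal (measure_ne_top _ _)
  have hsum : (μn n : Measure X) = ∑ y : (s n).range, ENNReal.ofReal (a y) • Measure.dirac y.1 := by
    refine Measure.ext fun A hA => ?_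
    show (μ : Measure X).map (s n) A = _
    rw [Measure.map_apply (s n).measurable hA]
    have h1 : (s n) ⁻¹' A = (s n) ⁻¹' (((s n).range.filter (· ∈ A) : Finset X) : Set X) := by
      ext z
      simp
    rw [h1, ← sum_measure_preimage_singleton _ fun y _ => (s n).measurableSet_preimage {y},
      Finset.sum_filter, ← Finset.sum_coe_sort (s n).range]
    simp only [Measure.coe_finsetSum, Measure.coe_smul, Finset.sum_apply, Pi.smul_apply,
      smul_eq_mul, hofa]
    refine Finset.sum_congr rfl fun y _ => ?_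
    rw [Measure.dirac_apply' _ hA]
    by_cases hy : y.1 ∈ A
    · simp [hy]
    · simp [hy]
  have hsum1 : ∑ y, ENNReal.ofReal (a y) = 1 := by
    have := congrArg (fun m : Measure X => m univ) hsum
    simpa using this.symm
  have hsum1' : ∑ y, a y = 1 := by
    have h1 := congrArg ENNReal.toReal hsum1
    rw [← ENNReal.ofReal_sum_of_nonneg fun y _ => ENNReal.toReal_nonneg,
      ENNReal.toReal_ofReal (Finset.sum_nonneg fun y _ => ENNReal.toReal_nonneg)] at h1
    simpa using h1
  let ν : ProbabilityMeasure X := ⟨∑ y : (s n).range, ENNReal.ofReal (a y) • (P y.1 : Measure X), by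
    constructor
    simp only [Measure.coe_finsetSum, Measure.coe_smul, Finset.sum_apply, Pi.smul_apply,
      measure_univ, smul_eq_mul, mul_one]
    exact hsum1⟩
  refine ⟨(μn n, ν), ⟨subset_closure ?_, ?_⟩, rfl⟩
  · exact mem_combos a (fun y => y.1) (fun y => P y.1) (fun y => ENNReal.toReal_nonneg) hsum1'
      (fun y => hP _) _ hsum rfl
  · show ∫ z, Lop Γ g z ∂(μn n : Measure X) ≤
      ∫ z, g z ∂(∑ y : (s n).range, ENNReal.ofReal (a y) • (P y.1 : Measure X))
    rw [hsum, integral_finsetSum_measure fun y _ =>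
      (integrable_dirac (by simp)).smul_measure ENNReal.ofReal_ne_top,
      integral_finsetSum_measure fun y _ =>
      (integrable_of_cont hg.continuous (P y.1)).smul_measure ENNReal.ofReal_ne_top]
    refine le_of_eq (Finset.sum_congr rfl fun y _ => ?_)
    rw [integral_smul_measure, integral_smul_measure, integral_dirac, hPmax]

theorem iter_realise (hΓ : IsHouse Γ) {K : ℝ≥0} {g : X → ℝ} (hg : LipschitzWith K g) (N : ℕ) :
    ∀ μ : ProbabilityMeasure X, ∃ r ∈ iter Γ N μ,
      ∫ z, (Lop Γ)^[N] g z ∂(μ : Measure X) ≤ ∫ z, g z ∂(r : Measure X) := by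
  induction N with
  | zero => exact fun μ => ⟨μ, rfl, le_refl _⟩
  | succ N ih =>
    intro μ
    obtain ⟨ν, hν, h1⟩ := ext_realise hΓ (iter_lip hΓ hg N) μ
    obtain ⟨r, hr, h2⟩ := ih ν
    refine ⟨r, ⟨ν, hν, hr⟩, ?_⟩
    rw [Function.iterate_succ', Function.comp_def]
    exact h1.trans h2

/-! ### B3 -/

theorem mem_reach_of_iter {x : X} {n : ℕ} {r : ProbabilityMeasure X}
    (hr : r ∈ iter Γ n (diracProba x)) : r ∈ reach Γ x :=
  subset_closure (mem_iUnion.2 ⟨n, hr⟩)

theorem Rset_subset_reach (hS : PartS) (hΓ : IsHouse Γ) (x : X) : Rset Γ x ⊆ reach Γ x := by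
  intro p hp
  by_contra hcon
  obtain ⟨K, g, c, hg, h1, h2⟩ := hS X (reach Γ x) isClosed_closure
    (fun p hp q hq a ha r hr => by
      have : r = mix a ha p q := Subtype.ext hr
      rw [this]
      exact reach_convex hΓ ha x hp hq) p hcon
  have h3 : hull Γ g x ≤ c := by
    refine ciSup_le fun N => ?_
    obtain ⟨r, hr, h4⟩ := iter_realise hΓ hg N (diracProba x)
    rw [int_dirac] at h4
    exact h4.trans (h1 r (mem_reach_of_iter hr))
  have h4 := hp _ (hull_exc hΓ hg)
  have h5 := int_mono hg.continuous (hull_lip hΓ hg).continuous (le_hull hΓ hg) p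
  linarith

/-! ### B4 -/

theorem exists_exc_lt (hS : PartS) (hΓ : IsHouse Γ) (hac : StronglyAcyclic Γ) {x : X}
    {p : ProbabilityMeasure X} (hp : p ∈ Rset Γ x) (hne : p ≠ diracProba x) :
    ∃ f, Exc Γ f ∧ ∫ z, f z ∂(p : Measure X) < f x := by
  obtain ⟨φ, hlsc, ⟨C, hC⟩, harg⟩ := hac
  have hmeas : Measurable φ := hlsc.measurable
  have hmax : ∀ x', ∀ q ∈ reach Γ x', ∫ z, φ z ∂(q : Measure X) ≤ φ x' := by
    intro x' q hq
    have h1 : diracProba x' ∈ ({diracProba x'} : Set (ProbabilityMeasure X)) := rfl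
    rw [← harg x'] at h1
    have h2 := h1.2 q hq
    have h3 : ∫ z, φ z ∂(diracProba x' : Measure X) = φ x' := int_dirac x'
    rwa [h3] at h2
  have hstep : ∀ x', ∀ q ∈ Γ x', ∫ z, φ z ∂(q : Measure X) ≤ φ x' := fun x' q hq =>
    hmax x' q (mem_reach_of_iter (n := 1) ⟨q, subset_closure (dirac_mem_combos hq), rfl⟩)
  have hpr := Rset_subset_reach hS hΓ x hp
  have hlt : ∫ z, φ z ∂(p : Measure X) < φ x := by
    by_contra hcon
    push Not at hcon
    have h1 : p ∈ {p | p ∈ reach Γ x ∧ ∀ q ∈ reach Γ x,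
        ∫ z, φ z ∂(q : Measure X) ≤ ∫ z, φ z ∂(p : Measure X)} :=
      ⟨hpr, fun q hq => (hmax x q hq).trans hcon⟩
    rw [harg x] at h1
    exact hne h1
  obtain ⟨c, hc1, hc2⟩ := exists_between hlt
  obtain ⟨δ, hδ, hδ'⟩ := Metric.eventually_nhds_iff.1 (hlsc x c hc2)
  have hC0 : 0 ≤ C := (abs_nonneg _).trans (hC x)
  -- a Lipschitz minorant
  let g : X → ℝ := fun z => c - (2 * C / δ) * dist z x
  have hk : 0 ≤ 2 * C / δ := by positivity
  have hg : LipschitzWith (Real.toNNReal (2 * C / δ)) g := by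
    refine LipschitzWith.of_dist_le_mul fun a b => ?_
    rw [Real.dist_eq, Real.coe_toNNReal _ hk]
    have h1 : g a - g b = (2 * C / δ) * (dist b x - dist a x) := by
      simp only [g]
      ring
    rw [h1, abs_mul, abs_of_nonneg hk, dist_comm a b]
    exact mul_le_mul_of_nonneg_left (abs_dist_sub_le b a x) hk
  have hgφ : ∀ z, g z ≤ φ z := by
    intro z
    rcases lt_or_ge (dist z x) δ with h | h
    · have h1 := hδ' h
      have h2 : 0 ≤ (2 * C / δ) * dist z x := mul_nonneg hk dist_nonneg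
      simp only [g]
      linarith
    · have h1 : 2 * C ≤ (2 * C / δ) * dist z x := by
        rw [div_mul_eq_mul_div, le_div_iff₀ hδ]
        exact mul_le_mul_of_nonneg_left h (by linarith)
      have h2 := (abs_le.1 (hC z)).1
      have h3 := (abs_le.1 (hC x)).2
      simp only [g]
      linarith
  have hhull : ∀ z, hull Γ g z ≤ φ z := hull_le_of hΓ hg hmeas hC hstep hgφ
  refine ⟨hull Γ g, hull_exc hΓ hg, ?_⟩
  have h1 : ∫ z, hull Γ g z ∂(p : Measure X) ≤ ∫ z, φ z ∂(p : Measure X) :=
    integral_mono (integrable_of_cont (hull_lip hΓ hg).continuous p)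
      (Integrable.of_bound hmeas.aestronglyMeasurable C
        (Eventually.of_forall fun z => by rw [Real.norm_eq_abs]; exact hC z)) hhull
  have h2 : c ≤ hull Γ g x := by
    have := le_hull hΓ hg x
    simpa [g] using this
  linarith

/-! ### B5 -/

theorem partB (hS : PartS) : PartB := by
  intro X _ _ _ _ Γ hΓ hac C hC hCR
  classical
  let ι := {f : X → ℝ // Exc Γ f}
  have hcf : ∀ f : ι, Continuous f.1 := fun f => by
    obtain ⟨K, hK⟩ := f.2.1
    exact hK.continuous
  have hcF : ∀ f : X → ℝ, Continuous f → Continuous fun z : X × ProbabilityMeasure X =>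
      f z.1 - ∫ a, f a ∂(z.2 : Measure X) := fun f hf =>
    (hf.comp continuous_fst).sub ((cont_int hf).comp continuous_snd)
  have hopen : ∀ f : ι, IsOpen {z : X × ProbabilityMeasure X |
      0 < f.1 z.1 - ∫ a, f.1 a ∂(z.2 : Measure X)} := fun f =>
    isOpen_lt continuous_const (hcF f.1 (hcf f))
  have hcov : C ⊆ ⋃ f : ι, {z : X × ProbabilityMeasure X |
      0 < f.1 z.1 - ∫ a, f.1 a ∂(z.2 : Measure X)} := by
    intro z hz
    obtain ⟨f, hf, hlt⟩ := exists_exc_lt hS hΓ hac (hCR z hz).1 (hCR z hz).2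
    exact mem_iUnion.2 ⟨⟨f, hf⟩, sub_pos.2 hlt⟩
  obtain ⟨t, ht⟩ := hC.isCompact.elim_finite_subcover _ hopen hcov
  have hsum : ∀ s : Finset ι, Exc Γ (fun x => ∑ f ∈ s, f.1 x) := by
    intro s
    induction s using Finset.induction_on with
    | empty => simpa using Exc.const (Γ := Γ) 0
    | insert f s hfs ih =>
      have := Exc.add f.2 ih
      simpa only [Finset.sum_insert hfs] using this
  have hF := hsum t
  refine ⟨fun x => ∑ f ∈ t, f.1 x, hF, ?_⟩
  obtain ⟨K, hK⟩ := hF.1
  have hpos : ∀ z ∈ C, 0 < (∑ f ∈ t, f.1 z.1) - ∫ a, (∑ f ∈ t, f.1 a) ∂(z.2 : Measure X) := by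
    intro z hz
    rw [integral_finsetSum _ fun f _ => integrable_of_cont (hcf f) z.2, ← Finset.sum_sub_distrib]
    obtain ⟨f, hft, hf⟩ := mem_iUnion₂.1 (ht hz)
    refine Finset.sum_pos' (fun f' _ => ?_) ⟨f, hft, hf⟩
    exact sub_nonneg.2 ((hCR z hz).1 f'.1 f'.2)
  rcases C.eq_empty_or_nonempty with h | h
  · refine ⟨1, one_pos, fun z hz => ?_⟩
    rw [h] at hz
    exact absurd hz (notMem_empty z)
  · obtain ⟨z0, hz0, hmin⟩ := hC.isCompact.exists_isMinOn h (hcF _ hK.continuous).continuousOn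
    refine ⟨_, hpos z0 hz0, fun z hz => ?_⟩
    have := hmin hz
    simp only [mem_setOf_eq] at this
    linarith

end Pool.Agent.R86.GG
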