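import Pool.Agent.R86.GG.Defs

/-! Exact statements of the parts of the proof for MP_555e58_an. -/

open MeasureTheory ProbabilityTheory Set Filter Topology
open scoped NNReal

namespace Pool.Agent.R86.GG

/-- Separation of a point from a closed convex set of measures by a Lipschitz function. -/
def PartS : Prop :=
  ∀ (X : Type) [MetricSpace X] [CompactSpace X] [MeasurableSpace X] [BorelSpace X]
    (S : Set (ProbabilityMeasure X)), IsClosed S →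
    (∀ p ∈ S, ∀ q ∈ S, ∀ a ∈ Icc (0 : ℝ) 1, ∀ r, IsMix a p q r → r ∈ S) →
    ∀ p, p ∉ S → ∃ (K : ℝ≥0) (g : X → ℝ) (c : ℝ), LipschitzWith K g ∧
      (∀ q ∈ S, ∫ z, g z ∂(q : Measure X) ≤ c) ∧ c < ∫ z, g z ∂(p : Measure X)

/-- Uniform strict decrease. -/
def PartB : Prop :=
  ∀ (X : Type) [MetricSpace X] [CompactSpace X] [MeasurableSpace X] [BorelSpace X]
    (Γ : X → Set (ProbabilityMeasure X)), IsHouse Γ → StronglyAcyclic Γ →
    ∀ C : Set (X × ProbabilityMeasure X), IsClosed C →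
    (∀ z ∈ C, z.2 ∈ Rset Γ z.1 ∧ z.2 ≠ diracProba z.1) →
    ∃ F : X → ℝ, Exc Γ F ∧ ∃ η > 0, ∀ z ∈ C, ∫ a, F a ∂(z.2 : Measure X) ≤ F z.1 - η

/-- The properties of a limit of discounted values. -/
structure LimSol {X Y : Type} [MetricSpace X] [MeasurableSpace X] [BorelSpace X]
    [MetricSpace Y] [MeasurableSpace Y] [BorelSpace Y]
    (Γ : X → Set (ProbabilityMeasure X)) (Λ : Y → Set (ProbabilityMeasure Y))
    (u w : X × Y → ℝ) : Prop where
  lip : ∃ K, LipschitzWith K w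
  one : ∀ x y, ∀ p ∈ Γ x, ∃ q ∈ Λ y,
    ∫ a, (∫ b, w (a, b) ∂(q : Measure Y)) ∂(p : Measure X) ≤ w (x, y)
  two : ∀ x y, ∀ q ∈ Λ y, ∃ p ∈ Γ x,
    w (x, y) ≤ ∫ a, (∫ b, w (a, b) ∂(q : Measure Y)) ∂(p : Measure X)
  appr : ∀ ε > 0, ∃ f : X × Y → ℝ, Continuous f ∧ (∀ z, |f z - w z| ≤ ε) ∧
    ∃ lam : ℝ, 0 < lam ∧ lam < 1 ∧
    (∀ x y, ∃ p ∈ Γ x, f (x, y) ≤ lam * u (x, y) + (1 - lam) * ∫ a, f (a, y) ∂(p : Measure X)) ∧
    (∀ x y, ∃ q ∈ Λ y, lam * u (x, y) + (1 - lam) * ∫ b, f (x, b) ∂(q : Measure Y) ≤ f (x, y))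

/-- Existence of a limit of discounted values. -/
def PartC : Prop :=
  ∀ (X Y : Type) [MetricSpace X] [CompactSpace X] [MeasurableSpace X] [BorelSpace X]
    [MetricSpace Y] [CompactSpace Y] [MeasurableSpace Y] [BorelSpace Y]
    (Γ : X → Set (ProbabilityMeasure X)) (Λ : Y → Set (ProbabilityMeasure Y)),
    IsHouse Γ → IsHouse Λ → ∀ (K : ℝ≥0) (u : X × Y → ℝ), LipschitzWith K u →
    ∃ w : X × Y → ℝ, LimSol Γ Λ u w

/-- `w` is excessive in `x` and depressive in `y`. -/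
def PartD : Prop :=
  ∀ (X Y : Type) [MetricSpace X] [CompactSpace X] [MeasurableSpace X] [BorelSpace X]
    [MetricSpace Y] [CompactSpace Y] [MeasurableSpace Y] [BorelSpace Y]
    (Γ : X → Set (ProbabilityMeasure X)) (Λ : Y → Set (ProbabilityMeasure Y)),
    IsHouse Γ → IsHouse Λ → StronglyAcyclic Γ → StronglyAcyclic Λ →
    ∀ u w : X × Y → ℝ, LimSol Γ Λ u w →
    (∀ x y, ∀ p ∈ Γ x, ∫ a, w (a, y) ∂(p : Measure X) ≤ w (x, y)) ∧
    (∀ x y, ∀ q ∈ Λ y, w (x, y) ≤ ∫ b, w (x, b) ∂(q : Measure Y))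

/-- Scalar reachability. -/
def PartE : Prop :=
  ∀ (X Y : Type) [MetricSpace X] [CompactSpace X] [MeasurableSpace X] [BorelSpace X]
    [MetricSpace Y] [CompactSpace Y] [MeasurableSpace Y] [BorelSpace Y]
    (Γ : X → Set (ProbabilityMeasure X)) (Λ : Y → Set (ProbabilityMeasure Y)),
    IsHouse Γ → IsHouse Λ → ∀ (K : ℝ≥0) (u w : X × Y → ℝ), LipschitzWith K u → LimSol Γ Λ u w →
    ∀ (y : Y) (θ : ℝ), 0 < θ → θ < 1 → ∀ h : X → ℝ, Exc Γ h →
      (∀ x, (1 - θ) * w (x, y) + θ * u (x, y) ≤ h x) → ∀ x, w (x, y) ≤ h x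

/-- Continuous approximately optimal selections. -/
def PartF : Prop :=
  ∀ (X : Type) [MetricSpace X] [CompactSpace X] [MeasurableSpace X] [BorelSpace X]
    (Γ : X → Set (ProbabilityMeasure X)), IsHouse Γ → ∀ (K : ℝ≥0) (g : X → ℝ),
    LipschitzWith K g → ∀ δ > 0, ∃ κ : X → ProbabilityMeasure X, Continuous κ ∧
      (∀ x, κ x ∈ Γ x) ∧ ∀ x, ∀ p ∈ Γ x,
        ∫ z, g z ∂(p : Measure X) - δ ≤ ∫ z, g z ∂(κ x : Measure X)

/-- A finite automaton with potential functions gives a strategy of Player 1 with a guarantee.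
At memory `s` and states `z = (x, y)` the automaton first updates its memory to `c = eff s z`,
plays `act c x`, and then its memory is `nxt c`. -/
def PartG : Prop :=
  ∀ (X Y : Type) [MetricSpace X] [CompactSpace X] [MeasurableSpace X] [BorelSpace X]
    [MetricSpace Y] [CompactSpace Y] [MeasurableSpace Y] [BorelSpace Y]
    (Γ : X → Set (ProbabilityMeasure X)) (Λ : Y → Set (ProbabilityMeasure Y))
    (u : X × Y → ℝ), Continuous u →
    ∀ (S : Type) [Finite S] (s0 : S) (eff : S → X × Y → S) (act : S → X → ProbabilityMeasure X)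
      (nxt : S → S) (Q Z : S → X × Y → ℝ) (ε : ℝ),
    (∀ s c, MeasurableSet {z | eff s z = c}) → (∀ c, Continuous (act c)) →
    (∀ c x, act c x ∈ Γ x) → (∀ s, Continuous (Q s)) → (∀ s, Continuous (Z s)) →
    (∀ s z, 0 ≤ Z s z) →
    (∀ s x y, ∀ q ∈ Λ y, Q s (x, y) ≤ ∫ a, (∫ b, Q (nxt (eff s (x, y))) (a, b) ∂(q : Measure Y))
      ∂(act (eff s (x, y)) x : Measure X)) →
    (∀ s x y, ∀ q ∈ Λ y, Q s (x, y) - ε ≤ u (x, y) + (Z s (x, y) -
      ∫ a, (∫ b, Z (nxt (eff s (x, y))) (a, b) ∂(q : Measure Y))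
      ∂(act (eff s (x, y)) x : Measure X))) →
    ∃ σ : Strat X Y Prod.fst Γ, ∀ (τ : Strat X Y Prod.snd Λ) (z : X × Y) (n : ℕ),
      n * (Q s0 z - ε) - Z s0 z ≤ ∑ t ∈ Finset.range n, ∫ h, u (h (Fin.last t)) ∂(law σ τ z t)

/-- Player 1 guarantees `w` uniformly. -/
def PartP : Prop :=
  ∀ (X Y : Type) [MetricSpace X] [CompactSpace X] [MeasurableSpace X] [BorelSpace X]
    [MetricSpace Y] [CompactSpace Y] [MeasurableSpace Y] [BorelSpace Y]
    (Γ : X → Set (ProbabilityMeasure X)) (Λ : Y → Set (ProbabilityMeasure Y)),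
    IsHouse Γ → IsHouse Λ → StronglyAcyclic Γ →
    ∀ (K : ℝ≥0) (u w : X × Y → ℝ), LipschitzWith K u → LipschitzWith K w →
    (∀ x y, ∀ p ∈ Γ x, ∫ a, w (a, y) ∂(p : Measure X) ≤ w (x, y)) →
    (∀ x y, ∀ q ∈ Λ y, w (x, y) ≤ ∫ b, w (x, b) ∂(q : Measure Y)) →
    (∀ (y : Y) (θ : ℝ), 0 < θ → θ < 1 → ∀ h : X → ℝ, Exc Γ h →
      (∀ x, (1 - θ) * w (x, y) + θ * u (x, y) ≤ h x) → ∀ x, w (x, y) ≤ h x) →
    ∀ ε > 0, ∃ (σ : Strat X Y Prod.fst Γ) (N : ℕ), ∀ n ≥ N,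
      ∀ (τ : Strat X Y Prod.snd Λ) (z : X × Y), w z - ε ≤ payoff u σ τ z n

/-- Duality between the two players. -/
def PartI : Prop :=
  ∀ (X Y : Type) [MetricSpace X] [CompactSpace X] [MeasurableSpace X] [BorelSpace X]
    [MetricSpace Y] [CompactSpace Y] [MeasurableSpace Y] [BorelSpace Y]
    (Γ : X → Set (ProbabilityMeasure X)) (Λ : Y → Set (ProbabilityMeasure Y))
    (u : X × Y → ℝ), Continuous u →
    (∀ σ : Strat Y X Prod.fst Λ, ∃ τ' : Strat X Y Prod.snd Λ, ∀ τ : Strat X Y Prod.fst Γ,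
      ∃ σ' : Strat Y X Prod.snd Γ, ∀ z n,
        payoff u τ τ' z n = - payoff (fun z => - u (z.2, z.1)) σ σ' (z.2, z.1) n)

/-- The main theorem. -/
def Main : Prop :=
  ∀ (X Y : Type) [MetricSpace X] [CompactSpace X] [MeasurableSpace X] [BorelSpace X]
    [MetricSpace Y] [CompactSpace Y] [MeasurableSpace Y] [BorelSpace Y]
    (Γ : X → Set (ProbabilityMeasure X)) (Λ : Y → Set (ProbabilityMeasure Y)),
    IsHouse Γ → IsHouse Λ → StronglyAcyclic Γ → StronglyAcyclic' Λ →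
    ∀ u : X × Y → ℝ, Continuous u → ∀ z : X × Y, ∃ v, IsUniformValue u Γ Λ z v

end Pool.Agent.R86.GG
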