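import Pool.Agent.R86.GG.OpA
import Pool.Agent.R86.GG.Stmts

/-! Part C: existence of a limit of discounted values. -/

open MeasureTheory ProbabilityTheory Set Filter Topology
open scoped NNReal

set_option linter.unusedSectionVars false

namespace Pool.Agent.R86.GG

namespace CC

variable {X Y : Type} [MetricSpace X] [CompactSpace X] [MeasurableSpace X] [BorelSpace X]
    [MetricSpace Y] [CompactSpace Y] [MeasurableSpace Y] [BorelSpace Y]

/-- Lipschitz in each variable separately. -/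
structure SL (c : ℝ≥0) (f : X × Y → ℝ) : Prop where
  l1 : ∀ x x' y, |f (x, y) - f (x', y)| ≤ c * dist x x'
  l2 : ∀ x y y', |f (x, y) - f (x, y')| ≤ c * dist y y'

theorem SL.lip {c : ℝ≥0} {f : X × Y → ℝ} (h : SL c f) : LipschitzWith (2 * c) f := by
  refine LipschitzWith.of_dist_le_mul ?_
  rintro ⟨x, y⟩ ⟨x', y'⟩
  rw [Real.dist_eq]
  have h1 := h.l1 x x' y
  have h2 := h.l2 x' y y'
  have h3 : dist x x' ≤ dist (x, y) (x', y') := by
    rw [Prod.dist_eq]; exact le_max_left _ _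
  have h4 : dist y y' ≤ dist (x, y) (x', y') := by
    rw [Prod.dist_eq]; exact le_max_right _ _
  have h5 : |f (x, y) - f (x', y')| ≤ |f (x, y) - f (x', y)| + |f (x', y) - f (x', y')| :=
    abs_sub_le _ _ _
  have hc : (0 : ℝ) ≤ c := c.2
  have h6 := mul_le_mul_of_nonneg_left h3 hc
  have h7 := mul_le_mul_of_nonneg_left h4 hc
  push_cast
  linarith

theorem SL.cont {c : ℝ≥0} {f : X × Y → ℝ} (h : SL c f) : Continuous f := h.lip.continuous

theorem SL.lipx {c : ℝ≥0} {f : X × Y → ℝ} (h : SL c f) (y : Y) :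
    LipschitzWith c (fun x => f (x, y)) :=
  LipschitzWith.of_dist_le_mul fun x x' => by rw [Real.dist_eq]; exact h.l1 x x' y

theorem SL.lipy {c : ℝ≥0} {f : X × Y → ℝ} (h : SL c f) (x : X) :
    LipschitzWith c (fun y => f (x, y)) :=
  LipschitzWith.of_dist_le_mul fun y y' => by rw [Real.dist_eq]; exact h.l2 x y y'

theorem abs_int_le {g : X → ℝ} (hg : Continuous g) {C : ℝ} (h : ∀ x, |g x| ≤ C)
    (p : ProbabilityMeasure X) : |∫ z, g z ∂(p : Measure X)| ≤ C :=
  abs_le.2 ⟨le_int_of_le hg (fun x => (abs_le.1 (h x)).1) p,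
    int_le_of_le hg (fun x => (abs_le.1 (h x)).2) p⟩

theorem abs_int_sub_le {g g' : X → ℝ} (hg : Continuous g) (hg' : Continuous g') {C : ℝ}
    (h : ∀ x, |g x - g' x| ≤ C) (p : ProbabilityMeasure X) :
    |∫ z, g z ∂(p : Measure X) - ∫ z, g' z ∂(p : Measure X)| ≤ C := by
  rw [← integral_sub (integrable_of_cont hg p) (integrable_of_cont hg' p)]
  exact abs_int_le (hg.sub hg') h p

theorem SL.inty {c : ℝ≥0} {f : X × Y → ℝ} (h : SL c f) (q : ProbabilityMeasure Y) :
    LipschitzWith c (fun x => ∫ b, f (x, b) ∂(q : Measure Y)) :=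
  LipschitzWith.of_dist_le_mul fun x x' => by
    rw [Real.dist_eq]
    exact abs_int_sub_le (h.lipy x).continuous (h.lipy x').continuous (fun b => h.l1 x x' b) q

theorem SL.intx {c : ℝ≥0} {f : X × Y → ℝ} (h : SL c f) (p : ProbabilityMeasure X) :
    LipschitzWith c (fun y => ∫ a, f (a, y) ∂(p : Measure X)) :=
  LipschitzWith.of_dist_le_mul fun y y' => by
    rw [Real.dist_eq]
    exact abs_int_sub_le (h.lipx y).continuous (h.lipx y').continuous (fun a => h.l2 a y y') p

/-- The bilinear form. -/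
noncomputable def Phi (f : X × Y → ℝ) (p : ProbabilityMeasure X) (q : ProbabilityMeasure Y) : ℝ :=
  ∫ a, (∫ b, f (a, b) ∂(q : Measure Y)) ∂(p : Measure X)

theorem Phi_swap {c : ℝ≥0} {f : X × Y → ℝ} (h : SL c f) (p : ProbabilityMeasure X)
    (q : ProbabilityMeasure Y) :
    Phi f p q = ∫ b, (∫ a, f (a, b) ∂(p : Measure X)) ∂(q : Measure Y) := by
  unfold Phi
  refine integral_integral_swap (f := fun a b => f (a, b)) ?_
  exact h.cont.integrable_of_hasCompactSupport (HasCompactSupport.of_compactSpace f)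

theorem Phi_contq {c : ℝ≥0} {f : X × Y → ℝ} (h : SL c f) (p : ProbabilityMeasure X) :
    Continuous (fun q : ProbabilityMeasure Y => Phi f p q) := by
  have : (fun q : ProbabilityMeasure Y => Phi f p q)
      = fun q : ProbabilityMeasure Y =>
        ∫ b, (∫ a, f (a, b) ∂(p : Measure X)) ∂(q : Measure Y) :=
    funext fun q => Phi_swap h p q
  rw [this]
  exact cont_int (h.intx p).continuous

theorem Phi_contp {c : ℝ≥0} {f : X × Y → ℝ} (h : SL c f) (q : ProbabilityMeasure Y) :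
    Continuous (fun p : ProbabilityMeasure X => Phi f p q) :=
  cont_int (h.inty q).continuous

theorem Phi_sub {c c' : ℝ≥0} {f g : X × Y → ℝ} (h : SL c f) (h' : SL c' g) {ε : ℝ}
    (he : ∀ z, |f z - g z| ≤ ε) (p : ProbabilityMeasure X) (q : ProbabilityMeasure Y) :
    |Phi f p q - Phi g p q| ≤ ε :=
  abs_int_sub_le (h.inty q).continuous (h'.inty q).continuous
    (fun a => abs_int_sub_le (h.lipy a).continuous (h'.lipy a).continuous (fun b => he (a, b)) q) p

theorem Phi_abs {c : ℝ≥0} {f : X × Y → ℝ} (h : SL c f) {C : ℝ}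
    (he : ∀ z, |f z| ≤ C) (p : ProbabilityMeasure X) (q : ProbabilityMeasure Y) :
    |Phi f p q| ≤ C :=
  abs_int_le (h.inty q).continuous
    (fun a => abs_int_le (h.lipy a).continuous (fun b => he (a, b)) q) p

theorem Phi_diracy {f : X × Y → ℝ} (p : ProbabilityMeasure X) (y : Y) :
    Phi f p (diracProba y) = ∫ a, f (a, y) ∂(p : Measure X) := by
  unfold Phi
  refine integral_congr_ae (Eventually.of_forall fun a => ?_)
  exact int_dirac (g := fun b => f (a, b)) y

theorem Phi_diracx {f : X × Y → ℝ} (x : X) (q : ProbabilityMeasure Y) :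
    Phi f (diracProba x) q = ∫ b, f (x, b) ∂(q : Measure Y) :=
  int_dirac (g := fun a => ∫ b, f (a, b) ∂(q : Measure Y)) x

variable {Γ : X → Set (ProbabilityMeasure X)} {Λ : Y → Set (ProbabilityMeasure Y)}

/-- The lower value of `p`. -/
noncomputable def W (Λ : Y → Set (ProbabilityMeasure Y)) (f : X × Y → ℝ)
    (p : ProbabilityMeasure X) (y : Y) : ℝ :=
  sInf ((fun q => Phi f p q) '' Λ y)

theorem W_att (hΛ : IsHouse Λ) {c : ℝ≥0} {f : X × Y → ℝ} (h : SL c f)
    (p : ProbabilityMeasure X) (y : Y) :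
    ∃ q ∈ Λ y, Phi f p q = W Λ f p y ∧ ∀ q' ∈ Λ y, W Λ f p y ≤ Phi f p q' := by
  have hne : (Λ y).Nonempty := ⟨_, hΛ.leavable y⟩
  obtain ⟨q, hq, hmin⟩ := (hΛ.compact y).exists_isMinOn hne (Phi_contq h p).continuousOn
  have h1 : ∀ q' ∈ Λ y, Phi f p q ≤ Phi f p q' := fun q' hq' => hmin hq'
  have h2 : W Λ f p y = Phi f p q := by
    refine le_antisymm (csInf_le ⟨Phi f p q, ?_⟩ ⟨q, hq, rfl⟩) (le_csInf (hne.image _) ?_)
    · rintro _ ⟨q', hq', rfl⟩
      exact h1 q' hq'
    · rintro _ ⟨q', hq', rfl⟩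
      exact h1 q' hq'
  exact ⟨q, hq, h2.symm, fun q' hq' => h2 ▸ h1 q' hq'⟩

/-- The value of the one shot game. -/
noncomputable def V (Γ : X → Set (ProbabilityMeasure X)) (Λ : Y → Set (ProbabilityMeasure Y))
    (f : X × Y → ℝ) (z : X × Y) : ℝ :=
  sSup ((fun p => W Λ f p z.2) '' Γ z.1)

theorem V_le (hΓ : IsHouse Γ) {f : X × Y → ℝ} {x : X} {y : Y} {M : ℝ}
    (h : ∀ p ∈ Γ x, W Λ f p y ≤ M) : V Γ Λ f (x, y) ≤ M := by
  have hne : (Γ x).Nonempty := ⟨_, hΓ.leavable x⟩
  refine csSup_le (hne.image _) ?_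
  rintro _ ⟨p, hp, rfl⟩
  exact h p hp

theorem le_V (hΛ : IsHouse Λ) {c : ℝ≥0} {f : X × Y → ℝ} (h : SL c f) {x : X} {y : Y}
    {p : ProbabilityMeasure X} (hp : p ∈ Γ x) : W Λ f p y ≤ V Γ Λ f (x, y) := by
  refine le_csSup ?_ ⟨p, hp, rfl⟩
  obtain ⟨C, _, hC⟩ := exists_bound h.cont
  refine ⟨C, ?_⟩
  rintro _ ⟨p', _, rfl⟩
  obtain ⟨q, _, hq, _⟩ := W_att hΛ h p' y
  show W Λ f p' y ≤ C
  rw [← hq]
  exact (abs_le.1 (Phi_abs h hC p' q)).2

theorem V_sub (hΓ : IsHouse Γ) (hΛ : IsHouse Λ) {c c' : ℝ≥0} {f g : X × Y → ℝ} (h : SL c f)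
    (h' : SL c' g) {ε : ℝ} (he : ∀ z, |f z - g z| ≤ ε) (z : X × Y) :
    |V Γ Λ f z - V Γ Λ g z| ≤ ε := by
  have key : ∀ {c c' : ℝ≥0} {f g : X × Y → ℝ}, SL c f → SL c' g → (∀ z, |f z - g z| ≤ ε) →
      ∀ z, V Γ Λ f z ≤ V Γ Λ g z + ε := by
    intro c c' f g h h' he z
    obtain ⟨x, y⟩ := z
    refine V_le hΓ fun p hp => ?_
    obtain ⟨q, hq, hqe, _⟩ := W_att hΛ h' p y
    obtain ⟨_, _, _, hmin⟩ := W_att hΛ h p y
    have h1 := hmin q hq
    have h2 := (abs_le.1 (Phi_sub h h' he p q)).2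
    have h3 := le_V (Γ := Γ) hΛ h' (y := y) hp
    linarith
  have h1 := key h h' he z
  have h2 := key h' h (fun z => by rw [abs_sub_comm]; exact he z) z
  rw [abs_le]
  constructor <;> linarith

theorem V_SL (hΓ : IsHouse Γ) (hΛ : IsHouse Λ) {c : ℝ≥0} {f : X × Y → ℝ} (h : SL c f) :
    SL c (V Γ Λ f) := by
  have k1 : ∀ x x' y, V Γ Λ f (x, y) ≤ V Γ Λ f (x', y) + c * dist x x' := by
    intro x x' y
    refine V_le hΓ fun p hp => ?_
    obtain ⟨p', hp', hd⟩ := hΓ.nonexp (x' := x') hp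
    obtain ⟨q, hq, hqe, _⟩ := W_att hΛ h p' y
    obtain ⟨_, _, _, hmin⟩ := W_att hΛ h p y
    have h1 := hmin q hq
    have h2 := (abs_le.1 (hd c _ (h.inty q))).2
    have h3 := le_V (Γ := Γ) hΛ h (y := y) hp'
    change Phi f p q - Phi f p' q ≤ _ at h2
    linarith
  have k2 : ∀ x y y', V Γ Λ f (x, y) ≤ V Γ Λ f (x, y') + c * dist y y' := by
    intro x y y'
    refine V_le hΓ fun p hp => ?_
    obtain ⟨q', hq', hqe, _⟩ := W_att hΛ h p y'
    obtain ⟨q, hq, hd⟩ := hΛ.nonexp (x' := y) hq'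
    obtain ⟨_, _, _, hmin⟩ := W_att hΛ h p y
    have h1 := hmin q hq
    have h2 := (abs_le.1 (hd c _ (h.intx p))).1
    have h3 := le_V (Γ := Γ) hΛ h (y := y') hp
    rw [← Phi_swap h, ← Phi_swap h, dist_comm y' y] at h2
    linarith
  constructor
  · intro x x' y
    have a := k1 x x' y
    have b := k1 x' x y
    rw [dist_comm x' x] at b
    rw [abs_le]
    constructor <;> linarith
  · intro x y y'
    have a := k2 x y y'
    have b := k2 x y' y
    rw [dist_comm y' y] at b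
    rw [abs_le]
    constructor <;> linarith

theorem V_abs (hΓ : IsHouse Γ) (hΛ : IsHouse Λ) {c : ℝ≥0} {f : X × Y → ℝ} (h : SL c f) {C : ℝ}
    (he : ∀ z, |f z| ≤ C) (z : X × Y) : |V Γ Λ f z| ≤ C := by
  obtain ⟨x, y⟩ := z
  rw [abs_le]
  constructor
  · obtain ⟨q, _, hq, _⟩ := W_att hΛ h (diracProba x) y
    have h3 := le_V (Γ := Γ) hΛ h (y := y) (hΓ.leavable x)
    have h4 := (abs_le.1 (Phi_abs h he (diracProba x) q)).1
    linarith
  · refine V_le hΓ fun p _ => ?_
    obtain ⟨q, _, hq, _⟩ := W_att hΛ h p y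
    rw [← hq]
    exact (abs_le.1 (Phi_abs h he p q)).2

/-- The Shapley operator. -/
noncomputable def T (Γ : X → Set (ProbabilityMeasure X)) (Λ : Y → Set (ProbabilityMeasure Y))
    (u : X × Y → ℝ) (lam : ℝ) (f : X × Y → ℝ) (z : X × Y) : ℝ :=
  lam * u z + (1 - lam) * V Γ Λ f z

theorem T_SL (hΓ : IsHouse Γ) (hΛ : IsHouse Λ) {c : ℝ≥0} {u f : X × Y → ℝ} (hu : SL c u)
    (h : SL c f) {lam : ℝ} (h0 : 0 < lam) (h1 : lam < 1) : SL c (T Γ Λ u lam f) := by
  have hV := V_SL hΓ hΛ h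
  constructor
  · intro x x' y
    have a := hu.l1 x x' y
    have b := hV.l1 x x' y
    rw [abs_le] at a b ⊢
    unfold T
    constructor <;> nlinarith [a.1, a.2, b.1, b.2]
  · intro x y y'
    have a := hu.l2 x y y'
    have b := hV.l2 x y y'
    rw [abs_le] at a b ⊢
    unfold T
    constructor <;> nlinarith [a.1, a.2, b.1, b.2]

theorem T_abs (hΓ : IsHouse Γ) (hΛ : IsHouse Λ) {c : ℝ≥0} {u f : X × Y → ℝ}
    (h : SL c f) {lam C : ℝ} (h0 : 0 < lam) (h1 : lam < 1) (hu : ∀ z, |u z| ≤ C)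
    (hf : ∀ z, |f z| ≤ C) (z : X × Y) : |T Γ Λ u lam f z| ≤ C := by
  have a := hu z
  have b := V_abs hΓ hΛ h hf z
  rw [abs_le] at a b ⊢
  unfold T
  constructor <;> nlinarith [a.1, a.2, b.1, b.2]

theorem T_sub (hΓ : IsHouse Γ) (hΛ : IsHouse Λ) {c c' : ℝ≥0} {u f g : X × Y → ℝ}
    (h : SL c f) (h' : SL c' g) {lam ε : ℝ} (h1 : lam < 1)
    (he : ∀ z, |f z - g z| ≤ ε) (z : X × Y) :
    |T Γ Λ u lam f z - T Γ Λ u lam g z| ≤ (1 - lam) * ε := by
  have a := V_sub hΓ hΛ h h' he z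
  rw [abs_le] at a ⊢
  unfold T
  constructor <;> nlinarith [a.1, a.2]

/-- Discounted values. -/
theorem exists_fix (hΓ : IsHouse Γ) (hΛ : IsHouse Λ) {c : ℝ≥0} {u : X × Y → ℝ} (hu : SL c u)
    {C : ℝ} (hC0 : 0 ≤ C) (hC : ∀ z, |u z| ≤ C) {lam : ℝ} (h0 : 0 < lam) (h1 : lam < 1) :
    ∃ f : X × Y → ℝ, SL c f ∧ (∀ z, |f z| ≤ C) ∧ ∀ z, T Γ Λ u lam f z = f z := by
  set F : ℕ → X × Y → ℝ := fun n => (T Γ Λ u lam)^[n] (fun _ => 0) with hF
  have hFs : ∀ n, F (n + 1) = T Γ Λ u lam (F n) := fun n => Function.iterate_succ_apply' _ _ _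
  have hSL : ∀ n, SL c (F n) := by
    intro n
    induction n with
    | zero =>
      constructor
      · intro x x' y
        show |(0 : ℝ) - 0| ≤ _
        simp only [sub_self, abs_zero]
        positivity
      · intro x y y'
        show |(0 : ℝ) - 0| ≤ _
        simp only [sub_self, abs_zero]
        positivity
    | succ n ih => rw [hFs]; exact T_SL hΓ hΛ hu ih h0 h1
  have hab : ∀ n z, |F n z| ≤ C := by
    intro n
    induction n with
    | zero => intro z; show |(0 : ℝ)| ≤ C; simpa using hC0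
    | succ n ih => intro z; rw [hFs]; exact T_abs hΓ hΛ (hSL n) h0 h1 hC ih z
  have hstep : ∀ n z, |F n z - F (n + 1) z| ≤ C * (1 - lam) ^ n := by
    intro n
    induction n with
    | zero =>
      intro z
      have := hab 1 z
      show |(0 : ℝ) - F 1 z| ≤ C * (1 - lam) ^ 0
      simpa using this
    | succ n ih =>
      intro z
      have := T_sub (u := u) hΓ hΛ (hSL n) (hSL (n + 1)) h1 ih z
      rw [← hFs, ← hFs] at this
      calc _ ≤ _ := this
        _ = C * (1 - lam) ^ (n + 1) := by ring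
  have hr1 : 1 - lam < 1 := by linarith
  have hr0 : 0 ≤ 1 - lam := by linarith
  have hcau : ∀ z, CauchySeq (fun n => F n z) := fun z =>
    cauchySeq_of_le_geometric (1 - lam) C hr1 fun n => by rw [Real.dist_eq]; exact hstep n z
  choose f hf using fun z => cauchySeq_tendsto_of_complete (hcau z)
  have hd : ∀ n z, |F n z - f z| ≤ C * (1 - lam) ^ n / lam := by
    intro n z
    have := dist_le_of_le_geometric_of_tendsto (1 - lam) C hr1
      (fun n => by rw [Real.dist_eq]; exact hstep n z) (hf z) n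
    rw [Real.dist_eq] at this
    simpa using this
  have hfSL : SL c f := by
    constructor
    · intro x x' y
      exact le_of_tendsto' (((hf (x, y)).sub (hf (x', y))).abs) fun n => (hSL n).l1 x x' y
    · intro x y y'
      exact le_of_tendsto' (((hf (x, y)).sub (hf (x, y'))).abs) fun n => (hSL n).l2 x y y'
  refine ⟨f, hfSL, fun z => le_of_tendsto' (hf z).abs fun n => hab n z, fun z => ?_⟩
  have ht : Tendsto (fun n => F (n + 1) z) atTop (𝓝 (T Γ Λ u lam f z)) := by
    rw [tendsto_iff_dist_tendsto_zero]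
    refine squeeze_zero (fun n => dist_nonneg) (g := fun n => C * (1 - lam) ^ n / lam)
      (fun n => ?_) ?_
    · rw [Real.dist_eq, hFs]
      have := T_sub (u := u) hΓ hΛ (hSL n) hfSL h1 (hd n) z
      refine this.trans ?_
      have hpos : 0 ≤ C * (1 - lam) ^ n / lam := by positivity
      nlinarith
    · have := (tendsto_pow_atTop_nhds_zero_of_lt_one hr0 hr1).const_mul C
      have := this.div_const lam
      simpa using this
  exact tendsto_nhds_unique ht ((tendsto_add_atTop_iff_nat 1).2 (hf z))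

end CC

open CC

theorem partC : PartC := by
  intro X Y _ _ _ _ _ _ _ _ Γ Λ hΓ hΛ K u hu
  have huSL : SL K u := by
    constructor
    · intro x x' y
      have := hu.dist_le_mul (x, y) (x', y)
      rwa [Real.dist_eq, Prod.dist_eq, dist_self, max_eq_left dist_nonneg] at this
    · intro x y y'
      have := hu.dist_le_mul (x, y) (x, y')
      rwa [Real.dist_eq, Prod.dist_eq, dist_self, max_eq_right dist_nonneg] at this
  obtain ⟨C, hC0, hC⟩ := exists_bound huSL.cont
  have hlam0 : ∀ k : ℕ, (0 : ℝ) < 1 / ((k : ℝ) + 2) := fun k => by positivity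
  have hlam1 : ∀ k : ℕ, 1 / ((k : ℝ) + 2) < 1 := fun k => by
    rw [div_lt_one (by positivity)]
    have : (0 : ℝ) ≤ k := Nat.cast_nonneg k
    linarith
  choose f hfSL hfab hfix using fun k : ℕ => exists_fix hΓ hΛ huSL hC0 hC (hlam0 k) (hlam1 k)
  -- compactness
  obtain ⟨w, φ, hφ, hw⟩ : ∃ (w : X × Y → ℝ) (φ : ℕ → ℕ), StrictMono φ ∧
      ∀ ε > 0, ∀ᶠ n in atTop, ∀ z, |f (φ n) z - w z| ≤ ε := by
    let g : ℕ → BoundedContinuousFunction (X × Y) ℝ := fun k =>
      BoundedContinuousFunction.mkOfCompact ⟨f k, (hfSL k).cont⟩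
    have hcomp : IsCompact (closure (range g)) := by
      refine BoundedContinuousFunction.arzela_ascoli (Icc (-C) C) isCompact_Icc _ ?_ ?_
      · rintro _ z ⟨k, rfl⟩
        exact ⟨(abs_le.1 (hfab k z)).1, (abs_le.1 (hfab k z)).2⟩
      · have := LipschitzWith.uniformEquicontinuous
          (fun h : range g => (h : X × Y → ℝ)) (2 * K) (by
            rintro ⟨_, k, rfl⟩
            exact (hfSL k).lip)
        exact this.equicontinuous
    obtain ⟨w, _, φ, hφ, ht⟩ := hcomp.tendsto_subseq (x := g)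
      (fun n => subset_closure (mem_range_self n))
    refine ⟨w, φ, hφ, fun ε hε => ?_⟩
    have := (Metric.tendsto_nhds.1 ht) ε hε
    filter_upwards [this] with n hn z
    have h1 := (BoundedContinuousFunction.dist_coe_le_dist (f := g (φ n)) (g := w) z).trans hn.le
    rw [Real.dist_eq] at h1
    exact h1
  have hwt : ∀ z, Tendsto (fun n => f (φ n) z) atTop (𝓝 (w z)) := by
    intro z
    rw [Metric.tendsto_nhds]
    intro ε hε
    filter_upwards [hw (ε / 2) (half_pos hε)] with n hn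
    rw [Real.dist_eq]
    have := hn z
    linarith
  have hwSL : SL K w := by
    constructor
    · intro x x' y
      exact le_of_tendsto' (((hwt (x, y)).sub (hwt (x', y))).abs) fun n => (hfSL _).l1 x x' y
    · intro x y y'
      exact le_of_tendsto' (((hwt (x, y)).sub (hwt (x, y'))).abs) fun n => (hfSL _).l2 x y y'
  have hlt : Tendsto (fun n : ℕ => 1 / (((φ n : ℕ) : ℝ) + 2)) atTop (𝓝 0) := by
    have h1 : Tendsto (fun n : ℕ => ((φ n : ℕ) : ℝ) + 2) atTop atTop :=
      tendsto_atTop_add_const_right _ _ (tendsto_natCast_atTop_atTop.comp hφ.tendsto_atTop)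
    refine h1.inv_tendsto_atTop.congr fun n => ?_
    simp
  refine ⟨w, ⟨⟨_, hwSL.lip⟩, ?_, ?_, ?_⟩⟩
  · -- one
    intro x y p hp
    obtain ⟨q, hq, hqe, hmin⟩ := W_att hΛ hwSL p y
    refine ⟨q, hq, ?_⟩
    show Phi w p q ≤ w (x, y)
    refine le_of_forall_pos_le_add fun ε hε => ?_
    have hlim : Tendsto (fun n : ℕ => 1 / (((φ n : ℕ) : ℝ) + 2) * u (x, y)
        + (1 - 1 / (((φ n : ℕ) : ℝ) + 2)) * (Phi w p q - ε)) atTop
        (𝓝 (0 * u (x, y) + (1 - 0) * (Phi w p q - ε))) :=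
      (hlt.mul_const _).add ((tendsto_const_nhds.sub hlt).mul_const _)
    have hle : 0 * u (x, y) + (1 - 0) * (Phi w p q - ε) ≤ w (x, y) := by
      refine le_of_tendsto_of_tendsto hlim (hwt (x, y)) ?_
      filter_upwards [hw ε hε] with n hn
      have h1 := hfix (φ n) (x, y)
      unfold T at h1
      obtain ⟨q', hq', hqe', _⟩ := W_att hΛ (hfSL (φ n)) p y
      have h2 := le_V (Γ := Γ) hΛ (hfSL (φ n)) (y := y) hp
      have h3 := hmin q' hq'
      have h4 := (abs_le.1 (Phi_sub (hfSL (φ n)) hwSL hn p q')).1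
      have h5 : Phi w p q - ε ≤ V Γ Λ (f (φ n)) (x, y) := by linarith
      have h6 : (0 : ℝ) ≤ 1 - 1 / (((φ n : ℕ) : ℝ) + 2) := by
        have := hlam1 (φ n)
        linarith
      have h7 := mul_le_mul_of_nonneg_left h5 h6
      linarith
    linarith
  · -- two
    intro x y q hq
    have hne : (Γ x).Nonempty := ⟨_, hΓ.leavable x⟩
    obtain ⟨p, hp, hmax⟩ := (hΓ.compact x).exists_isMaxOn hne (Phi_contp hwSL q).continuousOn
    refine ⟨p, hp, ?_⟩
    show w (x, y) ≤ Phi w p q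
    refine le_of_forall_pos_le_add fun ε hε => ?_
    have hlim : Tendsto (fun n : ℕ => 1 / (((φ n : ℕ) : ℝ) + 2) * u (x, y)
        + (1 - 1 / (((φ n : ℕ) : ℝ) + 2)) * (Phi w p q + ε)) atTop
        (𝓝 (0 * u (x, y) + (1 - 0) * (Phi w p q + ε))) :=
      (hlt.mul_const _).add ((tendsto_const_nhds.sub hlt).mul_const _)
    have hle : w (x, y) ≤ 0 * u (x, y) + (1 - 0) * (Phi w p q + ε) := by
      refine le_of_tendsto_of_tendsto (hwt (x, y)) hlim ?_
      filter_upwards [hw ε hε] with n hn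
      have h1 := hfix (φ n) (x, y)
      unfold T at h1
      have h5 : V Γ Λ (f (φ n)) (x, y) ≤ Phi w p q + ε := by
        refine V_le hΓ fun p' hp' => ?_
        obtain ⟨_, _, _, hmin⟩ := W_att hΛ (hfSL (φ n)) p' y
        have a := hmin q hq
        have b := (abs_le.1 (Phi_sub (hfSL (φ n)) hwSL hn p' q)).2
        have c : Phi w p' q ≤ Phi w p q := hmax hp'
        linarith
      have h6 : (0 : ℝ) ≤ 1 - 1 / (((φ n : ℕ) : ℝ) + 2) := by
        have := hlam1 (φ n)
        linarith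
      have h7 := mul_le_mul_of_nonneg_left h5 h6
      linarith
    linarith
  · -- appr
    intro ε hε
    obtain ⟨n, hn⟩ := (hw ε hε).exists
    refine ⟨f (φ n), (hfSL _).cont, hn, _, hlam0 (φ n), hlam1 (φ n), ?_, ?_⟩
    · intro x y
      have hcx : Continuous fun a => f (φ n) (a, y) := ((hfSL (φ n)).lipx y).continuous
      obtain ⟨p, hp, hpe⟩ := Lop_attained hΓ hcx x
      refine ⟨p, hp, ?_⟩
      have h1 := hfix (φ n) (x, y)
      unfold T at h1
      have h5 : V Γ Λ (f (φ n)) (x, y) ≤ ∫ a, f (φ n) (a, y) ∂(p : Measure X) := by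
        refine V_le hΓ fun p' hp' => ?_
        obtain ⟨_, _, _, hmin⟩ := W_att hΛ (hfSL (φ n)) p' y
        have a := hmin _ (hΛ.leavable y)
        rw [Phi_diracy] at a
        have b := int_le_Lop hcx hp'
        rw [hpe]
        exact a.trans b
      have h6 : (0 : ℝ) ≤ 1 - 1 / (((φ n : ℕ) : ℝ) + 2) := by
        have := hlam1 (φ n)
        linarith
      have h7 := mul_le_mul_of_nonneg_left h5 h6
      linarith
    · intro x y
      obtain ⟨q, hq, hqe, _⟩ := W_att hΛ (hfSL (φ n)) (diracProba x) y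
      refine ⟨q, hq, ?_⟩
      have h1 := hfix (φ n) (x, y)
      unfold T at h1
      have h5 := le_V (Γ := Γ) hΛ (hfSL (φ n)) (y := y) (hΓ.leavable x)
      rw [← hqe, Phi_diracx] at h5
      have h6 : (0 : ℝ) ≤ 1 - 1 / (((φ n : ℕ) : ℝ) + 2) := by
        have := hlam1 (φ n)
        linarith
      have h7 := mul_le_mul_of_nonneg_left h5 h6
      linarith

end Pool.Agent.R86.GG
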