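import Pool.Agent.R86.GG.Stmts
import Pool.Agent.R86.GG.Graph

/-! `w` is excessive in `x` and depressive in `y`. -/

open MeasureTheory ProbabilityTheory Set Filter Topology
open scoped NNReal ENNReal

namespace Pool.Agent.R86.GG

namespace ExcD

variable {X Y : Type} [MetricSpace X] [CompactSpace X] [MeasurableSpace X] [BorelSpace X]
    [MetricSpace Y] [CompactSpace Y] [MeasurableSpace Y] [BorelSpace Y]

theorem lip_left {K : ℝ≥0} {w : X × Y → ℝ} (hw : LipschitzWith K w) (y : Y) :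
    LipschitzWith K fun a => w (a, y) := by
  have := hw.comp (LipschitzWith.prodMk_right y)
  rw [mul_one] at this
  exact this

theorem lip_right {K : ℝ≥0} {w : X × Y → ℝ} (hw : LipschitzWith K w) (x : X) :
    LipschitzWith K fun b => w (x, b) := by
  have := hw.comp (LipschitzWith.prodMk_left x)
  rw [mul_one] at this
  exact this

theorem int_lip_left {K : ℝ≥0} {w : X × Y → ℝ} (hw : LipschitzWith K w)
    (q : ProbabilityMeasure Y) : LipschitzWith K fun a => ∫ b, w (a, b) ∂(q : Measure Y) := by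
  refine LipschitzWith.of_dist_le_mul fun a a' => ?_
  rw [Real.dist_eq, ← integral_sub (integrable_of_cont (lip_right hw a).continuous q)
    (integrable_of_cont (lip_right hw a').continuous q)]
  have hc : Continuous fun b => w (a, b) - w (a', b) :=
    (lip_right hw a).continuous.sub (lip_right hw a').continuous
  have hb : ∀ b, |w (a, b) - w (a', b)| ≤ K * dist a a' := by
    intro b
    have := (lip_left hw b).dist_le_mul a a'
    rwa [Real.dist_eq] at this
  rw [abs_le]
  exact ⟨le_int_of_le hc (fun z => (abs_le.1 (hb z)).1) q,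
    int_le_of_le hc (fun z => (abs_le.1 (hb z)).2) q⟩

theorem int_lip_right {K : ℝ≥0} {w : X × Y → ℝ} (hw : LipschitzWith K w)
    (p : ProbabilityMeasure X) : LipschitzWith K fun b => ∫ a, w (a, b) ∂(p : Measure X) := by
  refine LipschitzWith.of_dist_le_mul fun a a' => ?_
  rw [Real.dist_eq, ← integral_sub (integrable_of_cont (lip_left hw a).continuous p)
    (integrable_of_cont (lip_left hw a').continuous p)]
  have hc : Continuous fun b => w (b, a) - w (b, a') :=
    (lip_left hw a).continuous.sub (lip_left hw a').continuous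
  have hb : ∀ b, |w (b, a) - w (b, a')| ≤ K * dist a a' := by
    intro b
    have := (lip_right hw b).dist_le_mul a a'
    rwa [Real.dist_eq] at this
  rw [abs_le]
  exact ⟨le_int_of_le hc (fun z => (abs_le.1 (hb z)).1) p,
    int_le_of_le hc (fun z => (abs_le.1 (hb z)).2) p⟩

/-- Joint continuity of the integral. -/
theorem cont_joint {K : ℝ≥0} {w : X × Y → ℝ} (hw : LipschitzWith K w) :
    Continuous fun z : ProbabilityMeasure X × Y => ∫ a, w (a, z.2) ∂(z.1 : Measure X) := by
  rw [continuous_iff_continuousAt]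
  rintro ⟨p0, y0⟩
  have h1 : Tendsto (fun z : ProbabilityMeasure X × Y => ∫ a, w (a, y0) ∂(z.1 : Measure X))
      (𝓝 (p0, y0)) (𝓝 (∫ a, w (a, y0) ∂(p0 : Measure X))) :=
    ((cont_int (lip_left hw y0).continuous).comp continuous_fst).tendsto (p0, y0)
  have h2 : Tendsto (fun z : ProbabilityMeasure X × Y =>
      ∫ a, w (a, z.2) ∂(z.1 : Measure X) - ∫ a, w (a, y0) ∂(z.1 : Measure X))
      (𝓝 (p0, y0)) (𝓝 0) := by
    have h3 : Tendsto (fun z : ProbabilityMeasure X × Y => (K : ℝ) * dist z.2 y0)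
        (𝓝 (p0, y0)) (𝓝 0) := by
      have hc : Continuous fun z : ProbabilityMeasure X × Y => (K : ℝ) * dist z.2 y0 := by
        fun_prop
      have := hc.tendsto (p0, y0)
      simpa using this
    refine squeeze_zero_norm' (Eventually.of_forall fun z => ?_) h3
    rw [Real.norm_eq_abs, ← Real.dist_eq]
    exact (int_lip_right hw z.1).dist_le_mul z.2 y0
  have h4 := h1.add h2
  simp only [add_zero, add_sub_cancel] at h4
  exact h4

theorem fubini {K : ℝ≥0} {w : X × Y → ℝ} (hw : LipschitzWith K w) (p : ProbabilityMeasure X)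
    (q : ProbabilityMeasure Y) :
    ∫ a, (∫ b, w (a, b) ∂(q : Measure Y)) ∂(p : Measure X) =
      ∫ b, (∫ a, w (a, b) ∂(p : Measure X)) ∂(q : Measure Y) := by
  refine integral_integral_swap (f := fun a b => w (a, b)) ?_
  exact hw.continuous.integrable_of_hasCompactSupport (HasCompactSupport.of_compactSpace _)

theorem exists_max [Nonempty X] [Nonempty Y] {Γ : X → Set (ProbabilityMeasure X)}
    (hΓ : IsHouse Γ) {K : ℝ≥0} {w : X × Y → ℝ} (hw : LipschitzWith K w) :
    ∃ D : ℝ, (∀ x y, ∀ p ∈ Γ x, ∫ a, w (a, y) ∂(p : Measure X) - w (x, y) ≤ D) ∧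
      ∃ x y, ∃ p ∈ Γ x, D ≤ ∫ a, w (a, y) ∂(p : Measure X) - w (x, y) := by
  have hc : Continuous fun z : (X × ProbabilityMeasure X) × Y =>
      ∫ a, w (a, z.2) ∂(z.1.2 : Measure X) - w (z.1.1, z.2) :=
    ((cont_joint hw).comp (g := fun z : ProbabilityMeasure X × Y =>
      ∫ a, w (a, z.2) ∂(z.1 : Measure X))
      (f := fun z : (X × ProbabilityMeasure X) × Y => (z.1.2, z.2)) (by fun_prop)).sub
      (hw.continuous.comp (by fun_prop))
  have hcl : IsClosed {z : (X × ProbabilityMeasure X) × Y | z.1.2 ∈ Γ z.1.1} :=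
    (isClosed_graph hΓ).preimage continuous_fst
  obtain ⟨x0⟩ := ‹Nonempty X›
  obtain ⟨y0⟩ := ‹Nonempty Y›
  obtain ⟨z, hz, hmax⟩ := hcl.isCompact.exists_isMaxOn
    ⟨((x0, diracProba x0), y0), hΓ.leavable x0⟩ hc.continuousOn
  refine ⟨∫ a, w (a, z.2) ∂(z.1.2 : Measure X) - w (z.1.1, z.2), fun x y p hp => ?_,
    z.1.1, z.2, z.1.2, hz, le_rfl⟩
  exact hmax (show ((x, p), y) ∈ {z : (X × ProbabilityMeasure X) × Y | z.1.2 ∈ Γ z.1.1} from hp)

theorem core (hB : PartB) {Γ : X → Set (ProbabilityMeasure X)}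
    {Λ : Y → Set (ProbabilityMeasure Y)} (hΓ : IsHouse Γ) (hsa : StronglyAcyclic Γ)
    {K : ℝ≥0} {w : X × Y → ℝ} (hw : LipschitzWith K w)
    (one : ∀ x y, ∀ p ∈ Γ x, ∃ q ∈ Λ y,
      ∫ a, (∫ b, w (a, b) ∂(q : Measure Y)) ∂(p : Measure X) ≤ w (x, y))
    (two : ∀ x y, ∀ q ∈ Λ y, ∃ p ∈ Γ x,
      w (x, y) ≤ ∫ a, (∫ b, w (a, b) ∂(q : Measure Y)) ∂(p : Measure X))
    {D : ℝ} (h1 : ∀ x y, ∀ p ∈ Γ x, ∫ a, w (a, y) ∂(p : Measure X) - w (x, y) ≤ D)
    (h2 : ∀ x y, ∀ q ∈ Λ y, w (x, y) - ∫ b, w (x, b) ∂(q : Measure Y) ≤ D)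
    (hatt : ∃ x y, ∃ p ∈ Γ x, D ≤ ∫ a, w (a, y) ∂(p : Measure X) - w (x, y)) : D ≤ 0 := by
  by_contra hD
  push Not at hD
  have hc : Continuous fun z : (X × ProbabilityMeasure X) × Y =>
      ∫ a, w (a, z.2) ∂(z.1.2 : Measure X) - w (z.1.1, z.2) :=
    ((cont_joint hw).comp (g := fun z : ProbabilityMeasure X × Y =>
      ∫ a, w (a, z.2) ∂(z.1 : Measure X))
      (f := fun z : (X × ProbabilityMeasure X) × Y => (z.1.2, z.2)) (by fun_prop)).sub
      (hw.continuous.comp (by fun_prop))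
  set S : Set ((X × ProbabilityMeasure X) × Y) := {z | z.1.2 ∈ Γ z.1.1 ∧
    D ≤ ∫ a, w (a, z.2) ∂(z.1.2 : Measure X) - w (z.1.1, z.2)} with hS
  have hScl : IsClosed S :=
    ((isClosed_graph hΓ).preimage continuous_fst).inter (isClosed_le continuous_const hc)
  have hCcl : IsClosed (Prod.fst '' S) := isClosedMap_fst_of_compactSpace S hScl
  have hCmem : ∀ z ∈ Prod.fst '' S, z.2 ∈ Rset Γ z.1 ∧ z.2 ≠ diracProba z.1 := by
    rintro _ ⟨⟨⟨x, p⟩, y⟩, ⟨hz1, hz2⟩, rfl⟩
    refine ⟨fun f hf => hf.2 x p hz1, fun heq => ?_⟩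
    simp only at heq hz2
    rw [heq, int_dirac (g := fun a => w (a, y))] at hz2
    linarith
  obtain ⟨F, ⟨⟨L, hFL⟩, hFex⟩, η, hη, hF⟩ := hB X Γ hΓ hsa _ hCcl hCmem
  have hne : (Prod.fst '' S).Nonempty := by
    obtain ⟨x, y, p, hp, hd⟩ := hatt
    exact ⟨(x, p), ((x, p), y), ⟨hp, hd⟩, rfl⟩
  obtain ⟨z0, hz0, hmin⟩ := hCcl.isCompact.exists_isMinOn hne
    (hFL.continuous.comp continuous_fst).continuousOn
  have hmin' : ∀ x y, ∀ p ∈ Γ x, D ≤ ∫ a, w (a, y) ∂(p : Measure X) - w (x, y) →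
      F z0.1 ≤ F x := by
    intro x y p hp hd
    exact hmin (show (x, p) ∈ Prod.fst '' S from ⟨((x, p), y), ⟨hp, hd⟩, rfl⟩)
  have hFz0 := hF z0 hz0
  obtain ⟨⟨⟨xs, ps⟩, ys⟩, ⟨hps, hds⟩, rfl⟩ := hz0
  simp only at hps hds hmin' hFz0
  obtain ⟨q, hq, hq1⟩ := one xs ys ps hps
  -- the integrand
  have hψc : Continuous fun a => w (a, ys) - ∫ b, w (a, b) ∂(q : Measure Y) :=
    (lip_left hw ys).continuous.sub (int_lip_left hw q).continuous
  have hψle : ∀ a, w (a, ys) - ∫ b, w (a, b) ∂(q : Measure Y) ≤ D := fun a => h2 a ys q hq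
  have hψint : D ≤ ∫ a, (w (a, ys) - ∫ b, w (a, b) ∂(q : Measure Y)) ∂(ps : Measure X) := by
    rw [integral_sub (integrable_of_cont (lip_left hw ys).continuous ps)
      (integrable_of_cont (int_lip_left hw q).continuous ps)]
    linarith
  have hzero : (fun a => D - (w (a, ys) - ∫ b, w (a, b) ∂(q : Measure Y))) =ᵐ[(ps : Measure X)]
      0 := by
    have hc' : Continuous fun a => D - (w (a, ys) - ∫ b, w (a, b) ∂(q : Measure Y)) :=
      continuous_const.sub hψc
    have hnn : 0 ≤ fun a => D - (w (a, ys) - ∫ b, w (a, b) ∂(q : Measure Y)) := by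
      intro a
      have := hψle a
      simp only [Pi.zero_apply]
      linarith
    rw [← integral_eq_zero_iff_of_nonneg hnn (integrable_of_cont hc' ps)]
    refine le_antisymm ?_ (integral_nonneg hnn)
    rw [integral_sub (integrable_const D) (integrable_of_cont hψc ps)]
    simp only [integral_const, probReal_univ, smul_eq_mul, one_mul]
    linarith
  have hFae : ∀ᵐ a ∂(ps : Measure X), F xs ≤ F a := by
    filter_upwards [hzero] with a ha
    simp only [Pi.zero_apply] at ha
    obtain ⟨p', hp', hp1⟩ := two a ys q hq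
    rw [fubini hw p' q] at hp1
    have hχc : Continuous fun b => ∫ a', w (a', b) ∂(p' : Measure X) - w (a, b) :=
      (int_lip_right hw p').continuous.sub (lip_right hw a).continuous
    obtain ⟨b, hb⟩ := exists_integral_le (integrable_of_cont hχc q)
    rw [integral_sub (integrable_of_cont (int_lip_right hw p').continuous q)
      (integrable_of_cont (lip_right hw a).continuous q)] at hb
    exact hmin' a b p' hp' (by linarith)
  have hfin : F xs ≤ ∫ a, F a ∂(ps : Measure X) := by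
    have := integral_mono_ae (integrable_const (F xs)) (integrable_of_cont hFL.continuous ps) hFae
    simpa using this
  linarith

end ExcD

open ExcD in
theorem partD (hB : PartB) : PartD := by
  intro X Y _ _ _ _ _ _ _ _ Γ Λ hΓ hΛ hsaΓ hsaΛ u w hsol
  obtain ⟨K, hw⟩ := hsol.lip
  by_cases hX : Nonempty X
  swap
  · have hE : IsEmpty X := not_nonempty_iff.1 hX
    exact ⟨fun x => hE.elim x, fun x => hE.elim x⟩
  by_cases hY : Nonempty Y
  swap
  · have hE : IsEmpty Y := not_nonempty_iff.1 hY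
    exact ⟨fun _ y => hE.elim y, fun _ y => hE.elim y⟩
  -- the swapped game
  have hw' : LipschitzWith K (fun z : Y × X => - w (z.2, z.1)) := by
    refine LipschitzWith.of_dist_le_mul fun z z' => ?_
    have := hw.dist_le_mul (z.2, z.1) (z'.2, z'.1)
    rw [Real.dist_eq] at this ⊢
    rw [neg_sub_neg, abs_sub_comm]
    refine this.trans_eq ?_
    rw [Prod.dist_eq, Prod.dist_eq, max_comm]
  obtain ⟨D1, hD1, hatt1⟩ := exists_max (Y := Y) hΓ hw
  obtain ⟨D2, hD2, hatt2⟩ := exists_max (X := Y) (Y := X) hΛ hw'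
  have hD2' : ∀ x y, ∀ q ∈ Λ y, w (x, y) - ∫ b, w (x, b) ∂(q : Measure Y) ≤ D2 := by
    intro x y q hq
    have := hD2 y x q hq
    simp only [integral_neg] at this
    linarith
  have hfin : D1 ≤ 0 ∧ D2 ≤ 0 := by
    rcases le_total D2 D1 with h | h
    · have h0 := core hB hΓ hsaΓ hw hsol.one hsol.two hD1
        (fun x y q hq => (hD2' x y q hq).trans h) hatt1
      exact ⟨h0, h.trans h0⟩
    · have h0 := core (X := Y) (Y := X) hB hΛ hsaΛ hw' (Λ := Γ) (D := D2) ?_ ?_ hD2 ?_ hatt2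
      · exact ⟨h.trans h0, h0⟩
      · intro y x q hq
        obtain ⟨p, hp, h1⟩ := hsol.two x y q hq
        refine ⟨p, hp, ?_⟩
        rw [fubini hw p q] at h1
        simp only [integral_neg]
        linarith
      · intro y x p hp
        obtain ⟨q, hq, h1⟩ := hsol.one x y p hp
        refine ⟨q, hq, ?_⟩
        rw [fubini hw p q] at h1
        simp only [integral_neg]
        linarith
      · intro y x p hp
        have := hD1 x y p hp
        simp only [integral_neg]
        linarith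
  constructor
  · intro x y p hp
    have := hD1 x y p hp
    linarith [hfin.1]
  · intro x y q hq
    have := hD2' x y q hq
    linarith [hfin.2]

end Pool.Agent.R86.GG
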