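import Pool.Agent.R86.GG.Stmts

/-! Part E: scalar reachability. -/

open MeasureTheory ProbabilityTheory Set Filter Topology
open scoped NNReal

namespace Pool.Agent.R86.GG

theorem partE_integrable {X : Type} [MetricSpace X] [CompactSpace X] [MeasurableSpace X]
    [BorelSpace X] {f : X → ℝ} (hf : Continuous f) (p : ProbabilityMeasure X) :
    Integrable f (p : Measure X) :=
  hf.integrable_of_hasCompactSupport (HasCompactSupport.of_compactSpace f)

theorem partE : PartE := by
  intro X Y _ _ _ _ _ _ _ _ Γ Λ hΓ hΛ K u w hu hw y θ hθ0 hθ1 h hh hle x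
  obtain ⟨⟨Kh, hKh⟩, hexc⟩ := hh
  obtain ⟨Kw, hKw⟩ := hw.lip
  refine le_of_forall_pos_le_add fun ε2 hε2 => ?_
  set ε := ε2 / 2 with hε
  have hε0 : 0 < ε := by positivity
  obtain ⟨f, hf, hfw, lam, hl0, hl1, hf1, -⟩ := hw.appr ε hε0
  have hcf : Continuous fun a : X => f (a, y) := hf.comp (Continuous.prodMk_left y)
  have hcφ : Continuous fun a : X => f (a, y) - h a := hcf.sub hKh.continuous
  obtain ⟨x0, -, hx0⟩ := isCompact_univ.exists_isMaxOn (s := (univ : Set X)) ⟨x, mem_univ _⟩
    hcφ.continuousOn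
  have hmax : ∀ a, f (a, y) - h a ≤ f (x0, y) - h x0 := fun a => hx0 (mem_univ a)
  obtain ⟨p, hp, hfp⟩ := hf1 x0 y
  have h1 : ∫ a, f (a, y) ∂(p : Measure X) ≤ ∫ a, (h a + (f (x0, y) - h x0)) ∂(p : Measure X) := by
    refine integral_mono (partE_integrable hcf p)
      ((partE_integrable hKh.continuous p).add (integrable_const _)) fun a => ?_
    have := hmax a
    simp only
    linarith
  rw [integral_add (partE_integrable hKh.continuous p) (integrable_const _)] at h1
  simp only [integral_const, probReal_univ, smul_eq_mul, one_mul] at h1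
  have h2 := hexc x0 p hp
  have h3 : ∫ a, f (a, y) ∂(p : Measure X) ≤ f (x0, y) := by linarith
  have h4 : f (x0, y) ≤ u (x0, y) := by
    have h5 : (1 - lam) * ∫ a, f (a, y) ∂(p : Measure X) ≤ (1 - lam) * f (x0, y) :=
      mul_le_mul_of_nonneg_left h3 (by linarith)
    have h6 : lam * f (x0, y) ≤ lam * u (x0, y) := by linarith
    exact le_of_mul_le_mul_left h6 hl0
  have h7 : f (x0, y) - h x0 ≤ ε := by
    have h8 := hle x0
    have h9 := abs_le.1 (hfw (x0, y))
    have h10 : θ * f (x0, y) ≤ θ * u (x0, y) := mul_le_mul_of_nonneg_left h4 hθ0.le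
    have h11 : (1 - θ) * (f (x0, y) - w (x0, y)) ≤ 1 * ε := by
      have h12 : f (x0, y) - w (x0, y) ≤ ε := h9.2
      calc (1 - θ) * (f (x0, y) - w (x0, y)) ≤ (1 - θ) * ε :=
            mul_le_mul_of_nonneg_left h12 (by linarith)
        _ ≤ 1 * ε := mul_le_mul_of_nonneg_right (by linarith) hε0.le
    nlinarith
  have h13 := abs_le.1 (hfw (x, y))
  have h14 := hmax x
  have h15 : ε2 = ε + ε := by rw [hε]; ring
  linarith

end Pool.Agent.R86.GG
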