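import Pool.Agent.R86.GG.Stmts
import Pool.Agent.R86.GG.Graph

/-! Continuous approximately optimal selections. -/

open MeasureTheory ProbabilityTheory Set Filter Topology
open scoped NNReal ENNReal

namespace Pool.Agent.R86.GG

namespace SelF

variable {X : Type} [MetricSpace X] [CompactSpace X] [MeasurableSpace X] [BorelSpace X]

/-- A countable dense family of continuous functions, normalised. -/
noncomputable def fs (X : Type) [MetricSpace X] [CompactSpace X] [Nonempty X] (k : ℕ) : X → ℝ :=
  fun x => (1 + ‖TopologicalSpace.denseSeq C(X, ℝ) k‖)⁻¹ * (TopologicalSpace.denseSeq C(X, ℝ) k) x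

variable [Nonempty X]

theorem fs_cont (k : ℕ) : Continuous (fs X k) := by
  unfold fs
  fun_prop

theorem fs_bound (k : ℕ) (x : X) : |fs X k x| ≤ 1 := by
  unfold fs
  have h0 : (0 : ℝ) < 1 + ‖TopologicalSpace.denseSeq C(X, ℝ) k‖ := by positivity
  rw [abs_mul, abs_of_pos (inv_pos.2 h0), inv_mul_le_iff₀ h0]
  have := (TopologicalSpace.denseSeq C(X, ℝ) k).norm_coe_le_norm x
  rw [Real.norm_eq_abs] at this
  linarith

theorem fs_sep {p q : ProbabilityMeasure X}
    (h : ∀ k, ∫ z, fs X k z ∂(p : Measure X) = ∫ z, fs X k z ∂(q : Measure X)) : p = q := by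
  refine ext_lip fun K f hf => ?_
  have h1 : ∀ k, ∫ z, (TopologicalSpace.denseSeq C(X, ℝ) k) z ∂(p : Measure X) =
      ∫ z, (TopologicalSpace.denseSeq C(X, ℝ) k) z ∂(q : Measure X) := by
    intro k
    have := h k
    unfold fs at this
    rw [integral_const_mul, integral_const_mul] at this
    have h0 : (1 + ‖TopologicalSpace.denseSeq C(X, ℝ) k‖)⁻¹ ≠ 0 := by positivity
    exact mul_left_cancel₀ h0 this
  refine eq_of_forall_dist_le fun ε hε => ?_
  obtain ⟨k, hk⟩ := (TopologicalSpace.denseRange_denseSeq C(X, ℝ)).exists_dist_lt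
    (⟨f, hf.continuous⟩ : C(X, ℝ)) (half_pos hε)
  have hd : ∀ x, |f x - (TopologicalSpace.denseSeq C(X, ℝ) k) x| ≤ ε / 2 := by
    intro x
    have := ContinuousMap.dist_apply_le_dist (f := (⟨f, hf.continuous⟩ : C(X, ℝ)))
      (g := TopologicalSpace.denseSeq C(X, ℝ) k) x
    rw [Real.dist_eq] at this
    exact this.trans hk.le
  have hI : ∀ r : ProbabilityMeasure X,
      |∫ z, f z ∂(r : Measure X) - ∫ z, (TopologicalSpace.denseSeq C(X, ℝ) k) z ∂(r : Measure X)|
      ≤ ε / 2 := by
    intro r
    rw [← integral_sub (integrable_of_cont hf.continuous r)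
      (integrable_of_cont (TopologicalSpace.denseSeq C(X, ℝ) k).continuous r)]
    have hc : Continuous fun z => f z - (TopologicalSpace.denseSeq C(X, ℝ) k) z :=
      hf.continuous.sub (TopologicalSpace.denseSeq C(X, ℝ) k).continuous
    rw [abs_le]
    exact ⟨le_int_of_le hc (fun z => (abs_le.1 (hd z)).1) r,
      int_le_of_le hc (fun z => (abs_le.1 (hd z)).2) r⟩
  rw [Real.dist_eq]
  have h2 := abs_le.1 (hI p)
  have h3 := abs_le.1 (hI q)
  have h4 := h1 k
  rw [abs_le]
  constructor <;> linarith [h2.1, h2.2, h3.1, h3.2]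

/-- The terms of the strictly convex functional. -/
noncomputable def term (p : ProbabilityMeasure X) (k : ℕ) : ℝ :=
  (1 / 2) ^ k * (∫ z, fs X k z ∂(p : Measure X)) ^ 2

theorem int_fs_bound (p : ProbabilityMeasure X) (k : ℕ) :
    |∫ z, fs X k z ∂(p : Measure X)| ≤ 1 := by
  rw [abs_le]
  exact ⟨le_int_of_le (fs_cont k) (fun z => (abs_le.1 (fs_bound k z)).1) p,
    int_le_of_le (fs_cont k) (fun z => (abs_le.1 (fs_bound k z)).2) p⟩

theorem term_nonneg (p : ProbabilityMeasure X) (k : ℕ) : 0 ≤ term p k := by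
  unfold term
  positivity

theorem term_le (p : ProbabilityMeasure X) (k : ℕ) : term p k ≤ (1 / 2) ^ k := by
  unfold term
  have h := int_fs_bound p k
  have h2 : (∫ z, fs X k z ∂(p : Measure X)) ^ 2 ≤ 1 := by
    rw [← sq_abs]
    exact pow_le_one₀ (abs_nonneg _) h
  have h3 : (0 : ℝ) ≤ (1 / 2) ^ k := by positivity
  nlinarith

theorem summable_term (p : ProbabilityMeasure X) : Summable (term p) :=
  Summable.of_nonneg_of_le (term_nonneg p) (term_le p) summable_geometric_two

/-- The strictly convex functional. -/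
noncomputable def J (p : ProbabilityMeasure X) : ℝ := ∑' k, term p k

theorem J_cont : Continuous (J : ProbabilityMeasure X → ℝ) := by
  unfold J
  refine continuous_tsum (u := fun k => (1 / 2 : ℝ) ^ k) (fun k => ?_) summable_geometric_two
    (fun k p => ?_)
  · unfold term
    exact continuous_const.mul ((cont_int (fs_cont k)).pow 2)
  · rw [Real.norm_eq_abs, abs_of_nonneg (term_nonneg p k)]
    exact term_le p k

theorem J_nonneg (p : ProbabilityMeasure X) : 0 ≤ J p := tsum_nonneg (term_nonneg p)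

theorem J_le (p : ProbabilityMeasure X) : J p ≤ 2 := by
  have := (summable_term p).tsum_le_tsum (term_le p) summable_geometric_two
  rw [tsum_geometric_two] at this
  exact this

/-- The midpoint of two probability measures. -/
theorem exists_mid (p q : ProbabilityMeasure X) : ∃ r : ProbabilityMeasure X,
    IsMix (1 / 2) p q r ∧ ∀ f : X → ℝ, Continuous f →
      ∫ z, f z ∂(r : Measure X) =
        (∫ z, f z ∂(p : Measure X) + ∫ z, f z ∂(q : Measure X)) / 2 := by
  have hm : IsProbabilityMeasure (ENNReal.ofReal (1 / 2) • (p : Measure X) +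
      ENNReal.ofReal (1 - 1 / 2) • (q : Measure X)) := by
    constructor
    simp only [Measure.add_apply, Measure.smul_apply, measure_univ, smul_eq_mul, mul_one]
    rw [← ENNReal.ofReal_add (by norm_num) (by norm_num)]
    norm_num
  refine ⟨⟨_, hm⟩, rfl, fun f hf => ?_⟩
  show ∫ z, f z ∂(ENNReal.ofReal (1 / 2) • (p : Measure X) +
      ENNReal.ofReal (1 - 1 / 2) • (q : Measure X)) = _
  rw [integral_add_measure ((integrable_of_cont hf p).smul_measure ENNReal.ofReal_ne_top)
    ((integrable_of_cont hf q).smul_measure ENNReal.ofReal_ne_top), integral_smul_measure,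
    integral_smul_measure, ENNReal.toReal_ofReal (by norm_num), ENNReal.toReal_ofReal (by norm_num),
    smul_eq_mul, smul_eq_mul]
  ring

theorem J_strict {p q r : ProbabilityMeasure X} (hpq : p ≠ q)
    (hr : ∀ f : X → ℝ, Continuous f → ∫ z, f z ∂(r : Measure X) =
        (∫ z, f z ∂(p : Measure X) + ∫ z, f z ∂(q : Measure X)) / 2) :
    J r < (J p + J q) / 2 := by
  have h1 : ∀ k, term r k = (term p k + term q k) / 2 - (1 / 2) ^ k *
      ((∫ z, fs X k z ∂(p : Measure X) - ∫ z, fs X k z ∂(q : Measure X)) / 2) ^ 2 := by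
    intro k
    unfold term
    rw [hr _ (fs_cont k)]
    ring
  have h2 : ∃ k, ∫ z, fs X k z ∂(p : Measure X) ≠ ∫ z, fs X k z ∂(q : Measure X) := by
    by_contra hcon
    push Not at hcon
    exact hpq (fs_sep hcon)
  obtain ⟨k, hk⟩ := h2
  have h3 : (J p + J q) / 2 = ∑' k, (term p k + term q k) / 2 := by
    unfold J
    rw [← (summable_term p).tsum_add (summable_term q), tsum_div_const]
  rw [h3]
  unfold J
  refine (summable_term r).tsum_lt_tsum (i := k) (fun j => ?_) ?_
    (((summable_term p).add (summable_term q)).div_const 2)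
  · rw [h1 j]
    have : (0 : ℝ) ≤ (1 / 2) ^ j *
      ((∫ z, fs X j z ∂(p : Measure X) - ∫ z, fs X j z ∂(q : Measure X)) / 2) ^ 2 := by positivity
    linarith
  · rw [h1 k]
    have h4 : (∫ z, fs X k z ∂(p : Measure X) - ∫ z, fs X k z ∂(q : Measure X)) / 2 ≠ 0 := by
      intro h
      apply hk
      linarith
    have : (0 : ℝ) < (1 / 2) ^ k *
      ((∫ z, fs X k z ∂(p : Measure X) - ∫ z, fs X k z ∂(q : Measure X)) / 2) ^ 2 := by positivity
    linarith

end SelF

open SelF in
theorem partF : PartF := by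
  intro X _ _ _ _ Γ hΓ K g hg δ hδ
  by_cases hX : Nonempty X
  swap
  · have hE : IsEmpty X := not_nonempty_iff.1 hX
    exact ⟨fun x => hE.elim x, by
      rw [continuous_iff_continuousAt]; exact fun x => hE.elim x,
      fun x => hE.elim x, fun x => hE.elim x⟩
  -- the functional
  set E : ProbabilityMeasure X → ℝ := fun p => -∫ z, g z ∂(p : Measure X) + δ / 2 * J p with hEdef
  have hEc : Continuous E := (cont_int hg.continuous).neg.add (continuous_const.mul J_cont)
  have hex : ∀ x, ∃ p ∈ Γ x, ∀ q ∈ Γ x, E p ≤ E q := by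
    intro x
    obtain ⟨p, hp, hmin⟩ := (hΓ.compact x).exists_isMinOn ⟨_, hΓ.leavable x⟩ hEc.continuousOn
    exact ⟨p, hp, fun q hq => hmin hq⟩
  choose κ hκ hmin using hex
  have huniq : ∀ x, ∀ r ∈ Γ x, E r ≤ E (κ x) → r = κ x := by
    intro x r hr hle
    by_contra hne
    obtain ⟨m, hm, hm'⟩ := exists_mid r (κ x)
    have h1 : m ∈ Γ x := hΓ.convex x r hr (κ x) (hκ x) (1 / 2) ⟨by norm_num, by norm_num⟩ m hm
    have h2 := hmin x m h1
    have h3 := J_strict hne hm'
    have h4 := hm' g hg.continuous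
    simp only [hEdef] at h2 hle
    rw [h4] at h2
    nlinarith
  refine ⟨κ, ?_, hκ, ?_⟩
  · rw [continuous_iff_ultrafilter]
    intro x U hU
    obtain ⟨r, -, hr⟩ := isCompact_univ.ultrafilter_le_nhds' (U.map κ) Filter.univ_mem
    have hr' : Tendsto κ U (𝓝 r) := hr
    have hx : Tendsto (fun z : X => z) U (𝓝 x) := hU
    have hmem : r ∈ Γ x := by
      have h1 : Tendsto (fun z => (z, κ z)) U (𝓝 (x, r)) := hx.prodMk_nhds hr'
      exact (isClosed_graph hΓ).mem_of_tendsto h1 (Eventually.of_forall hκ)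
    -- competitors
    have hcomp : ∀ z, ∃ P ∈ Γ z, ∀ (K : ℝ≥0) (f : X → ℝ), LipschitzWith K f →
        |∫ a, f a ∂(κ x : Measure X) - ∫ a, f a ∂(P : Measure X)| ≤ K * dist x z :=
      fun z => hΓ.nonexp (x' := z) (hκ x)
    choose P hP hP' using hcomp
    have hPlim : Tendsto P U (𝓝 (κ x)) := by
      refine tendsto_of_lip (q := fun _ => κ x) tendsto_const_nhds fun L f hf => ?_
      have h0 : Tendsto (fun z : X => (L : ℝ) * dist x z) U (𝓝 0) := by
        have := (tendsto_iff_dist_tendsto_zero.1 hx).const_mul (L : ℝ)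
        simpa [dist_comm] using this
      refine squeeze_zero_norm' (Eventually.of_forall fun z => ?_) h0
      rw [Real.norm_eq_abs, abs_sub_comm]
      exact hP' z L f hf
    have h1 : Tendsto (fun z => E (κ z)) U (𝓝 (E r)) := (hEc.tendsto r).comp hr'
    have h2 : Tendsto (fun z => E (P z)) U (𝓝 (E (κ x))) := (hEc.tendsto _).comp hPlim
    have h3 : E r ≤ E (κ x) := le_of_tendsto_of_tendsto' h1 h2 fun z => hmin z (P z) (hP z)
    have h4 := huniq x r hmem h3
    rw [h4] at hr'
    exact hr'
  · intro x p hp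
    have h1 := hmin x p hp
    have h2 := J_nonneg (κ x)
    have h3 := J_le p
    simp only [hEdef] at h1
    nlinarith

end Pool.Agent.R86.GG
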