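import Pool.Agent.R86.GG.Stmts
import Pool.Agent.R86.GG.Kern

/-! Part G of MP_555e58_an: finite automata with potential functions (by helper715). -/

set_option maxHeartbeats 400000

open MeasureTheory ProbabilityTheory Set Filter Topology
open scoped NNReal ENNReal

namespace Pool.Agent.R86.GG

namespace G

theorem measurable_snoc {Z : Type} [MeasurableSpace Z] (t : ℕ) :
    Measurable (fun p : (Fin (t + 1) → Z) × Z => (Fin.snoc p.1 p.2 : Fin (t + 1 + 1) → Z)) := by
  rw [measurable_pi_iff]
  intro i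
  refine Fin.lastCases ?_ (fun j => ?_) i
  · simp only [Fin.snoc_last]
    exact measurable_snd
  · simp only [Fin.snoc_castSucc]
    exact (measurable_pi_apply j).comp measurable_fst

theorem measurable_init {Z : Type} [MeasurableSpace Z] (t : ℕ) :
    Measurable (fun h : Fin (t + 1 + 1) → Z => (Fin.init h : Fin (t + 1) → Z)) := by
  rw [measurable_pi_iff]
  intro i
  exact measurable_pi_apply _

/-- The memory before the update at time `t`. -/
def mem {S Z : Type} (s0 : S) (eff : S → Z → S) (nxt : S → S) : (t : ℕ) → (Fin (t + 1) → Z) → S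
  | 0, _ => s0
  | t + 1, h => nxt (eff (mem s0 eff nxt t (Fin.init h : Fin (t + 1) → Z))
      ((Fin.init h : Fin (t + 1) → Z) (Fin.last t)))

theorem mem_snoc {S Z : Type} (s0 : S) (eff : S → Z → S) (nxt : S → S) (t : ℕ)
    (h : Fin (t + 1) → Z) (z : Z) :
    mem s0 eff nxt (t + 1) (Fin.snoc h z : Fin (t + 1 + 1) → Z) =
      nxt (eff (mem s0 eff nxt t h) (h (Fin.last t))) := by
  have h1 : (Fin.init (Fin.snoc h z : Fin (t + 1 + 1) → Z) : Fin (t + 1) → Z) = h :=
    Fin.init_snoc (α := fun _ => Z) z h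
  rw [mem, h1]

theorem measurable_mem {S Z : Type} [MeasurableSpace S] [DiscreteMeasurableSpace S]
    [MeasurableSpace Z] (s0 : S) (eff : S → Z → S) (nxt : S → S)
    (heff : Measurable fun p : S × Z => eff p.1 p.2) (t : ℕ) :
    Measurable (mem s0 eff nxt t) := by
  induction t with
  | zero => exact measurable_const
  | succ t ih =>
    have h1 : Measurable fun h : Fin (t + 1 + 1) → Z =>
        (mem s0 eff nxt t (Fin.init h : Fin (t + 1) → Z),
          (Fin.init h : Fin (t + 1) → Z) (Fin.last t)) :=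
      (ih.comp (measurable_init t)).prodMk (measurable_pi_apply ((Fin.last t).castSucc))
    exact (Measurable.of_discrete (f := nxt)).comp (heff.comp h1)

theorem step {A X Y : Type} [MeasurableSpace A] [MeasurableSpace X] [MeasurableSpace Y]
    (μ : Measure A) [IsProbabilityMeasure μ] (κ : Kernel A X) [IsMarkovKernel κ]
    (η : Kernel A Y) [IsMarkovKernel η] (f : A × (X × Y) → ℝ) (hf : Measurable f) (C : ℝ)
    (hC : ∀ p, |f p| ≤ C) :
    ∫ p, f p ∂(μ ⊗ₘ (κ ×ₖ η)) = ∫ h, (∫ a, (∫ b, f (h, (a, b)) ∂(η h)) ∂(κ h)) ∂μ ∧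
    Integrable (fun h => ∫ a, (∫ b, f (h, (a, b)) ∂(η h)) ∂(κ h)) μ := by
  have hint : Integrable f (μ ⊗ₘ (κ ×ₖ η)) :=
    Integrable.of_bound hf.aestronglyMeasurable C (Eventually.of_forall fun p => by
      rw [Real.norm_eq_abs]; exact hC p)
  have h1 : ∀ h, ∫ p, f (h, p) ∂((κ ×ₖ η) h) = ∫ a, (∫ b, f (h, (a, b)) ∂(η h)) ∂(κ h) := by
    intro h
    rw [Kernel.prod_apply]
    refine integral_prod _ ?_
    exact Integrable.of_bound (hf.comp measurable_prodMk_left).aestronglyMeasurable C
      (Eventually.of_forall fun p => by rw [Real.norm_eq_abs]; exact hC _)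
  constructor
  · rw [Measure.integral_compProd hint]
    exact integral_congr_ae (Eventually.of_forall fun h => h1 h)
  · have h2 : StronglyMeasurable fun h => ∫ p, f (h, p) ∂((κ ×ₖ η) h) :=
      hf.stronglyMeasurable.integral_kernel_prod_right'
    have h3 : (fun h => ∫ a, (∫ b, f (h, (a, b)) ∂(η h)) ∂(κ h)) =
        fun h => ∫ p, f (h, p) ∂((κ ×ₖ η) h) := by
      funext h
      exact (h1 h).symm
    rw [h3]
    refine Integrable.of_bound h2.aestronglyMeasurable C (Eventually.of_forall fun h => ?_)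
    have := norm_integral_le_of_norm_le_const (μ := (κ ×ₖ η) h) (f := fun p => f (h, p)) (C := C)
      (Eventually.of_forall fun p => by rw [Real.norm_eq_abs]; exact hC _)
    simpa using this

end G

open G in
theorem partG : PartG := by
  intro X Y _ _ _ _ _ _ _ _ Γ Λ u hu S _ s0 eff act nxt Q Z ε h1 h2 h3 h4 h5 h6 h7 h8
  let _ : MeasurableSpace S := ⊤
  have _ : DiscreteMeasurableSpace S := ⟨fun _ => trivial⟩
  have heff : Measurable fun p : S × (X × Y) => eff p.1 p.2 := by
    refine measurable_from_prod_countable_right fun s => ?_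
    exact measurable_to_countable' fun c => h1 s c
  have hmem := measurable_mem s0 eff nxt heff
  have hc : ∀ t, Measurable fun h : Fin (t + 1) → X × Y =>
      eff (mem s0 eff nxt t h) (h (Fin.last t)) := fun t =>
    heff.comp ((hmem t).prodMk (measurable_pi_apply _))
  have hact : Measurable fun p : S × X => (act p.1 p.2 : Measure X) :=
    measurable_from_prod_countable_right fun s => measurable_of_cont_kern (h2 s)
  let σ : Strat X Y Prod.fst Γ :=
    { k := fun t => ⟨fun h => (act (eff (mem s0 eff nxt t h) (h (Fin.last t)))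
        (h (Fin.last t)).1 : Measure X),
        hact.comp ((hc t).prodMk (measurable_fst.comp (measurable_pi_apply _)))⟩
      markov := fun t => ⟨fun h => (act (eff (mem s0 eff nxt t h) (h (Fin.last t)))
        (h (Fin.last t)).1).2⟩
      mem := fun t h => ⟨_, h3 _ _, rfl⟩ }
  refine ⟨σ, fun τ z n => ?_⟩
  have hσ : ∀ t, IsMarkovKernel (σ.k t) := σ.markov
  have hτ : ∀ t, IsMarkovKernel (τ.k t) := τ.markov
  have hprob : ∀ t, IsProbabilityMeasure (law σ τ z t) := by
    intro t
    induction t with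
    | zero => exact Measure.dirac.isProbabilityMeasure
    | succ t ih =>
      have := ih
      exact Measure.isProbabilityMeasure_map (measurable_snoc t).aemeasurable
  -- bounds
  have hbd : ∀ P : S → X × Y → ℝ, (∀ s, Continuous (P s)) → ∃ C, ∀ s z, |P s z| ≤ C := by
    intro P hP
    choose C hC0 hC using fun s => exists_bound (hP s)
    have := Fintype.ofFinite S
    refine ⟨∑ s, C s, fun s z => (hC s z).trans ?_⟩
    exact Finset.single_le_sum (fun s _ => hC0 s) (Finset.mem_univ s)
  have hPm : ∀ P : S → X × Y → ℝ, (∀ s, Continuous (P s)) →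
      Measurable fun p : S × (X × Y) => P p.1 p.2 := fun P hP =>
    measurable_from_prod_countable_right fun s => (hP s).measurable
  have key : ∀ P : S → X × Y → ℝ, (∀ s, Continuous (P s)) → ∀ t,
      Integrable (fun h => P (mem s0 eff nxt t h) (h (Fin.last t))) (law σ τ z t) ∧
      Integrable (fun h => ∫ a, (∫ b, P (nxt (eff (mem s0 eff nxt t h) (h (Fin.last t)))) (a, b)
        ∂(τ.k t h)) ∂(σ.k t h)) (law σ τ z t) ∧
      ∫ h, P (mem s0 eff nxt (t + 1) h) (h (Fin.last (t + 1))) ∂(law σ τ z (t + 1)) =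
        ∫ h, (∫ a, (∫ b, P (nxt (eff (mem s0 eff nxt t h) (h (Fin.last t)))) (a, b)
        ∂(τ.k t h)) ∂(σ.k t h)) ∂(law σ τ z t) := by
    intro P hP t
    obtain ⟨C, hC⟩ := hbd P hP
    have := hprob t
    have hm1 : ∀ t, Measurable fun h : Fin (t + 1) → X × Y =>
        P (mem s0 eff nxt t h) (h (Fin.last t)) := fun t =>
      (hPm P hP).comp ((hmem t).prodMk (measurable_pi_apply _))
    have hm2 : Measurable fun p : (Fin (t + 1) → X × Y) × (X × Y) =>
        P (nxt (eff (mem s0 eff nxt t p.1) (p.1 (Fin.last t)))) p.2 :=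
      (hPm P hP).comp ((((Measurable.of_discrete (f := nxt)).comp (hc t)).comp
        measurable_fst).prodMk measurable_snd)
    have hs := step (law σ τ z t) (σ.k t) (τ.k t) _ hm2 C (fun p => hC _ _)
    refine ⟨?_, hs.2, ?_⟩
    · exact Integrable.of_bound (hm1 t).aestronglyMeasurable C (Eventually.of_forall fun h => by
        rw [Real.norm_eq_abs]; exact hC _ _)
    · have e1 : law σ τ z (t + 1) = ((law σ τ z t) ⊗ₘ (σ.k t ×ₖ τ.k t)).map
        (fun p => (Fin.snoc p.1 p.2 : Fin (t + 1 + 1) → X × Y)) := rfl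
      rw [e1, integral_map (measurable_snoc t).aemeasurable (hm1 (t + 1)).aestronglyMeasurable,
        ← hs.1]
      refine integral_congr_ae (Eventually.of_forall fun p => ?_)
      simp only [mem_snoc, Fin.snoc_last]
  have hkey2 : ∀ t (h : Fin (t + 1) → X × Y), ∃ q ∈ Λ (h (Fin.last t)).2,
      (q : Measure Y) = τ.k t h := τ.mem
  -- `Q` increases
  set EQ : ℕ → ℝ := fun t => ∫ h, Q (mem s0 eff nxt t h) (h (Fin.last t)) ∂(law σ τ z t) with hEQ
  set EZ : ℕ → ℝ := fun t => ∫ h, Z (mem s0 eff nxt t h) (h (Fin.last t)) ∂(law σ τ z t) with hEZ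
  have hQ : ∀ t, EQ t ≤ EQ (t + 1) := by
    intro t
    obtain ⟨i1, i2, i3⟩ := key Q h4 t
    simp only [hEQ]
    rw [i3]
    refine integral_mono i1 i2 fun h => ?_
    obtain ⟨q, hq, hq2⟩ := hkey2 t h
    have := h7 (mem s0 eff nxt t h) (h (Fin.last t)).1 (h (Fin.last t)).2 q hq
    rw [hq2] at this
    exact this
  have hQ0 : EQ 0 = Q s0 z := by
    have hm : Measurable fun h : Fin (0 + 1) → X × Y => Q (mem s0 eff nxt 0 h) (h (Fin.last 0)) :=
      (hPm Q h4).comp ((hmem 0).prodMk (measurable_pi_apply _))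
    exact integral_dirac' _ _ hm.stronglyMeasurable
  have hZ0 : EZ 0 = Z s0 z := by
    have hm : Measurable fun h : Fin (0 + 1) → X × Y => Z (mem s0 eff nxt 0 h) (h (Fin.last 0)) :=
      (hPm Z h5).comp ((hmem 0).prodMk (measurable_pi_apply _))
    exact integral_dirac' _ _ hm.stronglyMeasurable
  have hQt : ∀ t, Q s0 z ≤ EQ t := by
    intro t
    rw [← hQ0]
    exact monotone_nat_of_le_succ hQ (Nat.zero_le t)
  have hu' : ∀ t, Integrable (fun h : Fin (t + 1) → X × Y => u (h (Fin.last t)))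
      (law σ τ z t) := fun t => (key (fun _ => u) (fun _ => hu) t).1
  have hstep : ∀ t, EQ t - ε ≤ ∫ h, u (h (Fin.last t)) ∂(law σ τ z t) + (EZ t - EZ (t + 1)) := by
    intro t
    have := hprob t
    obtain ⟨i1, i2, i3⟩ := key Q h4 t
    obtain ⟨j1, j2, j3⟩ := key Z h5 t
    simp only [hEQ, hEZ]
    have e2 : ∫ h, u (h (Fin.last t)) ∂(law σ τ z t) +
        (∫ h, Z (mem s0 eff nxt t h) (h (Fin.last t)) ∂(law σ τ z t) -
        ∫ h, (∫ a, (∫ b, Z (nxt (eff (mem s0 eff nxt t h) (h (Fin.last t)))) (a, b)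
        ∂(τ.k t h)) ∂(σ.k t h)) ∂(law σ τ z t)) =
        ∫ h, (u (h (Fin.last t)) + (Z (mem s0 eff nxt t h) (h (Fin.last t)) -
        (∫ a, (∫ b, Z (nxt (eff (mem s0 eff nxt t h) (h (Fin.last t)))) (a, b)
        ∂(τ.k t h)) ∂(σ.k t h)))) ∂(law σ τ z t) := by
      rw [← integral_sub j1 j2]
      exact (integral_add (hu' t) (j1.sub j2)).symm
    rw [j3, e2]
    have e : ∫ h, Q (mem s0 eff nxt t h) (h (Fin.last t)) ∂(law σ τ z t) - ε =
        ∫ h, (Q (mem s0 eff nxt t h) (h (Fin.last t)) - ε) ∂(law σ τ z t) := by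
      rw [integral_sub i1 (integrable_const ε)]
      simp
    rw [e]
    refine integral_mono (i1.sub (integrable_const ε)) ((hu' t).add (j1.sub j2)) fun h => ?_
    obtain ⟨q, hq, hq2⟩ := hkey2 t h
    have := h8 (mem s0 eff nxt t h) (h (Fin.last t)).1 (h (Fin.last t)).2 q hq
    rw [hq2] at this
    exact this
  have hsum : ∀ n : ℕ, n * (Q s0 z - ε) ≤
      ∑ t ∈ Finset.range n, ∫ h, u (h (Fin.last t)) ∂(law σ τ z t) + (EZ 0 - EZ n) := by
    intro n
    induction n with
    | zero => simp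
    | succ n ih =>
      rw [Finset.sum_range_succ]
      have h1 := hstep n
      have h2 := hQt n
      push_cast
      linarith
  have hZn : 0 ≤ EZ n := integral_nonneg fun h => h6 _ _
  have := hsum n
  rw [hZ0] at this
  linarith

end Pool.Agent.R86.GG
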