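import Pool.Agent.R86.GG.Stmts

/-! Part I: swapping the players. -/

open MeasureTheory ProbabilityTheory Set Filter Topology
open scoped NNReal ENNReal

set_option linter.unusedSectionVars false

namespace Pool.Agent.R86.GG

theorem measurable_snocI (t : ℕ) (A : Type) [MeasurableSpace A] :
    Measurable (fun p : (Fin (t + 1) → A) × A => (Fin.snoc p.1 p.2 : Fin (t + 1 + 1) → A)) := by
  rw [measurable_pi_iff]
  intro i
  refine Fin.lastCases ?_ (fun j => ?_) i
  · simp only [Fin.snoc_last]
    exact measurable_snd
  · simp only [Fin.snoc_castSucc]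
    exact (measurable_pi_apply j).comp measurable_fst

section swap

variable {X Y : Type} [MetricSpace X] [MeasurableSpace X] [BorelSpace X]
  [MetricSpace Y] [MeasurableSpace Y] [BorelSpace Y]

/-- The relabelling of the histories. -/
def swI (X Y : Type) [MeasurableSpace X] [MeasurableSpace Y] (t : ℕ) :
    (Fin (t + 1) → X × Y) ≃ᵐ (Fin (t + 1) → Y × X) :=
  MeasurableEquiv.piCongrRight fun _ => MeasurableEquiv.prodComm

theorem swI_apply (t : ℕ) (h : Fin (t + 1) → X × Y) (i : Fin (t + 1)) :
    swI X Y t h i = ((h i).2, (h i).1) := rfl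

theorem swI_swI (t : ℕ) (h : Fin (t + 1) → X × Y) : swI Y X t (swI X Y t h) = h := rfl

/-- Relabelling of a strategy of Player 1. -/
noncomputable def stratI {Λ : Y → Set (ProbabilityMeasure Y)} (σ : Strat Y X Prod.fst Λ) :
    Strat X Y Prod.snd Λ where
  k t := (σ.k t).comap (swI X Y t) (swI X Y t).measurable
  markov t := by
    have := σ.markov t
    infer_instance
  mem t h := by
    obtain ⟨p, hp, hpk⟩ := σ.mem t (swI X Y t h)
    exact ⟨p, hp, hpk⟩

theorem partI_law_prob {Γ : X → Set (ProbabilityMeasure X)} {Λ : Y → Set (ProbabilityMeasure Y)}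
    (σ : Strat X Y Prod.fst Γ) (τ : Strat X Y Prod.snd Λ) (z : X × Y) (t : ℕ) :
    IsProbabilityMeasure (law σ τ z t) := by
  induction t with
  | zero =>
    show IsProbabilityMeasure (Measure.dirac _)
    infer_instance
  | succ t ih =>
    have := σ.markov t
    have := τ.markov t
    show IsProbabilityMeasure (((law σ τ z t) ⊗ₘ (σ.k t ×ₖ τ.k t)).map
      (fun p => (Fin.snoc p.1 p.2 : Fin (t + 1 + 1) → X × Y)))
    exact Measure.isProbabilityMeasure_map (measurable_snocI t (X × Y)).aemeasurable

theorem partI_law_swap {Γ : X → Set (ProbabilityMeasure X)} {Λ : Y → Set (ProbabilityMeasure Y)}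
    (σ : Strat Y X Prod.fst Λ) (τ : Strat X Y Prod.fst Γ) (z : X × Y) (t : ℕ) :
    law σ (stratI τ) (z.2, z.1) t = (law τ (stratI σ) z t).map (swI X Y t) := by
  induction t with
  | zero =>
    show Measure.dirac (fun _ => (z.2, z.1)) = (Measure.dirac (fun _ => z)).map (swI X Y 0)
    rw [Measure.map_dirac' (swI X Y 0).measurable]
    rfl
  | succ t ih =>
    have := σ.markov t
    have := τ.markov t
    have := (stratI σ).markov t
    have := (stratI τ).markov t
    have := partI_law_prob τ (stratI σ) z t
    show ((law σ (stratI τ) (z.2, z.1) t) ⊗ₘ (σ.k t ×ₖ (stratI τ).k t)).map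
        (fun p => (Fin.snoc p.1 p.2 : Fin (t + 1 + 1) → Y × X)) =
      (((law τ (stratI σ) z t) ⊗ₘ (τ.k t ×ₖ (stratI σ).k t)).map
        (fun p => (Fin.snoc p.1 p.2 : Fin (t + 1 + 1) → X × Y))).map (swI X Y (t + 1))
    rw [ih]
    have hswap : Measurable fun p : (Fin (t + 1) → X × Y) × (X × Y) =>
        ((swI X Y t p.1, (p.2.2, p.2.1)) : (Fin (t + 1) → Y × X) × (Y × X)) :=
      ((swI X Y t).measurable.comp measurable_fst).prodMk
        ((measurable_snd.comp measurable_snd).prodMk (measurable_fst.comp measurable_snd))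
    have key : (((law τ (stratI σ) z t).map (swI X Y t)) ⊗ₘ (σ.k t ×ₖ (stratI τ).k t)) =
        ((law τ (stratI σ) z t) ⊗ₘ (τ.k t ×ₖ (stratI σ).k t)).map
          (fun p => (swI X Y t p.1, (p.2.2, p.2.1))) := by
      have hpm : IsProbabilityMeasure ((law τ (stratI σ) z t).map (swI X Y t)) :=
        Measure.isProbabilityMeasure_map (swI X Y t).measurable.aemeasurable
      ext s hs
      rw [Measure.map_apply hswap hs, Measure.compProd_apply hs,
        Measure.compProd_apply (hswap hs),
        lintegral_map (ProbabilityTheory.Kernel.measurable_kernel_prodMk_left hs)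
          (swI X Y t).measurable]
      refine lintegral_congr fun h => ?_
      rw [Kernel.prod_apply, Kernel.prod_apply]
      have e1 : (stratI τ).k t (swI X Y t h) = τ.k t h := rfl
      have e2 : (stratI σ).k t h = σ.k t (swI X Y t h) := rfl
      rw [e1, e2, ← Measure.prod_swap, Measure.map_apply measurable_swap]
      · rfl
      · exact measurable_prodMk_left hs
    rw [key, Measure.map_map (measurable_snocI t (Y × X)) hswap,
      Measure.map_map (swI X Y (t + 1)).measurable (measurable_snocI t (X × Y))]
    congr 1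
    funext p
    funext i
    refine Fin.lastCases ?_ (fun j => ?_) i
    · simp only [Function.comp_apply, Fin.snoc_last, swI_apply]
    · simp only [Function.comp_apply, Fin.snoc_castSucc, swI_apply]

end swap

theorem partI : PartI := by
  intro X Y _ _ _ _ _ _ _ _ Γ Λ u _ σ
  refine ⟨stratI σ, fun τ => ⟨stratI τ, fun z n => ?_⟩⟩
  unfold payoff
  rw [← neg_div, ← Finset.sum_neg_distrib]
  congr 1
  refine Finset.sum_congr rfl fun t _ => ?_
  rw [partI_law_swap σ τ z t, integral_map_equiv, ← integral_neg]
  refine integral_congr_ae (Eventually.of_forall fun h => ?_)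
  simp only [swI_apply, Prod.mk.eta, neg_neg]

end Pool.Agent.R86.GG
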