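import Pool.Agent.R86.GG.PartP0

/-! Part P: Player 1 guarantees `w` uniformly. -/

open MeasureTheory ProbabilityTheory Set Filter Topology
open scoped NNReal ENNReal

namespace Pool.Agent.R86.GG

theorem partP (hB : PartB) (hF : PartF) (hG : PartG) : PartP := by
  intro X Y _ _ _ _ _ _ _ _ Γ Λ hΓ hΛ hAc K u w hu hw hexc hdep hreach ε₀ hε₀
  classical
  rcases isEmpty_or_nonempty Y with hY | hY
  · have hE : IsEmpty (X × Y) := inferInstance
    have hE2 : ∀ t : ℕ, IsEmpty (Fin (t + 1) → X × Y) := fun t =>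
      ⟨fun h => hE.false (h 0)⟩
    refine ⟨⟨fun t => 0, fun t => ⟨fun h => ((hE2 t).false h).elim⟩,
      fun t h => ((hE2 t).false h).elim⟩, 0, fun n _ τ z => (hE.false z).elim⟩
  -- constants
  obtain ⟨Cu, hCu0, hCu⟩ := exists_bound hu.continuous
  obtain ⟨Cw, hCw0, hCw⟩ := exists_bound hw.continuous
  obtain ⟨C, hC0, hC1, hC2⟩ : ∃ C, 0 ≤ C ∧ (∀ z, |u z| ≤ C) ∧ ∀ z, |w z| ≤ C :=
    ⟨max Cu Cw, hCu0.trans (le_max_left _ _), fun z => (hCu z).trans (le_max_left _ _),
      fun z => (hCw z).trans (le_max_right _ _)⟩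
  obtain ⟨ε, hε, hε3⟩ : ∃ ε, 0 < ε ∧ 3 * ε = ε₀ := ⟨ε₀ / 3, by positivity, by ring⟩
  obtain ⟨F₀, hF₀, η, hη, hdec₀⟩ := hB X Γ hΓ hAc (Cset Γ u w ε) (Cset_closed hu hw ε) (by
    rintro ⟨x, p⟩ ⟨h1, y, h2, h3⟩
    refine ⟨h1, fun hp => ?_⟩
    have hp' : p = diracProba x := hp
    subst hp'
    simp only [int_dirac] at h3
    simp only at h2
    linarith)
  obtain ⟨⟨LF₀, hLF₀⟩, _⟩ := id hF₀
  obtain ⟨B₀, hB₀0, hB₀⟩ := exists_bound hLF₀.continuous
  obtain ⟨F, hFexc, B, hB0, hFnn, hFB, hdec⟩ : ∃ F : X → ℝ, Exc Γ F ∧ ∃ B, 0 ≤ B ∧ (∀ x, 0 ≤ F x) ∧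
      (∀ x, F x ≤ B) ∧ ∀ z ∈ Cset Γ u w ε, ∫ a, F a ∂(z.2 : Measure X) ≤ F z.1 - η := by
    refine ⟨fun x => F₀ x + B₀, hF₀.add (Exc.const B₀), 2 * B₀, by positivity, fun x => ?_,
      fun x => ?_, fun z hz => ?_⟩
    · have := (abs_le.1 (hB₀ x)).1
      linarith
    · have := (abs_le.1 (hB₀ x)).2
      linarith
    · have h1 := hdec₀ z hz
      rw [integral_add (integrable_of_cont hLF₀.continuous _) (integrable_const _)]
      simp only [integral_const, probReal_univ, smul_eq_mul, one_mul]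
      linarith
  obtain ⟨⟨LF, hLF⟩, _⟩ := id hFexc
  have hFc : Continuous F := hLF.continuous
  obtain ⟨θ, hθ0, hθ1, hθB⟩ : ∃ θ : ℝ, 0 < θ ∧ θ < 1 ∧ 2 * C * θ * B ≤ η * ε / 2 := by
    have hCB : 0 ≤ C * B := by positivity
    refine ⟨min (1 / 2) (η * ε / (4 * (C * B + 1))), by positivity,
      (min_le_left _ _).trans_lt (by norm_num), ?_⟩
    have h1 : min (1 / 2) (η * ε / (4 * (C * B + 1))) ≤ η * ε / (4 * (C * B + 1)) :=
      min_le_right _ _
    have h2 : 2 * C * B * min (1 / 2) (η * ε / (4 * (C * B + 1))) ≤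
        2 * C * B * (η * ε / (4 * (C * B + 1))) := mul_le_mul_of_nonneg_left h1 (by positivity)
    have h3 : 2 * C * B * (η * ε / (4 * (C * B + 1))) ≤ η * ε / 2 := by
      rw [mul_div_assoc', div_le_div_iff₀ (by positivity) (by norm_num)]
      have : 0 < η * ε := by positivity
      nlinarith
    calc _ = 2 * C * B * min (1 / 2) (η * ε / (4 * (C * B + 1))) := by ring
      _ ≤ _ := h2.trans h3
  obtain ⟨δ, hδ0, hδθ, hδB⟩ : ∃ δ : ℝ, 0 < δ ∧ δ ≤ θ * ε / 2 ∧ δ * B ≤ η * ε / 2 := by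
    refine ⟨min (θ * ε / 2) (η * ε / (2 * (B + 1))), by positivity, min_le_left _ _, ?_⟩
    have h1 : min (θ * ε / 2) (η * ε / (2 * (B + 1))) ≤ η * ε / (2 * (B + 1)) := min_le_right _ _
    have h2 := mul_le_mul_of_nonneg_right h1 hB0
    refine h2.trans ?_
    rw [div_mul_eq_mul_div, div_le_div_iff₀ (by positivity) (by norm_num)]
    have : 0 < η * ε := by positivity
    nlinarith
  obtain ⟨ℓ, hℓ⟩ : ∃ ℓ, ℓ = δ + 2 * C * θ := ⟨_, rfl⟩
  have hℓ0 : 0 ≤ ℓ := by rw [hℓ]; positivity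
  have hℓB : ℓ * B ≤ η * ε := by
    rw [hℓ, add_mul]
    linarith
  -- the mesh
  obtain ⟨r, hr, hKr⟩ : ∃ r : ℝ, 0 < r ∧ K * r ≤ δ / 4 := by
    refine ⟨δ / (4 * (K + 1)), by positivity, ?_⟩
    rw [mul_div_assoc', div_le_div_iff₀ (by positivity) (by norm_num)]
    have : (0 : ℝ) ≤ K := K.2
    nlinarith
  obtain ⟨M, e, idx, hidxm, hidx⟩ := exists_net Y hr
  have hgy : ∀ y, LipschitzWith K (fun x => (1 - θ) * w (x, y) + θ * u (x, y)) := by
    intro y
    refine LipschitzWith.of_dist_le_mul fun a b => ?_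
    have h1 := (lip_fst hw y).dist_le_mul a b
    have h2 := (lip_fst hu y).dist_le_mul a b
    rw [Real.dist_eq, abs_le] at *
    constructor <;> nlinarith
  obtain ⟨g, hgdef⟩ : ∃ g : Fin (M + 1) → X → ℝ,
      g = fun i x => (1 - θ) * w (x, e i) + θ * u (x, e i) := ⟨_, rfl⟩
  have hg : ∀ i, LipschitzWith K (g i) := fun i => by rw [hgdef]; exact hgy (e i)
  have hδ4 : 0 < δ / 4 := by positivity
  choose N0 hN0 using fun i => hull_dini' hΓ (hg i) hδ4
  obtain ⟨N', hN'⟩ : ∃ N' : ℕ, ∀ i, N0 i ≤ N' + 1 :=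
    ⟨Finset.univ.sup N0, fun i => (Finset.le_sup (Finset.mem_univ i)).trans (Nat.le_succ _)⟩
  have hδN : 0 < δ / (4 * ((N' : ℝ) + 1)) := by positivity
  choose κ hκc hκm hκo using fun (i : Fin (M + 1)) (j : ℕ) =>
    hF X Γ hΓ K ((Lop Γ)^[j] (g i)) (iter_lip hΓ (hg i) j) _ hδN
  -- the continuous strategies are almost optimal
  have hV1 : ∀ i x, w (x, e i) - δ / 2 ≤ V (κ i) (N' + 1) (g i) x := by
    intro i x
    have h1 := V_approx hΓ (hκc i) (hg i) (δ := δ / (4 * ((N' : ℝ) + 1))) (fun j x => by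
      rw [Function.iterate_succ_apply']
      obtain ⟨p, hp, hpe⟩ := Lop_attained hΓ (iter_lip hΓ (hg i) j).continuous x
      rw [← hpe]
      exact hκo i j x p hp) (N' + 1) x
    have h2 : ((N' + 1 : ℕ) : ℝ) * (δ / (4 * ((N' : ℝ) + 1))) = δ / 4 := by
      push_cast
      field_simp
    rw [h2] at h1
    have h3 := hN0 i (N' + 1) (hN' i) x
    have h4 := hreach (e i) θ hθ0 hθ1 (hull Γ (g i)) (hull_exc hΓ (hg i)) (fun x => by
      have := le_hull hΓ (hg i) x
      rw [hgdef] at this ⊢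
      exact this) x
    linarith
  have hV2 : ∀ i x y, dist y (e i) < r → w (x, y) - δ ≤
      (1 - θ) * V (κ i) (N' + 1) (fun a => w (a, y)) x +
        θ * V (κ i) (N' + 1) (fun a => u (a, y)) x := by
    intro i x y hy
    have hrK : (K : ℝ) * dist y (e i) ≤ δ / 4 :=
      (mul_le_mul_of_nonneg_left hy.le K.2).trans hKr
    have hcy := (hgy y).continuous
    have h1 : ∀ a, g i a ≤ 1 * ((1 - θ) * w (a, y) + θ * u (a, y)) + 1 * (δ / 4) := by
      intro a
      rw [hgdef]
      have h1 := (lip_snd hw a).dist_le_mul (e i) y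
      have h2 := (lip_snd hu a).dist_le_mul (e i) y
      rw [dist_comm (e i) y, Real.dist_eq, abs_le] at h1 h2
      simp only
      nlinarith
    have h2 := V_mono (hκc i) (hg i).continuous (by fun_prop) h1 (N' + 1) x
    rw [V_lin (hκc i) hcy continuous_const 1 1, V_const,
      V_lin (hκc i) (lip_fst hw y).continuous (lip_fst hu y).continuous] at h2
    have h3 := hV1 i x
    have h4 := (lip_snd hw x).dist_le_mul (e i) y
    rw [dist_comm (e i) y, Real.dist_eq, abs_le] at h4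
    linarith
  -- the key estimate at the bad states
  have hkey : ∀ i x y, dist y (e i) < r → u (x, y) < w (x, y) - ε →
      w (x, y) - ℓ ≤ V (κ i) (N' + 1) (fun a => w (a, y)) x ∧
      V (κ i) (N' + 1) F x ≤ F x - η := by
    intro i x y hy hbad
    obtain ⟨P, _, hP⟩ := V_law (hκc i) (N' + 1)
    have h1 := hV2 i x y hy
    have hwe : V (κ i) (N' + 1) (fun a => w (a, y)) x ≤ w (x, y) :=
      V_le_of_exc (hκc i) (hκm i) ⟨⟨K, lip_fst hw y⟩, fun x p hp => hexc x y p hp⟩ (N' + 1) x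
    have hAu : V (κ i) (N' + 1) (fun a => u (a, y)) x ≤ C := by
      rw [← hP _ (lip_fst hu y).continuous x]
      exact int_le_of_le (lip_fst hu y).continuous (fun z => (abs_le.1 (hC1 _)).2) _
    have hAw : -C ≤ V (κ i) (N' + 1) (fun a => w (a, y)) x := by
      rw [← hP _ (lip_fst hw y).continuous x]
      exact le_int_of_le (lip_fst hw y).continuous (fun z => (abs_le.1 (hC2 _)).1) _
    have h2 : -(ε / 2) ≤ V (κ i) (N' + 1) (fun a => u (a, y)) x -
        V (κ i) (N' + 1) (fun a => w (a, y)) x := by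
      by_contra hcon
      push Not at hcon
      have := mul_lt_mul_of_pos_left hcon hθ0
      linarith
    constructor
    · rw [hℓ]
      nlinarith
    · rw [← hP F hFc x]
      refine hdec (x, P x) ⟨fun f hf => ?_, y, ?_, ?_⟩
      · obtain ⟨⟨L, hL⟩, _⟩ := id hf
        simp only
        rw [hP f hL.continuous x]
        exact V_le_of_exc (hκc i) (hκm i) hf (N' + 1) x
      · simp only
        linarith
      · simp only
        rw [hP _ (lip_fst hu y).continuous x, hP _ (lip_fst hw y).continuous x]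
        exact h2
  -- the automaton
  have hℓη : 0 ≤ ℓ / η := by positivity
  obtain ⟨QN, hQN⟩ : ∃ QN : ℕ → Fin (M + 1) → X × Y → ℝ, QN = fun j i z =>
      V (κ i) j (fun a => w (a, z.2)) z.1 - ℓ / η * V (κ i) j F z.1 := ⟨_, rfl⟩
  obtain ⟨ZN, hZN⟩ : ∃ ZN : ℕ → Fin (M + 1) → X × Y → ℝ, ZN = fun j i z =>
      2 * C * (((N' : ℝ) + 1) / η * V (κ i) j F z.1 + j) := ⟨_, rfl⟩
  have hVFc : ∀ j i, Continuous fun z : X × Y => V (κ i) j F z.1 := fun j i =>
    (V_cont (hκc i) hFc j).comp continuous_fst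
  have hQc : ∀ j i, Continuous (QN j i) := by
    intro j i
    rw [hQN]
    exact (V_joint (hκc i) hw j).sub ((hVFc j i).const_mul _)
  have hZc : ∀ j i, Continuous (ZN j i) := by
    intro j i
    rw [hZN]
    exact (((hVFc j i).const_mul _).add continuous_const).const_mul _
  have hVF0 : ∀ j i x, 0 ≤ V (κ i) j F x := by
    intro j i x
    have := V_mono (hκc i) continuous_const hFc hFnn j x
    rwa [V_const] at this
  have hZ0 : ∀ j i z, 0 ≤ ZN j i z := by
    intro j i z
    rw [hZN]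
    have := hVF0 j i z.1
    simp only
    positivity
  have hQdep : ∀ j i x y, ∀ q ∈ Λ y, QN j i (x, y) ≤ ∫ b, QN j i (x, b) ∂(q : Measure Y) := by
    intro j i x y q hq
    rw [hQN]
    simp only
    have hc : Continuous fun b => V (κ i) j (fun a => w (a, b)) x :=
      (V_joint (hκc i) hw j).comp (continuous_const.prodMk continuous_id)
    rw [integral_sub (integrable_of_cont hc q) (integrable_const _)]
    have := V_dep (hκc i) hw hdep j x y q hq
    simp only [integral_const, probReal_univ, smul_eq_mul, one_mul]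
    linarith
  have hQ1 : ∀ j i x y, ∫ a, QN j i (a, y) ∂(κ i j x : Measure X) = QN (j + 1) i (x, y) := by
    intro j i x y
    rw [hQN]
    simp only
    rw [integral_sub (integrable_of_cont (V_cont (hκc i) (lip_fst hw y).continuous j) _)
      ((integrable_of_cont (V_cont (hκc i) hFc j) _).const_mul _), integral_const_mul]
    rfl
  have hZ1 : ∀ j i x y, ∫ a, ZN j i (a, y) ∂(κ i j x : Measure X) =
      ZN (j + 1) i (x, y) - 2 * C := by
    intro j i x y
    rw [hZN]
    simp only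
    rw [integral_const_mul, integral_add
      ((integrable_of_cont (V_cont (hκc i) hFc j) _).const_mul _) (integrable_const _),
      integral_const_mul]
    simp only [integral_const, probReal_univ, smul_eq_mul, one_mul]
    show 2 * C * (((N' : ℝ) + 1) / η * V (κ i) (j + 1) F x + j) = _
    push_cast
    ring
  have hZdep : ∀ j i x y y', ZN j i (x, y) = ZN j i (x, y') := by
    intro j i x y y'
    rw [hZN]
  have hQC : ∀ j i z, QN j i z ≤ C := by
    intro j i z
    obtain ⟨P, _, hP⟩ := V_law (hκc i) j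
    have h1 : V (κ i) j (fun a => w (a, z.2)) z.1 ≤ C := by
      rw [← hP _ (lip_fst hw z.2).continuous z.1]
      exact int_le_of_le (lip_fst hw z.2).continuous (fun z => (abs_le.1 (hC2 _)).2) _
    have h2 := mul_nonneg hℓη (hVF0 j i z.1)
    rw [hQN]
    simp only
    linarith
  obtain ⟨eff, heff⟩ : ∃ eff : Fin (N' + 2) × Fin (M + 1) → X × Y → Fin (N' + 2) × Fin (M + 1),
      eff = fun s z => if s.1.val = 0 ∧ u z < w z - ε then (Fin.last (N' + 1), idx z.2) else s :=
    ⟨_, rfl⟩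
  have hmain : ∀ (s : Fin (N' + 2) × Fin (M + 1)) (x : X) (y : Y),
      QN s.1.val s.2 (x, y) ≤ ∫ a, QN ((eff s (x, y)).1.val - 1) (eff s (x, y)).2 (a, y)
        ∂(actN κ (eff s (x, y)).1.val (eff s (x, y)).2 x : Measure X) ∧
      QN s.1.val s.2 (x, y) - ε ≤ u (x, y) + (ZN s.1.val s.2 (x, y) -
        ∫ a, ZN ((eff s (x, y)).1.val - 1) (eff s (x, y)).2 (a, y)
        ∂(actN κ (eff s (x, y)).1.val (eff s (x, y)).2 x : Measure X)) := by
    rintro ⟨⟨j, hj⟩, i⟩ x y
    by_cases hb : j = 0 ∧ u (x, y) < w (x, y) - ε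
    · -- start of a block
      have he : eff (⟨j, hj⟩, i) (x, y) = (Fin.last (N' + 1), idx y) := by
        rw [heff]
        simp only
        rw [if_pos hb]
      obtain ⟨rfl, hbad⟩ := hb
      rw [he]
      show QN 0 i (x, y) ≤ ∫ a, QN N' (idx y) (a, y) ∂(κ (idx y) N' x : Measure X) ∧
        QN 0 i (x, y) - ε ≤ u (x, y) + (ZN 0 i (x, y) -
          ∫ a, ZN N' (idx y) (a, y) ∂(κ (idx y) N' x : Measure X))
      rw [hQ1, hZ1]
      obtain ⟨hk1, hk2⟩ := hkey (idx y) x y (hidx y) hbad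
      have hQC0 := hQC 0 i (x, y)
      constructor
      · rw [hQN]
        show w (x, y) - ℓ / η * F x ≤ _
        simp only
        have h1 : ℓ / η * V (κ (idx y)) (N' + 1) F x ≤ ℓ / η * (F x - η) :=
          mul_le_mul_of_nonneg_left hk2 hℓη
        have h2 : ℓ / η * (F x - η) = ℓ / η * F x - ℓ := by
          field_simp
        linarith
      · have hu0 := (abs_le.1 (hC1 (x, y))).1
        rw [hZN]
        show QN 0 i (x, y) - ε ≤ u (x, y) + (2 * C * (((N' : ℝ) + 1) / η * F x + ((0 : ℕ) : ℝ)) -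
          (2 * C * (((N' : ℝ) + 1) / η * V (κ (idx y)) (N' + 1) F x + ((N' + 1 : ℕ) : ℝ)) - 2 * C))
        have h1 : ((N' : ℝ) + 1) / η * V (κ (idx y)) (N' + 1) F x ≤
            ((N' : ℝ) + 1) / η * (F x - η) :=
          mul_le_mul_of_nonneg_left hk2 (by positivity)
        have h2 : ((N' : ℝ) + 1) / η * (F x - η) = ((N' : ℝ) + 1) / η * F x - (N' + 1) := by
          field_simp
        have h3 : 0 ≤ 2 * C * (((N' : ℝ) + 1) / η * F x -
            (((N' : ℝ) + 1) / η * V (κ (idx y)) (N' + 1) F x + (N' + 1))) :=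
          mul_nonneg (by positivity) (by linarith)
        push_cast
        linarith
    · have he : eff (⟨j, hj⟩, i) (x, y) = (⟨j, hj⟩, i) := by
        rw [heff]
        simp only
        rw [if_neg hb]
      rw [he]
      rcases j with _ | j
      · -- idle
        have hgood : w (x, y) - ε ≤ u (x, y) := by
          by_contra hcon
          exact hb ⟨rfl, not_le.1 hcon⟩
        show QN 0 i (x, y) ≤ ∫ a, QN 0 i (a, y) ∂(diracProba x : Measure X) ∧
          QN 0 i (x, y) - ε ≤ u (x, y) + (ZN 0 i (x, y) -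
            ∫ a, ZN 0 i (a, y) ∂(diracProba x : Measure X))
        rw [int_dirac (g := fun a => QN 0 i (a, y)), int_dirac (g := fun a => ZN 0 i (a, y))]
        refine ⟨le_refl _, ?_⟩
        have h1 : QN 0 i (x, y) ≤ w (x, y) := by
          rw [hQN]
          show w (x, y) - ℓ / η * F x ≤ w (x, y)
          have := mul_nonneg hℓη (hFnn x)
          linarith
        linarith
      · show QN (j + 1) i (x, y) ≤ ∫ a, QN j i (a, y) ∂(κ i j x : Measure X) ∧
          QN (j + 1) i (x, y) - ε ≤ u (x, y) + (ZN (j + 1) i (x, y) -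
            ∫ a, ZN j i (a, y) ∂(κ i j x : Measure X))
        rw [hQ1, hZ1]
        refine ⟨le_refl _, ?_⟩
        have hQC0 := hQC (j + 1) i (x, y)
        have hu0 := (abs_le.1 (hC1 (x, y))).1
        linarith
  have heffm : ∀ s, Measurable (eff s) := by
    intro s
    rw [heff]
    refine Measurable.ite ?_ (measurable_const.prodMk (hidxm.comp measurable_snd)) measurable_const
    by_cases hs : s.1.val = 0
    · simp only [hs, true_and]
      exact (isOpen_lt hu.continuous (hw.continuous.sub continuous_const)).measurableSet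
    · simp only [hs, false_and]
      exact MeasurableSet.const _
  obtain ⟨σ, hσ⟩ := hG X Y Γ Λ u hu.continuous (Fin (N' + 2) × Fin (M + 1)) (0, 0) eff
    (fun c => actN κ c.1.val c.2) (fun c => (⟨c.1.val - 1, by have := c.1.2; omega⟩, c.2))
    (fun s => QN s.1.val s.2) (fun s => ZN s.1.val s.2) ε
    (fun s c => heffm s (measurableSet_singleton c)) (by
      rintro ⟨⟨j, hj⟩, i⟩
      rcases j with _ | j
      · exact continuous_diracProba
      · exact hκc i j) (by
      rintro ⟨⟨j, hj⟩, i⟩ x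
      rcases j with _ | j
      · exact hΓ.leavable x
      · exact hκm i j x) (fun s => hQc _ _) (fun s => hZc _ _) (fun s z => hZ0 _ _ z)
    (fun s x y q hq => (hmain s x y).1.trans
      (dep_step (hQc _ _) (fun x y q hq => hQdep _ _ x y q hq) _ hq))
    (fun s x y q hq => by
      refine (hmain s x y).2.trans (le_of_eq ?_)
      congr 2
      refine integral_congr_ae (Eventually.of_forall fun a => ?_)
      simp only
      rw [show (fun b => ZN ((eff s (x, y)).1.val - 1) (eff s (x, y)).2 (a, b)) =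
        fun _ => ZN ((eff s (x, y)).1.val - 1) (eff s (x, y)).2 (a, y) from
          funext fun b => hZdep _ _ a b y]
      simp)
  obtain ⟨D, hD⟩ : ∃ D, D = 2 * C * (((N' : ℝ) + 1) / η * B) := ⟨_, rfl⟩
  have hD0 : 0 ≤ D := by rw [hD]; positivity
  refine ⟨σ, ⌈D / ε⌉₊ + 1, fun n hn τ z => ?_⟩
  have hn0 : (0 : ℝ) < n := by
    have : 0 < n := by omega
    exact_mod_cast this
  have hnD : D ≤ ε * n := by
    have h1 : D / ε ≤ ⌈D / ε⌉₊ := Nat.le_ceil _
    have h2 : ((⌈D / ε⌉₊ : ℕ) : ℝ) ≤ n := by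
      have : ⌈D / ε⌉₊ ≤ n := by omega
      exact_mod_cast this
    have h3 := h1.trans h2
    rw [div_le_iff₀ hε] at h3
    linarith
  have h1 := hσ τ z n
  have h2 : w z - ε ≤ QN 0 0 z := by
    rw [hQN]
    show w z - ε ≤ w z - ℓ / η * F z.1
    have h3 : ℓ / η * F z.1 ≤ ℓ / η * B := mul_le_mul_of_nonneg_left (hFB z.1) hℓη
    have h4 : ℓ / η * B ≤ ε := by
      rw [div_mul_eq_mul_div, div_le_iff₀ hη]
      linarith
    linarith
  have h3 : ZN 0 0 z ≤ D := by
    rw [hZN, hD]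
    show 2 * C * (((N' : ℝ) + 1) / η * F z.1 + ((0 : ℕ) : ℝ)) ≤ _
    have h4 : ((N' : ℝ) + 1) / η * F z.1 ≤ ((N' : ℝ) + 1) / η * B :=
      mul_le_mul_of_nonneg_left (hFB z.1) (by positivity)
    have h5 := mul_le_mul_of_nonneg_left h4 (show 0 ≤ 2 * C by positivity)
    simpa using h5
  show w z - ε₀ ≤ payoff u σ τ z n
  unfold payoff
  rw [le_div_iff₀ hn0]
  have h4 : (n : ℝ) * (w z - ε - ε) ≤ n * (QN 0 0 z - ε) :=
    mul_le_mul_of_nonneg_left (by linarith) hn0.le
  have h5 : (n : ℝ) * (QN 0 0 z - ε) - ZN 0 0 z ≤ _ := h1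
  nlinarith

end Pool.Agent.R86.GG
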