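import Pool.Agent.R86.GG.Kern
import Pool.Agent.R86.GG.Stmts

/-! Part P: Player 1 guarantees `w` uniformly. -/

open MeasureTheory ProbabilityTheory Set Filter Topology
open scoped NNReal ENNReal

namespace Pool.Agent.R86.GG

variable {X Y : Type} [MetricSpace X] [CompactSpace X] [MeasurableSpace X] [BorelSpace X]
  [MetricSpace Y] [CompactSpace Y] [MeasurableSpace Y] [BorelSpace Y]

theorem lip_fst {K : ℝ≥0} {w : X × Y → ℝ} (hw : LipschitzWith K w) (y : Y) :
    LipschitzWith K (fun x => w (x, y)) := by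
  refine LipschitzWith.of_dist_le_mul fun a b => ?_
  have := hw.dist_le_mul (a, y) (b, y)
  rwa [Prod.dist_eq, dist_self, max_eq_left dist_nonneg] at this

theorem lip_snd {K : ℝ≥0} {w : X × Y → ℝ} (hw : LipschitzWith K w) (x : X) :
    LipschitzWith K (fun y => w (x, y)) := by
  refine LipschitzWith.of_dist_le_mul fun a b => ?_
  have := hw.dist_le_mul (x, a) (x, b)
  rwa [Prod.dist_eq, dist_self, max_eq_right dist_nonneg] at this

theorem int_le_int_add {f g : X → ℝ} (hf : Continuous f) (hg : Continuous g) {c : ℝ}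
    (h : ∀ x, f x ≤ g x + c) (p : ProbabilityMeasure X) :
    ∫ z, f z ∂(p : Measure X) ≤ ∫ z, g z ∂(p : Measure X) + c := by
  have hc : Continuous fun x => g x + c := by fun_prop
  have h1 := int_mono hf hc h p
  have h2 : ∫ z, (g z + c) ∂(p : Measure X) = ∫ z, g z ∂(p : Measure X) + c := by
    rw [integral_add (integrable_of_cont hg p) (integrable_const c)]
    simp
  rwa [h2] at h1

/-- Joint continuity. -/
theorem cont_int_joint {K : ℝ≥0} {w : X × Y → ℝ} (hw : LipschitzWith K w) :
    Continuous (fun z : ProbabilityMeasure X × Y => ∫ a, w (a, z.2) ∂(z.1 : Measure X)) := by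
  refine continuous_prod_of_continuous_lipschitzWith' _ K (fun p => ?_)
    (fun y => cont_int (lip_fst hw y).continuous)
  have key : ∀ y y', ∫ a, w (a, y) ∂(p : Measure X) ≤
      ∫ a, w (a, y') ∂(p : Measure X) + K * dist y y' := by
    intro y y'
    refine int_le_int_add (lip_fst hw y).continuous (lip_fst hw y').continuous (fun a => ?_) p
    have := (lip_snd hw a).dist_le_mul y y'
    rw [Real.dist_eq] at this
    have := (abs_le.1 this).2
    linarith
  refine LipschitzWith.of_dist_le_mul fun y y' => ?_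
  rw [Real.dist_eq, abs_le]
  constructor
  · have := key y' y
    rw [dist_comm y' y] at this
    linarith
  · have := key y y'
    linarith

theorem integrable_prod {w : X × Y → ℝ} (hw : Continuous w) (p : ProbabilityMeasure X)
    (q : ProbabilityMeasure Y) :
    Integrable w ((p : Measure X).prod (q : Measure Y)) :=
  hw.integrable_of_hasCompactSupport (HasCompactSupport.of_compactSpace w)

theorem V_dep {κ : ℕ → X → ProbabilityMeasure X} (hκ : ∀ j, Continuous (κ j))
    {Λ : Y → Set (ProbabilityMeasure Y)} {K : ℝ≥0} {w : X × Y → ℝ} (hw : LipschitzWith K w)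
    (hdep : ∀ x y, ∀ q ∈ Λ y, w (x, y) ≤ ∫ b, w (x, b) ∂(q : Measure Y)) (j : ℕ) (x : X) (y : Y)
    (q : ProbabilityMeasure Y) (hq : q ∈ Λ y) :
    V κ j (fun a => w (a, y)) x ≤ ∫ b, V κ j (fun a => w (a, b)) x ∂(q : Measure Y) := by
  obtain ⟨P, _, hP⟩ := V_law hκ j
  have h1 : ∀ b, V κ j (fun a => w (a, b)) x = ∫ a, w (a, b) ∂(P x : Measure X) :=
    fun b => (hP _ (lip_fst hw b).continuous x).symm
  simp_rw [h1]
  rw [integral_integral_swap]
  · refine integral_mono (integrable_of_cont (lip_fst hw y).continuous _) ?_ fun a =>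
      hdep a y q hq
    exact (integrable_prod hw.continuous (P x) q).integral_prod_left
  · exact (integrable_prod (w := fun z : Y × X => w (z.2, z.1)) (by
      have := hw.continuous
      fun_prop) q (P x))

theorem V_joint {κ : ℕ → X → ProbabilityMeasure X} (hκ : ∀ j, Continuous (κ j))
    {K : ℝ≥0} {w : X × Y → ℝ} (hw : LipschitzWith K w) (j : ℕ) :
    Continuous (fun z : X × Y => V κ j (fun a => w (a, z.2)) z.1) := by
  obtain ⟨P, hPc, hP⟩ := V_law hκ j
  have h1 : ∀ z : X × Y, V κ j (fun a => w (a, z.2)) z.1 =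
      ∫ a, w (a, z.2) ∂(P z.1 : Measure X) :=
    fun z => (hP _ (lip_fst hw z.2).continuous z.1).symm
  simp_rw [h1]
  exact (cont_int_joint hw).comp ((hPc.comp continuous_fst).prodMk continuous_snd)

/-- The set on which `PartB` is used. -/
def Cset (Γ : X → Set (ProbabilityMeasure X)) (u w : X × Y → ℝ) (ε : ℝ) :
    Set (X × ProbabilityMeasure X) :=
  {z | z.2 ∈ Rset Γ z.1 ∧ ∃ y, u (z.1, y) - w (z.1, y) ≤ -ε ∧
    -(ε / 2) ≤ ∫ a, u (a, y) ∂(z.2 : Measure X) - ∫ a, w (a, y) ∂(z.2 : Measure X)}

theorem Cset_closed {Γ : X → Set (ProbabilityMeasure X)} {K : ℝ≥0} {u w : X × Y → ℝ}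
    (hu : LipschitzWith K u) (hw : LipschitzWith K w) (ε : ℝ) : IsClosed (Cset Γ u w ε) := by
  have h1 : IsClosed {z : X × ProbabilityMeasure X | z.2 ∈ Rset Γ z.1} := by
    have : {z : X × ProbabilityMeasure X | z.2 ∈ Rset Γ z.1} =
        ⋂ (f : X → ℝ) (_ : Exc Γ f), {z | ∫ a, f a ∂(z.2 : Measure X) ≤ f z.1} := by
      ext z
      simp [Rset]
    rw [this]
    refine isClosed_iInter fun f => isClosed_iInter fun hf => ?_
    obtain ⟨⟨L, hL⟩, _⟩ := hf
    exact isClosed_le ((cont_int hL.continuous).comp continuous_snd)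
      (hL.continuous.comp continuous_fst)
  have h2 : IsClosed {z : X × ProbabilityMeasure X | ∃ y, u (z.1, y) - w (z.1, y) ≤ -ε ∧
      -(ε / 2) ≤ ∫ a, u (a, y) ∂(z.2 : Measure X) - ∫ a, w (a, y) ∂(z.2 : Measure X)} := by
    have h3 : IsClosed {z : (X × ProbabilityMeasure X) × Y |
        u (z.1.1, z.2) - w (z.1.1, z.2) ≤ -ε ∧
        -(ε / 2) ≤ ∫ a, u (a, z.2) ∂(z.1.2 : Measure X) -
          ∫ a, w (a, z.2) ∂(z.1.2 : Measure X)} := by
      rw [ofPred_and]
      refine IsClosed.inter (isClosed_le ?_ continuous_const) (isClosed_le continuous_const ?_)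
      · have := hu.continuous
        have := hw.continuous
        fun_prop
      · have e : Continuous fun z : (X × ProbabilityMeasure X) × Y => (z.1.2, z.2) := by fun_prop
        exact ((cont_int_joint hu).comp e).sub ((cont_int_joint hw).comp e)
    have h4 := isClosedMap_fst_of_compactSpace (X := X × ProbabilityMeasure X) (Y := Y) _ h3
    convert h4 using 1
    ext z
    simp only [mem_ofPred_eq, mem_image, Prod.exists, exists_and_right, exists_eq_right]
  exact h1.inter h2

theorem exists_net (Y : Type) [MetricSpace Y] [CompactSpace Y] [MeasurableSpace Y] [BorelSpace Y]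
    [Nonempty Y] {r : ℝ} (hr : 0 < r) :
    ∃ (M : ℕ) (e : Fin (M + 1) → Y) (idx : Y → Fin (M + 1)), Measurable idx ∧
      ∀ y, dist y (e (idx y)) < r := by
  classical
  have hp : ∀ y : Y, ∃ k, dist y (TopologicalSpace.denseSeq Y k) < r := fun y =>
    (TopologicalSpace.denseRange_denseSeq Y).exists_dist_lt y hr
  have hm : Measurable fun y => Nat.find (hp y) := by
    refine measurable_find hp fun k => ?_
    exact (isOpen_lt (by fun_prop) continuous_const).measurableSet
  obtain ⟨t, ht⟩ := isCompact_univ.elim_finite_subcover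
    (fun k : ℕ => {y : Y | dist y (TopologicalSpace.denseSeq Y k) < r})
    (fun k => isOpen_lt (by fun_prop) continuous_const) (fun y _ => by
      obtain ⟨k, hk⟩ := hp y
      exact mem_iUnion.2 ⟨k, hk⟩)
  have hM : ∀ y, Nat.find (hp y) ≤ t.sup id := by
    intro y
    obtain ⟨k, hk⟩ := mem_iUnion.1 (ht (mem_univ y))
    obtain ⟨hkt, hk⟩ := mem_iUnion.1 hk
    exact (Nat.find_min' (hp y) hk).trans (Finset.le_sup (f := id) hkt)
  refine ⟨t.sup id, fun i => TopologicalSpace.denseSeq Y i,
    (fun n : ℕ => (⟨min n (t.sup id), by omega⟩ : Fin (t.sup id + 1))) ∘ fun y => Nat.find (hp y),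
    (Measurable.of_discrete).comp hm, fun y => ?_⟩
  show dist y (TopologicalSpace.denseSeq Y (min (Nat.find (hp y)) (t.sup id))) < r
  rw [min_eq_left (hM y)]
  exact Nat.find_spec (hp y)

/-- The actions of the automaton with `j` steps to go. -/
noncomputable def actN {I : Type} (κ : I → ℕ → X → ProbabilityMeasure X) :
    ℕ → I → X → ProbabilityMeasure X
  | 0, _ => diracProba
  | j + 1, i => κ i j

/-- Reduction of the two player conditions to one player conditions. -/
theorem dep_step {Λ : Y → Set (ProbabilityMeasure Y)} {Q : X × Y → ℝ} (hQ : Continuous Q)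
    (hdep : ∀ x y, ∀ q ∈ Λ y, Q (x, y) ≤ ∫ b, Q (x, b) ∂(q : Measure Y))
    (p : ProbabilityMeasure X) {y : Y} {q : ProbabilityMeasure Y} (hq : q ∈ Λ y) :
    ∫ a, Q (a, y) ∂(p : Measure X) ≤ ∫ a, (∫ b, Q (a, b) ∂(q : Measure Y)) ∂(p : Measure X) := by
  have hc : Continuous fun a => Q (a, y) := by fun_prop
  exact integral_mono (integrable_of_cont hc p) (integrable_prod hQ p q).integral_prod_left
    fun a => hdep a y q hq

end Pool.Agent.R86.GG
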